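import Pool.Agent.Lib.MP_72e2e6_nt.WP.El.Spec

/-! Degrees of the polynomials `f_n`, `g_n` and their compatibility with ring homomorphisms. -/

namespace Pool.Agent.MP72V

open Polynomial WeierstrassCurve

open scoped Classical

private theorem Deg_f {R : Type} [CommRing R] (W : WeierstrassCurve R) (n : ℕ) :
    mf W (n + 2) = A0 W (mf W (n + 1)) (mg W (n + 1)) /ₘ mf W n := by
  simp only [mf, mg, mfg]

private theorem Deg_g {R : Type} [CommRing R] (W : WeierstrassCurve R) (n : ℕ) :
    mg W (n + 2) = (A1 W (mf W (n + 1)) (mg W (n + 1)) - mf W (n + 2) * mg W n) /ₘ mf W n := by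
  simp only [mf, mg, mfg]

private def Deg_P {R : Type} [CommRing R] (W : WeierstrassCurve R) (n : ℕ) : Prop :=
  (mf W n).Monic ∧ (mf W n).natDegree = n ^ 2 ∧
    ((n = 0 ∧ mg W n = 0) ∨ (mg W n).natDegree < n ^ 2)

private theorem Deg_step {R : Type} [CommRing R] [Nontrivial R] (W : WeierstrassCurve R) (n : ℕ)
    (h0 : Deg_P W n) (h1 : Deg_P W (n + 1)) : Deg_P W (n + 2) := by
  obtain ⟨m0, d0, g0⟩ := h0
  obtain ⟨m1, d1, g1⟩ := h1
  have g1' : (mg W (n + 1)).natDegree < (n + 1) ^ 2 := by
    rcases g1 with ⟨h, _⟩ | h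
    · omega
    · exact h
  set f := mf W (n + 1) with hf
  set g := mg W (n + 1) with hg
  set e := (n + 1) ^ 2 with he
  have hXf : (X * f).Monic := monic_X.mul m1
  have hXfd : (X * f).natDegree = e + 1 := by
    rw [monic_X.natDegree_mul m1, natDegree_X, d1, add_comm]
  have hXg : (X * g).natDegree ≤ e := by
    refine natDegree_mul_le.trans ?_
    have := natDegree_X_le (R := R)
    omega
  have hfXg : (f + X * g).natDegree ≤ e := by
    refine (natDegree_add_le _ _).trans ?_
    rw [d1]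
    exact max_le le_rfl hXg
  have hgl : g.natDegree ≤ e - 1 := by omega
  have hgl' : g.natDegree ≤ e := by omega
  have hC : ∀ (c : R) (q : R[X]) (k : ℕ), q.natDegree ≤ k → (C c * q).natDegree ≤ k := by
    intro c q k hq
    refine natDegree_mul_le.trans ?_
    rw [natDegree_C]
    omega
  have hmul : ∀ (q r : R[X]) (k l m : ℕ), q.natDegree ≤ k → r.natDegree ≤ l → k + l ≤ m →
      (q * r).natDegree ≤ m := by
    intro q r k l m hq hr hkl
    exact natDegree_mul_le.trans (by omega)
  have hr : (C (2 * W.a₄) * (X * f) * g + C (4 * W.a₆) * (f + X * g) * g +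
      C (4 * W.a₂ * W.a₆ - W.a₄ ^ 2) * g ^ 2).natDegree ≤ 2 * e := by
    refine (natDegree_add_le _ _).trans (max_le ((natDegree_add_le _ _).trans
      (max_le ?_ ?_)) ?_)
    · exact hmul _ g (e + 1) (e - 1) (2 * e) (hC _ _ _ hXfd.le) hgl (by omega)
    · exact hmul _ g e e _ (hC _ _ _ hfXg) hgl' (by omega)
    · rw [pow_two g]
      exact hC _ _ _ (hmul g g e e (2 * e) hgl' hgl' (by omega))
  have hA0 : A0 W f g = (X * f) ^ 2 - (C (2 * W.a₄) * (X * f) * g +
      C (4 * W.a₆) * (f + X * g) * g + C (4 * W.a₂ * W.a₆ - W.a₄ ^ 2) * g ^ 2) := by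
    unfold A0
    ring
  have hsq : ((X * f) ^ 2).natDegree = 2 * e + 2 := by
    rw [hXf.natDegree_pow, hXfd]
    ring
  have hA0m : (A0 W f g).Monic := by
    rw [hA0]
    refine (hXf.pow 2).sub_of_left ?_
    exact degree_lt_degree (by omega)
  have hA0d : (A0 W f g).natDegree = 2 * e + 2 := by
    rw [hA0, natDegree_sub_eq_left_of_natDegree_lt (by omega), hsq]
  have hA1d : (A1 W f g).natDegree ≤ 2 * e + 1 := by
    unfold A1
    refine (natDegree_add_le _ _).trans (max_le ((natDegree_add_le _ _).trans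
      (max_le ((natDegree_add_le _ _).trans (max_le ?_ ?_)) ?_)) ?_)
    · have h2 : (2 : R[X]) * (f + X * g) = C 2 * (f + X * g) := by
        rw [C_ofNat]
      rw [h2]
      exact hmul _ _ e (e + 1) _ (hC _ _ _ hfXg) hXfd.le (by omega)
    · exact hmul _ g (e + 1) e _ (hC _ _ _ hXfd.le) hgl' (by omega)
    · exact hmul _ g e e _ (hC _ _ _ hfXg) hgl' (by omega)
    · rw [pow_two g]
      exact (hC _ _ _ (hmul g g e e (2 * e) hgl' hgl' (by omega))).trans (by omega)
  have hen : 2 * e + 2 = (n + 2) ^ 2 + n ^ 2 := by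
    rw [he]
    ring
  have hn2 : 0 < (n + 2) ^ 2 := by positivity
  have hf2m : (mf W (n + 2)).Monic := by
    rw [Deg_f]
    unfold Monic
    rw [leadingCoeff_divByMonic_of_monic m0]
    · exact hA0m
    · refine (degree_lt_degree ?_).le
      change _ < (A0 W f g).natDegree
      omega
  have hf2d : (mf W (n + 2)).natDegree = (n + 2) ^ 2 := by
    rw [Deg_f, natDegree_divByMonic _ m0]
    change (A0 W f g).natDegree - _ = _
    omega
  have hprod : (mf W (n + 2) * mg W n).natDegree ≤ (n + 2) ^ 2 + n ^ 2 - 1 := by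
    rcases g0 with ⟨h, h'⟩ | h
    · rw [h', mul_zero, natDegree_zero]
      omega
    · exact hmul _ _ ((n + 2) ^ 2) (n ^ 2 - 1) _ hf2d.le (by omega) (by omega)
  have hg2 : (mg W (n + 2)).natDegree < (n + 2) ^ 2 := by
    rw [Deg_g, natDegree_divByMonic _ m0]
    have h3 : (A1 W f g - mf W (n + 2) * mg W n).natDegree ≤ (n + 2) ^ 2 + n ^ 2 - 1 := by
      refine (natDegree_sub_le _ _).trans (max_le ?_ hprod)
      omega
    change (A1 W f g - mf W (n + 2) * mg W n).natDegree - _ < _
    omega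
  exact ⟨hf2m, hf2d, Or.inr hg2⟩

private theorem Deg_all {R : Type} [CommRing R] [Nontrivial R] (W : WeierstrassCurve R) (n : ℕ) :
    Deg_P W n ∧ Deg_P W (n + 1) := by
  induction n with
  | zero =>
    constructor
    · refine ⟨?_, ?_, Or.inl ⟨rfl, ?_⟩⟩
      · simp only [mf, mfg]
        exact monic_one
      · simp only [mf, mfg]
        simp
      · simp only [mg, mfg]
    · refine ⟨?_, ?_, Or.inr ?_⟩
      · simp only [mf, mfg]
        exact monic_X
      · simp only [mf, mfg]
        simp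
      · simp only [mg, mfg]
        simp
  | succ n ih => exact ⟨ih.2, Deg_step W n ih.1 ih.2⟩

theorem tDeg : S_Deg := by
  have key : ∀ (R : Type) [CommRing R] [Nontrivial R] (W : WeierstrassCurve R) (n : ℕ),
      (mf W n).Monic ∧ (mf W n).natDegree = n ^ 2 ∧ (mg W n).degree < (mf W n).degree := by
    intro R _ _ W n
    obtain ⟨hm, hd, hg⟩ := (Deg_all W n).1
    refine ⟨hm, hd, ?_⟩
    rcases hg with ⟨_, h⟩ | h
    · rw [h, degree_zero, bot_lt_iff_ne_bot, Ne, degree_eq_bot]
      exact hm.ne_zero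
    · exact degree_lt_degree (by omega)
  refine ⟨key, ?_⟩
  intro R S _ _ _ φ W
  have : Nontrivial R := φ.domain_nontrivial
  have h2 : ∀ n : ℕ, (mf (W.map φ) n = (mf W n).map φ ∧ mg (W.map φ) n = (mg W n).map φ) ∧
      (mf (W.map φ) (n + 1) = (mf W (n + 1)).map φ ∧
        mg (W.map φ) (n + 1) = (mg W (n + 1)).map φ) := by
    intro n
    induction n with
    | zero =>
      simp only [mf, mg, mfg]
      simp
    | succ n ih =>
      obtain ⟨⟨a1, a2⟩, a3, a4⟩ := ih
      refine ⟨⟨a3, a4⟩, ?_⟩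
      have hA0 : A0 (W.map φ) (mf (W.map φ) (n + 1)) (mg (W.map φ) (n + 1)) =
          (A0 W (mf W (n + 1)) (mg W (n + 1))).map φ := by
        rw [a3, a4]
        unfold A0
        simp [Polynomial.map_sub, Polynomial.map_add, Polynomial.map_mul, Polynomial.map_pow,
          map_ofNat φ]
      have hA1 : A1 (W.map φ) (mf (W.map φ) (n + 1)) (mg (W.map φ) (n + 1)) =
          (A1 W (mf W (n + 1)) (mg W (n + 1))).map φ := by
        rw [a3, a4]
        unfold A1
        simp [Polynomial.map_sub, Polynomial.map_add, Polynomial.map_mul, Polynomial.map_pow,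
          map_ofNat φ]
      have e1 : mf (W.map φ) (n + 2) = (mf W (n + 2)).map φ := by
        rw [Deg_f, Deg_f, hA0, a1, Polynomial.map_divByMonic φ (key R W n).1]
      refine ⟨e1, ?_⟩
      rw [Deg_g, Deg_g, hA1, e1, a1, a2, Polynomial.map_divByMonic φ (key R W n).1,
        Polynomial.map_sub, Polynomial.map_mul]
  exact fun n => (h2 n).1

end Pool.Agent.MP72V
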