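import Pool.Agent.Lib.MP_72e2e6_nt.WP.El.Spec

/-! # A field with a derivation (elliptic block, file El/Dv) -/

namespace Pool.Agent.MP72V

open Polynomial

open scoped Classical

open scoped TensorProduct in
private theorem dv_der (K L : Type) [Field K] [Field L] [Algebra K L] [Algebra K[X] L]
    [IsScalarTower K K[X] L] [Algebra.FormallyEtale K[X] L] :
    ∃ D : Derivation K L L, D (algebraMap K[X] L X) = 1 := by
  refine ⟨(((Derivation.liftKaehlerDifferential
    (Polynomial.mkDerivation K (1 : L))).liftBaseChange L) ∘ₗ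
      ((KaehlerDifferential.tensorKaehlerEquivOfFormallyEtale K K[X] L).symm :
        Ω[L⁄K] →ₗ[L] L ⊗[K[X]] Ω[K[X]⁄K])).compDer (KaehlerDifferential.D K L), ?_⟩
  change (LinearMap.liftBaseChange L ((mkDerivation K) (1 : L)).liftKaehlerDifferential)
    ((KaehlerDifferential.tensorKaehlerEquivOfFormallyEtale K K[X] L).symm
      (KaehlerDifferential.D K L (algebraMap K[X] L X))) = 1
  rw [KaehlerDifferential.tensorKaehlerEquivOfFormallyEtale_symm_D_algebraMap,
    LinearMap.liftBaseChange_tmul, one_smul, Derivation.liftKaehlerDifferential_comp_D,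
    Polynomial.mkDerivation_X]

theorem tDv : S_Dv := by
  intro K _ h2 c hc
  have h1 : Algebra.FormallyEtale K[X] (RatFunc K) :=
    Algebra.FormallyEtale.of_isLocalization (nonZeroDivisors K[X])
  have h3 : Algebra.FormallyEtale (RatFunc K) (SeparableClosure (RatFunc K)) :=
    Algebra.FormallyEtale.of_isSeparable _ _
  have h4 : Algebra.FormallyEtale K[X] (SeparableClosure (RatFunc K)) :=
    Algebra.FormallyEtale.comp _ (RatFunc K) _
  have h5 : IsScalarTower K K[X] (SeparableClosure (RatFunc K)) := by
    refine IsScalarTower.of_algebraMap_eq fun a => ?_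
    rw [IsScalarTower.algebraMap_apply K (RatFunc K) (SeparableClosure (RatFunc K)),
      IsScalarTower.algebraMap_apply K[X] (RatFunc K) (SeparableClosure (RatFunc K)),
      ← IsScalarTower.algebraMap_apply K K[X] (RatFunc K)]
  obtain ⟨D, hD⟩ := dv_der K (SeparableClosure (RatFunc K))
  have hinj : Function.Injective (algebraMap K[X] (SeparableClosure (RatFunc K))) := by
    rw [IsScalarTower.algebraMap_eq K[X] (RatFunc K) (SeparableClosure (RatFunc K))]
    exact (algebraMap (RatFunc K) _).injective.comp (IsFractionRing.injective K[X] (RatFunc K))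
  have hae : ∀ h : K[X], aeval (algebraMap K[X] (SeparableClosure (RatFunc K)) X) h =
      algebraMap K[X] (SeparableClosure (RatFunc K)) h := by
    intro h
    rw [aeval_algebraMap_apply, aeval_X_left_apply]
  have : NeZero (2 : SeparableClosure (RatFunc K)) := ⟨by
    have h5 := (map_ne_zero (algebraMap K (SeparableClosure (RatFunc K)))).2 h2
    rwa [map_ofNat] at h5⟩
  obtain ⟨y, hy⟩ := IsSepClosed.exists_eq_mul_self
    (aeval (algebraMap K[X] (SeparableClosure (RatFunc K)) X) c)
  refine ⟨SeparableClosure (RatFunc K), inferInstance, inferInstance, D, _, y, ?_, hD, ?_⟩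
  · intro h hh
    rw [hae] at hh
    exact hinj (by rw [hh, map_zero])
  · rw [sq, hy]

end Pool.Agent.MP72V
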