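import Pool.Agent.Lib.MP_72e2e6_nt.WP.El.Spec

/-!
# MP_72e2e6_nt, theorem T3 for odd characteristic, elliptic block: `S_It`
-/

namespace Pool.Agent.MP72V

open Polynomial WeierstrassCurve
open Pool.Agent.MP72W (pmap)

open scoped Classical

theorem tIt (h1 : S_Bas) (h2 : S_Fr) (h3 : S_Vh) : S_It := by
  intro p hp hp2 K _ _ W hW L _ _
  have h2K : (2 : K) ≠ 0 := by
    intro h0
    have h : ((2 : ℕ) : K) = 0 := by exact_mod_cast h0
    rw [CharP.cast_eq_zero_iff K p 2] at h
    exact hp2 ((Nat.prime_dvd_prime_iff_eq hp.out Nat.prime_two).mp h)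
  have A1 : ∀ (n : ℕ) (P Q : Pt p W 0 L), Fn p W n (P + Q) = Fn p W n P + Fn p W n Q := by
    intro n
    induction n with
    | zero => intro P Q; rfl
    | succ n ih =>
      intro P Q
      change Fi p W n (Fn p W n (P + Q)) = Fi p W n (Fn p W n P) + Fi p W n (Fn p W n Q)
      rw [ih, (h2 p hp2 K W hW n L).2.2.1]
  have A2 : ∀ (n : ℕ) (P Q : Pt p W n L), Vn p W n (P + Q) = Vn p W n P + Vn p W n Q := by
    intro n
    induction n with
    | zero => intro P Q; rfl
    | succ n ih =>
      intro P Q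
      change Vn p W n (Vi p W n (P + Q)) = Vn p W n (Vi p W n P) + Vn p W n (Vi p W n Q)
      rw [(h3 p hp2 K W hW n L).2.1, ih]
  have V0 : ∀ n : ℕ, Vn p W n (0 : Pt p W n L) = 0 := by
    intro n
    exact (AddMonoidHom.mk' (Vn p W n) (A2 n)).map_zero
  have F0 : ∀ n : ℕ, Fn p W n (0 : Pt p W 0 L) = 0 := by
    intro n
    exact (AddMonoidHom.mk' (Fn p W n) (A1 n)).map_zero
  have FiN : ∀ (n m : ℕ) (P : Pt p W n L), Fi p W n (m • P) = m • Fi p W n P := by
    intro n m P
    exact (AddMonoidHom.mk' (Fi p W n) ((h2 p hp2 K W hW n L).2.2.1)).map_nsmul m P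
  have VnN : ∀ (n m : ℕ) (P : Pt p W n L), Vn p W n (m • P) = m • Vn p W n P := by
    intro n m P
    exact (AddMonoidHom.mk' (Vn p W n) (A2 n)).map_nsmul m P
  have A3 : ∀ (n : ℕ) (P : Pt p W 0 L), Vn p W n (Fn p W n P) = p ^ n • P := by
    intro n
    induction n with
    | zero =>
      intro P
      rw [pow_zero, one_nsmul]
      rfl
    | succ n ih =>
      intro P
      change Vn p W n (Vi p W n (Fi p W n (Fn p W n P))) = _
      rw [(h3 p hp2 K W hW n L).2.2.1, VnN, ih, ← mul_nsmul, pow_succ]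
  have A4 : ∀ (n : ℕ) (P : Pt p W n L), Fn p W n (Vn p W n P) = p ^ n • P := by
    intro n
    induction n with
    | zero =>
      intro P
      rw [pow_zero, one_nsmul]
      rfl
    | succ n ih =>
      intro P
      change Fi p W n (Fn p W n (Vn p W n (Vi p W n P))) = _
      rw [ih, FiN, (h3 p hp2 K W hW n L).2.2.2.1, pow_succ, mul_nsmul']
  have A5 : ∀ (n : ℕ) (P Q : Pt p W 0 L), Fn p W n P = Fn p W n Q → P = Q := by
    intro n
    induction n with
    | zero => intro P Q h; exact h
    | succ n ih =>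
      intro P Q h
      exact ih P Q ((h2 p hp2 K W hW n L).2.2.2.1 _ _ h)
  have A6 : ∀ (n : ℕ) (S M : Type) [Field S] [Field M] [Algebra K S] [Algebra K M] [Algebra S L]
      [Algebra S M] [IsScalarTower K S L] [IsScalarTower K S M] (f : L →ₐ[S] M),
      (∀ P : Pt p W 0 L, pmap (fr p W n) f (Fn p W n P) = Fn p W n (pmap (fr p W 0) f P)) ∧
      ∀ P : Pt p W n L, pmap (fr p W 0) f (Vn p W n P) = Vn p W n (pmap (fr p W n) f P) := by
    intro n S M _ _ _ _ _ _ _ _ f
    induction n with
    | zero => exact ⟨fun P => rfl, fun P => rfl⟩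
    | succ n ih =>
      have k1 := (h2 p hp2 K W hW n L).2.2.2.2.1 S M f
      have k2 := (h3 p hp2 K W hW n L).2.2.2.2.1 S M f
      constructor
      · intro P
        change pmap (fr p W (n + 1)) f (Fi p W n (Fn p W n P)) =
          Fi p W n (Fn p W n (pmap (fr p W 0) f P))
        rw [k1, ih.1]
      · intro P
        change pmap (fr p W 0) f (Vn p W n (Vi p W n P)) =
          Vn p W n (Vi p W n (pmap (fr p W (n + 1)) f P))
        rw [ih.2, k2]
  -- the kernel of `Vn`
  have B2 : ∀ n : ℕ, {P : Pt p W n L | Vn p W n P = 0}.Finite ∧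
      {P : Pt p W n L | Vn p W n P = 0}.ncard ≤ p ^ n := by
    intro n
    induction n with
    | zero =>
      have : {P : Pt p W 0 L | Vn p W 0 P = 0} = {0} := by
        ext P
        simp only [Set.mem_ofPred_eq, Set.mem_singleton_iff]
        exact Iff.rfl
      rw [this]
      exact ⟨Set.finite_singleton _, by rw [Set.ncard_singleton, pow_zero]⟩
    | succ n ih =>
      have hkf := (h3 p hp2 K W hW n L).2.2.2.2.2.1
      have hkc := (h3 p hp2 K W hW n L).2.2.2.2.2.2
      have hfib : ∀ P₀ : Pt p W (n + 1) L,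
          {P : Pt p W (n + 1) L | Vi p W n P = Vi p W n P₀} ⊆
            (fun T => T + P₀) '' {X : Pt p W (n + 1) L | Vi p W n X = 0} := by
        intro P₀ P hP
        have hP' : Vi p W n P = Vi p W n P₀ := hP
        have e1 : Vi p W n (P - P₀) + Vi p W n P₀ = Vi p W n P := by
          rw [← (h3 p hp2 K W hW n L).2.1, sub_add_cancel]
        rw [hP'] at e1
        have e2 : Vi p W n (P - P₀) = 0 := by
          exact left_eq_add.mp (by rw [add_comm]; exact e1.symm)
        exact ⟨P - P₀, e2, sub_add_cancel P P₀⟩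
      have hfib2 : ∀ Q : Pt p W n L, {P : Pt p W (n + 1) L | Vi p W n P = Q}.Finite ∧
          {P : Pt p W (n + 1) L | Vi p W n P = Q}.ncard ≤ p := by
        intro Q
        by_cases hQ : ∃ P₀ : Pt p W (n + 1) L, Vi p W n P₀ = Q
        · obtain ⟨P₀, rfl⟩ := hQ
          have hfin := hkf.image (fun T => T + P₀)
          exact ⟨hfin.subset (hfib P₀),
            (Set.ncard_le_ncard (hfib P₀) hfin).trans ((Set.ncard_image_le hkf).trans hkc)⟩
        · have : {P : Pt p W (n + 1) L | Vi p W n P = Q} = ∅ := by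
            ext P
            simp only [Set.mem_ofPred_eq, Set.mem_empty_iff_false, iff_false]
            exact fun h => hQ ⟨P, h⟩
          rw [this]
          exact ⟨Set.finite_empty, by rw [Set.ncard_empty]; exact Nat.zero_le _⟩
      have hfin : {P : Pt p W (n + 1) L | Vn p W (n + 1) P = 0}.Finite := by
        have : {P : Pt p W (n + 1) L | Vn p W (n + 1) P = 0} ⊆
            ⋃ Q ∈ {P : Pt p W n L | Vn p W n P = 0}, {P : Pt p W (n + 1) L | Vi p W n P = Q} := by
          intro P hP
          simp only [Set.mem_iUnion, Set.mem_ofPred_eq, exists_prop, exists_eq_right']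
          exact hP
        exact (ih.1.biUnion (fun Q _ => (hfib2 Q).1)).subset this
      refine ⟨hfin, ?_⟩
      have hc := Finset.card_le_mul_card_image (f := Vi p W n) hfin.toFinset p (by
        intro Q _
        have : (hfin.toFinset.filter (fun a => Vi p W n a = Q)) ⊆ (hfib2 Q).1.toFinset := by
          intro a ha
          rw [Finset.mem_filter] at ha
          rw [Set.Finite.mem_toFinset]
          exact ha.2
        refine (Finset.card_le_card this).trans ?_
        rw [← Set.ncard_eq_toFinset_card _ (hfib2 Q).1]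
        exact (hfib2 Q).2)
      have hc2 : (hfin.toFinset.image (Vi p W n)).card ≤ p ^ n := by
        have : (hfin.toFinset.image (Vi p W n)) ⊆ ih.1.toFinset := by
          intro Q hQ
          rw [Finset.mem_image] at hQ
          obtain ⟨P, hP, rfl⟩ := hQ
          rw [Set.Finite.mem_toFinset] at hP ⊢
          exact hP
        refine (Finset.card_le_card this).trans ?_
        rw [← Set.ncard_eq_toFinset_card _ ih.1]
        exact ih.2
      rw [Set.ncard_eq_toFinset_card _ hfin, pow_succ, mul_comm]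
      exact hc.trans (Nat.mul_le_mul_left p hc2)
  have B3 : ∀ (k : ℕ) (R : Pt p W k L), IsR p W k R → addOrderOf R = p ^ k := by
    intro k R hR
    have e1 : p ^ k • R = 0 := by rw [← A4, hR.1, F0]
    rcases k with _ | k
    · rw [pow_zero, one_nsmul] at e1
      rw [e1, addOrderOf_zero, pow_zero]
    · exact addOrderOf_eq_prime_pow (hR.2 k (Nat.lt_succ_self k)) e1
  have B4 : ∀ (k : ℕ) (R : Pt p W k L), IsR p W k R →
      ∀ P : Pt p W k L, Vn p W k P = 0 ↔ ∃ m : ℕ, P = m • R := by
    intro k R hR P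
    constructor
    · intro hP
      have hord := B3 k R hR
      have hsub : (Set.range fun i : Fin (p ^ k) => (i : ℕ) • R) ⊆
          {P : Pt p W k L | Vn p W k P = 0} := by
        rintro _ ⟨i, rfl⟩
        change Vn p W k ((i : ℕ) • R) = 0
        rw [VnN, hR.1, smul_zero]
      have hinj : Function.Injective (fun i : Fin (p ^ k) => (i : ℕ) • R) := by
        intro i i' h
        have h' : (i : ℕ) • R = (i' : ℕ) • R := h
        rw [nsmul_eq_nsmul_iff_modEq, hord] at h'
        exact Fin.ext (Nat.ModEq.eq_of_lt_of_lt h' i.2 i'.2)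
      have hcard : (Set.range fun i : Fin (p ^ k) => (i : ℕ) • R).ncard = p ^ k := by
        rw [← Set.image_univ, Set.ncard_image_of_injective _ hinj, Set.ncard_univ, Nat.card_fin]
      have heq := Set.eq_of_subset_of_ncard_le hsub (by rw [hcard]; exact (B2 k).2) (B2 k).1
      have : P ∈ {P : Pt p W k L | Vn p W k P = 0} := hP
      rw [← heq] at this
      obtain ⟨i, hi⟩ := this
      exact ⟨i, hi.symm⟩
    · rintro ⟨m, rfl⟩
      rw [VnN, hR.1, smul_zero]
  refine ⟨A1, A2, A3, A4, A5, A6, B2, fun k R hR => ⟨B3 k R hR, B4 k R hR⟩, ?_, ?_⟩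
  · intro k R hR
    refine ⟨hR.1, ?_⟩
    intro n hn h0
    apply hR.2 (n + 1) (Nat.succ_lt_succ hn)
    have := congrArg (Fi p W k) h0
    rw [FiN, (h3 p hp2 K W hW k L).2.2.2.1, (h2 p hp2 K W hW k L).1] at this
    rw [pow_succ, mul_nsmul']
    exact this
  · intro k R S M _ _ _ _ _ _ _ _ f hR
    refine ⟨?_, ?_⟩
    · rw [← (A6 k S M f).2, hR.1, map_zero]
    · intro n hn h0
      apply hR.2 n hn
      obtain ⟨-, -, -, -, -, hmap⟩ := h1.1 K h2K (fr p W k) ((h1.2 K p W hW).1 k).1 L
      obtain ⟨-, hinj, -⟩ := hmap S M f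
      apply hinj
      rw [map_nsmul, h0, map_zero]

end Pool.Agent.MP72V
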