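import Pool.Agent.Lib.MP_72e2e6_nt.WP.El.Spec

namespace Pool.Agent.MP72V

open Polynomial WeierstrassCurve

open scoped Classical

private theorem mu_rp_smul {L : Type} [Field L] {W : WeierstrassCurve.Affine L} {P : W.Point}
    {u v c : L} (hc : c ≠ 0) (h : Rp P (c * u) (c * v)) : Rp P u v where
  nz := by
    rcases h.nz with h1 | h1
    · exact Or.inl (right_ne_zero_of_mul h1)
    · exact Or.inr (right_ne_zero_of_mul h1)
  zero := fun hP => (mul_eq_zero.1 (h.zero hP)).resolve_left hc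
  aff := fun x y hxy => by
    obtain ⟨h1, h2⟩ := h.aff x y hxy
    exact ⟨right_ne_zero_of_mul h1, mul_left_cancel₀ hc (by rw [h2]; ring)⟩

private theorem mu_rp_zero (h1 : S_Pts) {L : Type} [Field L] (h2 : (2 : L) ≠ 0)
    (W : WeierstrassCurve.Affine L) (hW : IsNf W) : Rp (0 : W.Point) 1 0 := by
  obtain ⟨-, a2, -⟩ := h1 L h2 W hW
  exact ⟨Or.inl one_ne_zero, fun _ => rfl, fun x y hxy => absurd rfl (a2 0 x y hxy).1⟩

private theorem mu_rp_aff (h1 : S_Pts) {L : Type} [Field L] (h2 : (2 : L) ≠ 0)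
    (W : WeierstrassCurve.Affine L) (hW : IsNf W) (P : W.Point) (x y : L) (h : XY P x y) :
    Rp P x 1 := by
  obtain ⟨-, a2, -⟩ := h1 L h2 W hW
  refine ⟨Or.inr one_ne_zero, fun h' => absurd h' (a2 P x y h).1,
    fun x' y' hxy => ⟨one_ne_zero, ?_⟩⟩
  rw [mul_one, ← (a2 P x y h).2.1, (a2 P x' y' hxy).2.1]

private theorem mu_rp_exists (h1 : S_Pts) {L : Type} [Field L] (h2 : (2 : L) ≠ 0)
    (W : WeierstrassCurve.Affine L) (hW : IsNf W) (P : W.Point) : ∃ r t, Rp P r t := by
  obtain ⟨a1, -⟩ := h1 L h2 W hW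
  rcases a1 P with h | ⟨x, y, h⟩
  · rw [h]
    exact ⟨1, 0, mu_rp_zero h1 h2 W hW⟩
  · exact ⟨x, 1, mu_rp_aff h1 h2 W hW P x y h⟩

/-- The addition-subtraction formulas for `(n + 1) P` and `P`. -/
private theorem mu_as (h1 : S_Pts) (h2 : S_Bas) (h3 : S_AS) {K : Type} [Field K] (hK : (2 : K) ≠ 0)
    (W : WeierstrassCurve K) (hW : IsNf W) {L : Type} [Field L] [Algebra K L] (φ : K[X] →+* L)
    (hφ : ∀ a, φ (C a) = algebraMap K L a) (P : (W⁄L).toAffine.Point) (y : L)
    (hP : XY P (φ X) y) (n : ℕ) (f g F G : K[X]) (h4 : Rp (n • P) (φ f) (φ g))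
    (h5 : Rp ((n + 1) • P) (φ F) (φ G)) (r t : L) (h6 : Rp ((n + 2) • P) r t) :
    ∃ c : L, c ≠ 0 ∧ r * φ f = c * φ (A0 W F G) ∧ r * φ g + t * φ f = c * φ (A1 W F G) ∧
      t * φ g = c * φ ((F - X * G) ^ 2) := by
  obtain ⟨b1, b2, b3, b4, b5, -⟩ := h2.1 K hK W hW L
  have hadd : (n + 1) • P + P = (n + 2) • P := by
    rw [← succ_nsmul]
  have hsub : (n + 1) • P - P = n • P := by
    rw [succ_nsmul, add_sub_cancel_right]
  obtain ⟨c, hc, e0, e1, e2⟩ := h3 L b1 (W⁄L).toAffine b2 ((n + 1) • P) P (φ F) (φ G) (φ X) 1 r t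
    (φ f) (φ g) _ _ _ h5 (mu_rp_aff h1 b1 _ b2 P _ _ hP) (by rw [hadd]; exact h6)
    (by rw [hsub]; exact h4) rfl rfl rfl
  have f2 : φ 2 = 2 := map_ofNat φ 2
  have f4 : algebraMap K L 4 = 4 := map_ofNat _ 4
  have f2' : algebraMap K L 2 = 2 := map_ofNat _ 2
  refine ⟨c, hc, ?_, ?_, ?_⟩
  · rw [e0, b3, b4, b5]
    simp only [A0, map_sub, map_add, map_mul, map_pow, hφ, f4, f2']
    ring
  · rw [e1, b3, b4, b5]
    simp only [A1, map_add, map_mul, map_pow, hφ, f4, f2', f2]
    ring
  · rw [e2]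
    simp only [map_sub, map_mul, map_pow]
    ring

/-- Part (1). -/
private theorem mu_rp (h1 : S_Pts) (h2 : S_Bas) (h3 : S_AS) (h5 : S_Gn)
    {K : Type} [Field K] (hK : (2 : K) ≠ 0) (W : WeierstrassCurve K) (hW : IsNf W) (L : Type)
    [Field L] [Algebra K L] (P : (W⁄L).toAffine.Point) (x y : L) (hP : XY P x y) (n : ℕ) :
    Rp (n • P) (aeval x (mf W n)) (aeval x (mg W n)) := by
  obtain ⟨b1, b2, -⟩ := h2.1 K hK W hW L
  have key : ∀ n : ℕ, Rp (n • P) (aeval x (mf W n)) (aeval x (mg W n)) ∧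
      Rp ((n + 1) • P) (aeval x (mf W (n + 1))) (aeval x (mg W (n + 1))) := by
    intro n
    induction n with
    | zero =>
      refine ⟨?_, ?_⟩
      · have e1 : mf W 0 = 1 := rfl
        have e2 : mg W 0 = 0 := rfl
        rw [e1, e2, map_one, map_zero, zero_smul]
        exact mu_rp_zero h1 b1 _ b2
      · have e1 : mf W (0 + 1) = X := rfl
        have e2 : mg W (0 + 1) = 1 := rfl
        rw [e1, e2, map_one, aeval_X, zero_add, one_smul]
        exact mu_rp_aff h1 b1 _ b2 P _ _ hP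
    | succ n ih =>
      obtain ⟨i1, i2⟩ := ih
      refine ⟨i2, ?_⟩
      obtain ⟨r, t, hrt⟩ := mu_rp_exists h1 b1 _ b2 ((n + 2) • P)
      obtain ⟨c, hc, e0, e1, e2⟩ := mu_as h1 h2 h3 hK W hW ((aeval x : K[X] →ₐ[K] L) : K[X] →+* L)
        (fun a => aeval_C x a) P y (by
          have : ((aeval x : K[X] →ₐ[K] L) : K[X] →+* L) X = x := aeval_X x
          rw [this]
          exact hP) n _ _ _ _ i1 i2 r t hrt
      obtain ⟨-, g0, g1, g2⟩ := h5 K hK W hW n
      rw [← g0] at e0
      rw [← g1] at e1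
      rw [← g2] at e2
      have e0' : r * aeval x (mf W n) = c * (aeval x (mf W (n + 2)) * aeval x (mf W n)) := by
        rw [← map_mul]
        exact e0
      have e1' : r * aeval x (mg W n) + t * aeval x (mf W n) =
          c * (aeval x (mf W (n + 2)) * aeval x (mg W n) +
            aeval x (mg W (n + 2)) * aeval x (mf W n)) := by
        rw [← map_mul, ← map_mul, ← map_add]
        exact e1
      have e2' : t * aeval x (mg W n) = c * (aeval x (mg W (n + 2)) * aeval x (mg W n)) := by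
        rw [← map_mul]
        exact e2
      have hfin : r = c * aeval x (mf W (n + 2)) ∧ t = c * aeval x (mg W (n + 2)) := by
        rcases i1.nz with hu | hv
        · have hr : r = c * aeval x (mf W (n + 2)) := by
            apply mul_right_cancel₀ hu
            rw [e0']
            ring
          refine ⟨hr, ?_⟩
          apply mul_right_cancel₀ hu
          rw [hr] at e1'
          linear_combination e1'
        · have ht : t = c * aeval x (mg W (n + 2)) := by
            apply mul_right_cancel₀ hv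
            rw [e2']
            ring
          refine ⟨?_, ht⟩
          apply mul_right_cancel₀ hv
          rw [ht] at e1'
          linear_combination e1'
      refine mu_rp_smul hc ?_
      rw [← hfin.1, ← hfin.2]
      exact hrt
  exact (key n).1

private theorem mu_g_ne (h4 : S_Deg) (h5 : S_Gn) {K : Type} [Field K] (hK : (2 : K) ≠ 0)
    (W : WeierstrassCurve K) (hW : IsNf W) (n : ℕ) (hn : 1 ≤ n) : mg W n ≠ 0 := by
  intro h0
  have h1 := (h5 K hK W hW n).1
  rw [h0, isCoprime_zero_right] at h1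
  have h2 := Polynomial.natDegree_eq_zero_of_isUnit h1
  rw [(h4.1 K W n).2.1] at h2
  have h3 : 0 < n ^ 2 := by positivity
  omega

theorem tMul (h1 : S_Pts) (h2 : S_Bas) (h3 : S_AS) (h4 : S_Deg) (h5 : S_Gn) : S_Mul := by
  intro K _ hK W hW n
  refine ⟨?_, ?_, ?_⟩
  · intro L _ _ P x y hP
    exact mu_rp h1 h2 h3 h5 hK W hW L P x y hP n
  · intro hn
    exact mu_g_ne h4 h5 hK W hW n hn
  · intro L _ _ _ hn P
    obtain ⟨b1, b2, -⟩ := h2.1 K hK W hW L
    obtain ⟨a1, a2, a3, -, -, a6, -⟩ := h1 L b1 _ b2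
    rcases a1 P with h | ⟨x₁, y₁, hP⟩
    · exact ⟨0, by rw [h, smul_zero]⟩
    · obtain ⟨hm, hd, hlt⟩ := h4.1 K W n
      have hdeg : ((mf W n).map (algebraMap K L) - C x₁ * (mg W n).map (algebraMap K L)).degree =
          (mf W n).degree := by
        rw [← Polynomial.degree_map (mf W n) (algebraMap K L)]
        apply Polynomial.degree_sub_eq_left_of_degree_lt
        have h3 : (C x₁ * (mg W n).map (algebraMap K L)).degree ≤
            ((mg W n).map (algebraMap K L)).degree := by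
          rw [← Polynomial.smul_eq_C_mul]
          exact Polynomial.degree_smul_le _ _
        refine lt_of_le_of_lt h3 ?_
        rw [Polynomial.degree_map, Polynomial.degree_map]
        exact hlt
      have hne : ((mf W n).map (algebraMap K L) - C x₁ * (mg W n).map (algebraMap K L)).degree ≠
          0 := by
        rw [hdeg, Polynomial.degree_eq_natDegree hm.ne_zero, hd]
        have h3 : 0 < n ^ 2 := by positivity
        exact_mod_cast h3.ne'
      obtain ⟨x, hx⟩ := IsAlgClosed.exists_root _ hne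
      have hx' : aeval x (mf W n) = x₁ * aeval x (mg W n) := by
        rw [Polynomial.IsRoot.def, Polynomial.eval_sub, Polynomial.eval_mul, Polynomial.eval_C,
          Polynomial.eval_map_algebraMap, Polynomial.eval_map_algebraMap, sub_eq_zero] at hx
        exact hx
      obtain ⟨y, hy⟩ := IsAlgClosed.exists_pow_nat_eq (x ^ 3 +
        (W⁄L).toAffine.a₂ * x ^ 2 + (W⁄L).toAffine.a₄ * x + (W⁄L).toAffine.a₆) (n := 2)
        (by norm_num)
      obtain ⟨Q, hQ⟩ := a3 x y hy
      have hR := mu_rp h1 h2 h3 h5 hK W hW L Q x y hQ n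
      have hg0 : aeval x (mg W n) ≠ 0 := by
        intro h0
        rcases hR.nz with h | h
        · rw [hx', h0, mul_zero] at h
          exact h rfl
        · exact h h0
      rcases a1 (n • Q) with h | ⟨x', y', hQ'⟩
      · exact absurd (hR.zero h) hg0
      · obtain ⟨-, h7⟩ := hR.aff x' y' hQ'
        have h8 : x' = x₁ := by
          apply mul_right_cancel₀ hg0
          rw [← h7, hx']
        rw [h8] at hQ'
        rcases a6 P (n • Q) x₁ y₁ y' hP hQ' with h9 | h9
        · exact ⟨Q, h9⟩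
        · exact ⟨-Q, by rw [smul_neg, h9, neg_neg]⟩

end Pool.Agent.MP72V
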