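import Pool.Agent.Lib.MP_72e2e6_nt.WP.El.Spec

/-!
# MP_72e2e6_nt, `WP/El`, module `Om`: the invariant differential
-/

namespace Pool.Agent.MP72V

open Polynomial WeierstrassCurve

open scoped Classical

section alg

variable {L : Type} [Field L] (D : Derivation ℤ L L)

private theorem Om_two (x : L) : D (2 * x) = 2 * D x := by
  have h : D (2 : L) = 0 := by
    have h := D.map_natCast 2
    rw [Nat.cast_ofNat] at h
    exact h
  rw [D.leibniz, h]
  simp

private theorem Om_three (x : L) : D (3 * x) = 3 * D x := by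
  have h : D (3 : L) = 0 := by
    have h := D.map_natCast 3
    rw [Nat.cast_ofNat] at h
    exact h
  rw [D.leibniz, h]
  simp

private theorem Om_sq (x : L) : D (x ^ 2) = 2 * x * D x := by
  rw [D.leibniz_pow]
  simp only [smul_eq_mul, nsmul_eq_mul]
  push_cast
  ring

private theorem Om_cu (x : L) : D (x ^ 3) = 3 * x ^ 2 * D x := by
  rw [D.leibniz_pow]
  simp only [smul_eq_mul, nsmul_eq_mul]
  push_cast
  ring

private theorem Om_mul (x y : L) : D (x * y) = x * D y + y * D x := by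
  rw [D.leibniz]
  simp only [smul_eq_mul]

private theorem Om_f {a₂ a₄ a₆ x y : L} (h2 : D a₂ = 0) (h4 : D a₄ = 0) (h6 : D a₆ = 0)
    (h : y ^ 2 = x ^ 3 + a₂ * x ^ 2 + a₄ * x + a₆) :
    2 * y * D y = (3 * x ^ 2 + 2 * a₂ * x + a₄) * D x := by
  have h1 := congrArg D h
  rw [map_add, map_add, map_add, Om_sq, Om_cu, Om_mul, Om_mul, Om_sq, h2, h4, h6] at h1
  linear_combination h1

private theorem Om_add {a₂ a₄ x y x' y' l x3 y3 w w' : L} (h2 : D a₂ = 0)
    (hR : x ^ 2 + x * x' + x' ^ 2 + a₂ * (x + x') + a₄ = l * (y + y'))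
    (hl : l * (x - x') = y - y') (hx3 : x3 = l ^ 2 - a₂ - x - x') (hy3 : y3 = l * (x - x3) - y)
    (hDx : D x = 2 * y * w) (hDy : D y = (3 * x ^ 2 + 2 * a₂ * x + a₄) * w)
    (hDx' : D x' = 2 * y' * w') (hDl : D l = w * (x - x3) + w' * (x' - x3)) :
    D x3 = 2 * y3 * (w + w') ∧ D y3 = (3 * x3 ^ 2 + 2 * a₂ * x3 + a₄) * (w + w') := by
  have hF3 : 3 * x3 ^ 2 + 2 * a₂ * x3 + a₄ + 2 * l * y3 = (x3 - x) * (x3 - x') := by
    linear_combination hR + 2 * l * hy3 + l * hl - (x + x' - 2 * x3) * hx3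
  have hF1 : 3 * x ^ 2 + 2 * a₂ * x + a₄ - 2 * l * y = (x - x') * (x - x3) := by
    linear_combination hR + l * hl + (x - x') * hx3
  have h3 : D x3 = 2 * l * D l - D a₂ - D x - D x' := by
    have := congrArg D hx3
    rw [map_sub, map_sub, map_sub, Om_sq] at this
    exact this
  have h5 : D y3 = (l * (D x - D x3) + (x - x3) * D l) - D y := by
    have := congrArg D hy3
    rw [map_sub, Om_mul, map_sub] at this
    exact this
  have h4 : D x3 = 2 * y3 * (w + w') := by
    rw [h3, h2, hDx, hDx', hDl]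
    linear_combination -2 * (w + w') * hy3 - 2 * w' * hl
  refine ⟨h4, ?_⟩
  rw [h5, h4, hDx, hDy, hDl]
  linear_combination -w * hF1 - (w + w') * hF3

private theorem Om_dl {a₂ a₄ a₆ x y x' y' l x3 w w' : L}
    (hxx : x ≠ x') (hy : y ^ 2 = x ^ 3 + a₂ * x ^ 2 + a₄ * x + a₆)
    (hy' : y' ^ 2 = x' ^ 3 + a₂ * x' ^ 2 + a₄ * x' + a₆)
    (hl : l * (x - x') = y - y') (hx3 : x3 = l ^ 2 - a₂ - x - x')
    (hDx : D x = 2 * y * w) (hDy : D y = (3 * x ^ 2 + 2 * a₂ * x + a₄) * w)
    (hDx' : D x' = 2 * y' * w') (hDy' : D y' = (3 * x' ^ 2 + 2 * a₂ * x' + a₄) * w') :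
    x ^ 2 + x * x' + x' ^ 2 + a₂ * (x + x') + a₄ = l * (y + y') ∧
    D l = w * (x - x3) + w' * (x' - x3) := by
  have hne : x - x' ≠ 0 := sub_ne_zero.mpr hxx
  have hR : x ^ 2 + x * x' + x' ^ 2 + a₂ * (x + x') + a₄ = l * (y + y') := by
    apply mul_left_cancel₀ hne
    linear_combination hy' - hy - (y + y') * hl
  refine ⟨hR, ?_⟩
  have hF1 : 3 * x ^ 2 + 2 * a₂ * x + a₄ - 2 * l * y = (x - x') * (x - x3) := by
    linear_combination hR + l * hl + (x - x') * hx3
  have hF1' : 3 * x' ^ 2 + 2 * a₂ * x' + a₄ - 2 * l * y' = (x' - x) * (x' - x3) := by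
    linear_combination hR - l * hl + (x' - x) * hx3
  have h3 := congrArg D hl
  rw [Om_mul, map_sub, map_sub, hDx, hDx', hDy, hDy'] at h3
  apply mul_left_cancel₀ hne
  linear_combination h3 + w * hF1 - w' * hF1'

private theorem Om_dl2 {a₂ a₄ x y l x3 w : L} (h20 : (2 : L) ≠ 0) (h2 : D a₂ = 0) (h4 : D a₄ = 0)
    (hy0 : y ≠ 0) (hl : l * (2 * y) = 3 * x ^ 2 + 2 * a₂ * x + a₄)
    (hx3 : x3 = l ^ 2 - a₂ - x - x)
    (hDx : D x = 2 * y * w) (hDy : D y = (3 * x ^ 2 + 2 * a₂ * x + a₄) * w) :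
    D l = w * (x - x3) + w * (x - x3) := by
  have h3 := congrArg D hl
  rw [Om_mul, Om_two, map_add, map_add, Om_three, Om_sq, Om_mul, Om_two, h2, h4, hDx, hDy] at h3
  apply mul_left_cancel₀ (mul_ne_zero h20 hy0)
  linear_combination h3 + 2 * l * w * hl + 4 * y * w * hx3

end alg

theorem tOm (h1 : S_Pts) : S_Om := by
  intro L _ h20 W hW D h2 h4 h6
  obtain ⟨p1, p2, p3, p4, p5, p6, p7, p8, p9, p10⟩ := h1 L h20 W hW
  -- no coordinates for `0`
  have h0 : ∀ (P : W.Point) (x y : L), XY P x y → P ≠ 0 := fun P x y h => (p2 P x y h).1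
  -- uniqueness of coordinates
  have hco : ∀ (P : W.Point) (x y x' y' : L), XY P x y → XY P x' y' → x = x' ∧ y = y' := by
    intro P x y x' y' h h'
    obtain ⟨-, a, b, -⟩ := p2 P x y h
    obtain ⟨-, a', b', -⟩ := p2 P x' y' h'
    exact ⟨a.symm.trans a', b.symm.trans b'⟩
  -- to check `IsOm` for one pair of coordinates
  have hmk : ∀ (P : W.Point) (x y w : L), XY P x y → D x = 2 * y * w →
      D y = (3 * x ^ 2 + 2 * W.a₂ * x + W.a₄) * w → IsOm D P w := by
    intro P x y w h hx hy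
    refine ⟨fun h' => absurd h' (h0 P x y h), fun x' y' h' => ?_⟩
    obtain ⟨rfl, rfl⟩ := hco P x y x' y' h h'
    exact ⟨hx, hy⟩
  have hz : IsOm D (0 : W.Point) 0 :=
    ⟨fun _ => rfl, fun x y h => absurd rfl (h0 _ x y h)⟩
  have hder : ∀ (P : W.Point) (x y : L), XY P x y →
      2 * y * D y = (3 * x ^ 2 + 2 * W.a₂ * x + W.a₄) * D x := fun P x y h =>
    Om_f D h2 h4 h6 (p2 P x y h).2.2.2
  have hf' : ∀ (P : W.Point) (x : L), XY P x 0 → 3 * x ^ 2 + 2 * W.a₂ * x + W.a₄ ≠ 0 := by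
    intro P x h
    apply p10
    have := (p2 P x 0 h).2.2.2
    rw [← this]
    ring
  have hcancel : ∀ (P : W.Point) (x y u : L), XY P x y → 2 * y * u = 0 →
      (3 * x ^ 2 + 2 * W.a₂ * x + W.a₄) * u = 0 → u = 0 := by
    intro P x y u h hu hu'
    by_cases hy : y = 0
    · subst hy
      rcases mul_eq_zero.mp hu' with h3 | h3
      · exact absurd h3 (hf' P x h)
      · exact h3
    · rcases mul_eq_zero.mp hu with h3 | h3
      · rcases mul_eq_zero.mp h3 with h5 | h5
        · exact absurd h5 h20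
        · exact absurd h5 hy
      · exact h3
  have hun : ∀ (P : W.Point) (w w' : L), IsOm D P w → IsOm D P w' → w = w' := by
    intro P w w' hw hw'
    rcases p1 P with rfl | ⟨x, y, h⟩
    · rw [hw.zero rfl, hw'.zero rfl]
    · obtain ⟨a, b⟩ := hw.aff x y h
      obtain ⟨a', b'⟩ := hw'.aff x y h
      apply sub_eq_zero.mp
      apply hcancel P x y _ h
      · linear_combination a' - a
      · linear_combination b' - b
  have hadd : ∀ (P Q : W.Point) (w w' : L), IsOm D P w → IsOm D Q w' →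
      IsOm D (P + Q) (w + w') := by
    intro P Q w w' hw hw'
    rcases p1 P with rfl | ⟨x, y, h⟩
    · rw [hw.zero rfl, zero_add, zero_add]
      exact hw'
    rcases p1 Q with rfl | ⟨x', y', h'⟩
    · rw [hw'.zero rfl, add_zero, add_zero]
      exact hw
    obtain ⟨a, b⟩ := hw.aff x y h
    obtain ⟨a', b'⟩ := hw'.aff x' y' h'
    have hy := (p2 P x y h).2.2.2
    have hy' := (p2 Q x' y' h').2.2.2
    -- the case `Q = -P`
    have hneg : Q = -P → IsOm D (P + Q) (w + w') := by
      intro hQ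
      have h3 : XY Q x (-y) := hQ ▸ p5 P x y h
      obtain ⟨rfl, rfl⟩ := hco Q x (-y) x' y' h3 h'
      have h5 : w + w' = 0 := by
        apply hcancel P x y _ h
        · linear_combination a' - a
        · rw [map_neg] at b'
          linear_combination -b - b'
      rw [hQ, add_neg_cancel, h5]
      exact hz
    by_cases hxx : x = x'
    · subst hxx
      rcases p6 P Q x y y' h h' with hQ | hQ
      · subst hQ
        obtain ⟨-, rfl⟩ := hco Q x y x y' h h'
        by_cases hy0 : y = 0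
        · subst hy0
          exact hneg (eq_neg_of_add_eq_zero_left (p9 Q x h))
        · obtain rfl := hun Q w w' hw hw'
          have h3 := p8 Q x y _ h hy0 rfl
          set l := (3 * x ^ 2 + 2 * W.a₂ * x + W.a₄) / (2 * y) with hl
          have hl' : l * (2 * y) = 3 * x ^ 2 + 2 * W.a₂ * x + W.a₄ := by
            rw [hl]
            exact div_mul_cancel₀ _ (mul_ne_zero h20 hy0)
          have h5 := Om_dl2 D h20 h2 h4 hy0 hl' rfl a b
          obtain ⟨h7, h8⟩ := Om_add D h2 (x := x) (x' := x) (y := y) (y' := y) (l := l)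
            (w := w) (w' := w) (a₄ := W.a₄) (by linear_combination -hl') (by ring) rfl rfl a b a h5
          exact hmk _ _ _ _ h3 h7 h8
      · exact hneg hQ
    · have h3 := p7 P Q x y x' y' _ h h' hxx rfl
      set l := (y - y') / (x - x') with hl
      have hl' : l * (x - x') = y - y' := by
        rw [hl]
        exact div_mul_cancel₀ _ (sub_ne_zero.mpr hxx)
      obtain ⟨hR, h5⟩ := Om_dl D hxx hy hy' hl' rfl a b a' b'
      obtain ⟨h7, h8⟩ := Om_add D h2 hR hl' rfl rfl a b a' h5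
      exact hmk _ _ _ _ h3 h7 h8
  refine ⟨?_, hun, hadd, ?_⟩
  · intro P
    rcases p1 P with rfl | ⟨x, y, h⟩
    · exact ⟨0, hz⟩
    · have hd := hder P x y h
      by_cases hy : y = 0
      · subst hy
        have hf := hf' P x h
        have hx : D x = 0 := by
          rcases mul_eq_zero.mp (show (3 * x ^ 2 + 2 * W.a₂ * x + W.a₄) * D x = 0 by
            linear_combination -hd) with h3 | h3
          · exact absurd h3 hf
          · exact h3
        refine ⟨D 0 / (3 * x ^ 2 + 2 * W.a₂ * x + W.a₄), hmk P x 0 _ h ?_ ?_⟩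
        · rw [hx]
          ring
        · rw [mul_div_cancel₀ _ hf]
      · have h2y : 2 * y ≠ 0 := mul_ne_zero h20 hy
        refine ⟨D x / (2 * y), hmk P x y _ h ?_ ?_⟩
        · rw [mul_div_cancel₀ _ h2y]
        · apply mul_left_cancel₀ h2y
          rw [hd]
          field_simp
  · intro P w n hw
    induction n with
    | zero => rw [zero_nsmul, Nat.cast_zero, zero_mul]; exact hz
    | succ n ih =>
      rw [succ_nsmul, Nat.cast_succ, add_mul, one_mul]
      exact hadd _ _ _ _ ih hw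

end Pool.Agent.MP72V
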