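import Pool.Agent.Lib.MP_72e2e6_nt.WP.El.Spec

/-! # Ordinary curves (elliptic block, file El/Or) -/

namespace Pool.Agent.MP72V

open Polynomial WeierstrassCurve

open scoped Classical

/-- A finite group of `2 n + 1` elements killed by `p`. -/
private theorem or_grp {G : Type} [AddCommGroup G] (p : ℕ) [Fact p.Prime] (H : AddSubgroup G)
    (hk : ∀ x ∈ H, p • x = 0) (F : Finset G) (hF : (H : Set G) = F) :
    ∃ k : ℕ, F.card = p ^ k := by
  have hfin : Finite H := by
    have : (H : Set G).Finite := hF ▸ F.finite_toSet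
    exact this.to_subtype
  let m : Module (ZMod p) H := AddCommGroup.zmodModule fun x => Subtype.ext (hk x x.2)
  have hf : @Module.Finite (ZMod p) H _ _ m := Module.Finite.of_finite
  have h1 := @Module.natCard_eq_pow_finrank (ZMod p) H _ _ m hf
  rw [Nat.card_zmod] at h1
  refine ⟨_, Eq.trans ?_ h1⟩
  have h2 : Nat.card H = (H : Set G).ncard := rfl
  rw [h2, hF, Set.ncard_coe_finset]

private theorem or_two (p : ℕ) [Fact p.Prime] (hp2 : p ≠ 2) (K : Type) [Field K] [CharP K p] :
    (2 : K) ≠ 0 := Ring.two_ne_zero (by rwa [ringChar.eq K p])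

/-- The number of the roots of `Ps` and the group of the points of order `p`. -/
private theorem or_count (h1 : S_Pts) (h2 : S_Bas) (h4 : S_Mul) (p : ℕ) [Fact p.Prime]
    (hp2 : p ≠ 2) (K : Type) [Field K] [CharP K p] (W : WeierstrassCurve K) (hW : IsNf W)
    (A Ps : K[X]) (h : IsPs W p A Ps) (hPs : Ps ≠ 0) :
    (Od p W → (Ps.aroots (AlgebraicClosure K)).toFinset.Nonempty) ∧
    ((Ps.aroots (AlgebraicClosure K)).toFinset.Nonempty → Od p W) ∧
    ∃ k : ℕ, 2 * (Ps.aroots (AlgebraicClosure K)).toFinset.card + 1 = p ^ k := by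
  have hp : p.Prime := Fact.out
  have hK2 := or_two p hp2 K
  obtain ⟨h2Ω, hV, -, -, -, -⟩ := h2.1 K hK2 W hW (AlgebraicClosure K)
  obtain ⟨p1, p2, p3, p4, p5, p6, -, -, p9, -⟩ := h1 _ h2Ω _ hV
  have hmem : ∀ (P : (W⁄(AlgebraicClosure K)).toAffine.Point) (x y : AlgebraicClosure K),
      XY P x y → (p • P = 0 ↔ aeval (x ^ p) Ps = 0) := by
    intro P x y hP
    have hR := (h4 K hK2 W hW p).1 (AlgebraicClosure K) P x y hP
    have hg : aeval x (mg W p) = aeval (x ^ p) Ps ^ 2 := by
      rw [h.den, expand_aeval, map_pow]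
    constructor
    · intro h0
      have h3 := hR.zero h0
      rw [hg] at h3
      exact pow_eq_zero_iff two_ne_zero |>.1 h3
    · intro h0
      by_contra hne
      obtain h3 | ⟨x', y', hxy⟩ := p1 (p • P)
      · exact hne h3
      · have h5 := (hR.aff x' y' hxy).1
        rw [hg, h0] at h5
        exact h5 (by ring)
  -- points of order two are not killed by `p`
  have hodd : Odd p := hp.odd_of_ne_two hp2
  have hy0 : ∀ (P : (W⁄(AlgebraicClosure K)).toAffine.Point) (x y : AlgebraicClosure K),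
      XY P x y → p • P = 0 → y ≠ 0 := by
    rintro P x y hP h0 rfl
    have h3 := p9 P x hP
    obtain ⟨k, hk⟩ := hodd
    have h5 : p • P = P := by
      rw [hk, add_nsmul, one_nsmul, mul_comm, mul_nsmul', two_nsmul, h3, nsmul_zero, zero_add]
    exact (p2 P x 0 hP).1 (h5.symm.trans h0)
  -- a point for every root
  have hpt : ∀ z : AlgebraicClosure K, aeval z Ps = 0 →
      ∃ P : (W⁄(AlgebraicClosure K)).toAffine.Point, P ≠ 0 ∧ p • P = 0 ∧ px P ^ p = z ∧ P ≠ -P := by
    intro z hz
    obtain ⟨ξ, rfl⟩ := IsAlgClosed.exists_pow_nat_eq z hp.pos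
    obtain ⟨η, hη⟩ := IsAlgClosed.exists_pow_nat_eq
      (ξ ^ 3 + (W⁄(AlgebraicClosure K)).toAffine.a₂ * ξ ^ 2 +
        (W⁄(AlgebraicClosure K)).toAffine.a₄ * ξ + (W⁄(AlgebraicClosure K)).toAffine.a₆)
      (n := 2) two_pos
    obtain ⟨P, hP⟩ := p3 ξ η hη
    have h0 : p • P = 0 := (hmem P ξ η hP).2 hz
    have hx := p2 P ξ η hP
    refine ⟨P, hx.1, h0, by rw [hx.2.1], fun hPP => ?_⟩
    have h6 := p2 (-P) ξ (-η) (p5 P ξ η hP)
    have h7 : η = -η := by
      rw [← hPP] at h6
      exact hx.2.2.1.symm.trans h6.2.2.1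
    have h8 : 2 * η = 0 := by linear_combination h7
    exact hy0 P ξ η hP h0 ((mul_eq_zero.1 h8).resolve_left h2Ω)
  have hroot : ∀ z : AlgebraicClosure K, z ∈ (Ps.aroots (AlgebraicClosure K)).toFinset ↔
      aeval z Ps = 0 := by
    intro z
    rw [Multiset.mem_toFinset, mem_aroots]
    exact ⟨fun h => h.2, fun h => ⟨hPs, h⟩⟩
  -- the root of a point
  have hrt : ∀ P : (W⁄(AlgebraicClosure K)).toAffine.Point, P ≠ 0 → p • P = 0 →
      aeval (px P ^ p) Ps = 0 := by
    intro P hP0 hP
    obtain h3 | ⟨x, y, hxy⟩ := p1 P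
    · exact absurd h3 hP0
    · rw [(p2 P x y hxy).2.1]
      exact (hmem P x y hxy).1 hP
  refine ⟨?_, ?_, ?_⟩
  · rintro ⟨P, hP0, hP⟩
    exact ⟨px P ^ p, (hroot _).2 (hrt P hP0 hP)⟩
  · rintro ⟨z, hz⟩
    obtain ⟨P, hP0, hP, -⟩ := hpt z ((hroot z).1 hz)
    exact ⟨P, hP0, hP⟩
  · choose! pt hpt0 hptp hptx hptn using hpt
    let Z := (Ps.aroots (AlgebraicClosure K)).toFinset
    let F : Finset (W⁄(AlgebraicClosure K)).toAffine.Point := Z.biUnion fun z => {pt z, -pt z}
    have hpxneg : ∀ P : (W⁄(AlgebraicClosure K)).toAffine.Point, P ≠ 0 → px (-P) = px P := by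
      intro P hP0
      obtain h3 | ⟨x, y, hxy⟩ := p1 P
      · exact absurd h3 hP0
      · rw [(p2 P x y hxy).2.1, (p2 (-P) x (-y) (p5 P x y hxy)).2.1]
    have hFx : ∀ z ∈ Z, ∀ P ∈ ({pt z, -pt z} : Finset _), px P ^ p = z := by
      intro z hz P hP
      have hz' := (hroot z).1 hz
      rw [Finset.mem_insert, Finset.mem_singleton] at hP
      obtain rfl | rfl := hP
      · exact hptx z hz'
      · rw [hpxneg _ (hpt0 z hz')]
        exact hptx z hz'
    have hFcard : F.card = 2 * Z.card := by
      rw [Finset.card_biUnion]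
      · rw [Finset.sum_const_nat (m := 2), mul_comm]
        intro z hz
        exact Finset.card_pair (hptn z ((hroot z).1 hz))
      · intro z hz z' hz' hne
        rw [Function.onFun, Finset.disjoint_left]
        intro P hP hP'
        exact hne ((hFx z hz P hP).symm.trans (hFx z' hz' P hP'))
    have hF0 : (0 : (W⁄(AlgebraicClosure K)).toAffine.Point) ∉ F := by
      intro h0
      rw [Finset.mem_biUnion] at h0
      obtain ⟨z, hz, hz2⟩ := h0
      have hz' := (hroot z).1 hz
      rw [Finset.mem_insert, Finset.mem_singleton] at hz2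
      obtain h3 | h3 := hz2
      · exact hpt0 z hz' h3.symm
      · exact hpt0 z hz' (neg_eq_zero.1 h3.symm)
    let H : AddSubgroup (W⁄(AlgebraicClosure K)).toAffine.Point :=
      { carrier := {P | p • P = 0}
        add_mem' := fun {a b} ha hb => by
          have ha' : p • a = 0 := ha
          have hb' : p • b = 0 := hb
          change p • (a + b) = 0
          rw [nsmul_add, ha', hb', add_zero]
        zero_mem' := nsmul_zero p
        neg_mem' := fun {a} ha => by
          have ha' : p • a = 0 := ha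
          change p • (-a) = 0
          rw [neg_nsmul, ha', neg_zero] }
    have hHF : (H : Set (W⁄(AlgebraicClosure K)).toAffine.Point) = ↑(insert 0 F) := by
      ext P
      rw [Finset.coe_insert, Set.mem_insert_iff, Finset.mem_coe, Finset.mem_biUnion]
      constructor
      · intro hP
        have hP' : p • P = 0 := hP
        by_cases h0 : P = 0
        · exact Or.inl h0
        · refine Or.inr ⟨px P ^ p, (hroot _).2 (hrt P h0 hP'), ?_⟩
          have hz := hrt P h0 hP'
          obtain h3 | ⟨x, y, hxy⟩ := p1 P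
          · exact absurd h3 h0
          obtain h3 | ⟨x', y', hxy'⟩ := p1 (pt (px P ^ p))
          · exact absurd h3 (hpt0 _ hz)
          have h5 : px P = x := (p2 P x y hxy).2.1
          have h6 := hptx _ hz
          rw [(p2 _ x' y' hxy').2.1] at h6
          have h7 : x' = x := by
            rw [h5] at h6
            have : CharP (AlgebraicClosure K) p :=
              charP_of_injective_algebraMap (algebraMap K (AlgebraicClosure K)).injective p
            have : ExpChar (AlgebraicClosure K) p := ExpChar.prime hp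
            exact frobenius_inj (AlgebraicClosure K) p h6
          subst h7
          rw [Finset.mem_insert, Finset.mem_singleton]
          exact p6 _ P x' y' y hxy' hxy
      · rintro (rfl | ⟨z, hz, hz2⟩)
        · exact H.zero_mem
        · have hz' := (hroot z).1 hz
          rw [Finset.mem_insert, Finset.mem_singleton] at hz2
          obtain rfl | rfl := hz2
          · exact hptp z hz'
          · exact H.neg_mem (hptp z hz')
    obtain ⟨k, hk⟩ := or_grp p H (fun x hx => hx) _ hHF
    refine ⟨k, ?_⟩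
    rw [← hk, Finset.card_insert_of_notMem hF0, hFcard]

private theorem or_key (h1 : S_Pts) (h2 : S_Bas) (h4 : S_Mul) (h5 : S_Pw) (p : ℕ) [Fact p.Prime]
    (hp2 : p ≠ 2) (K : Type) [Field K] [CharP K p] (W : WeierstrassCurve K) (hW : IsNf W)
    (A Ps : K[X]) (h : IsPs W p A Ps) :
    (Od p W ↔ Ps.natDegree = (p - 1) / 2) ∧ (0 < Ps.natDegree → Od p W) ∧
      (Od p W → Ps.Separable) := by
  have hp : p.Prime := Fact.out
  obtain ⟨-, -, hPs, hdeg, -, -, -⟩ := (h5 p hp2 K W hW).2 A Ps h
  obtain ⟨c1, c2, k, hk⟩ := or_count h1 h2 h4 p hp2 K W hW A Ps h hPs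
  have hcard : (Ps.aroots (AlgebraicClosure K)).toFinset.card ≤ Ps.natDegree := by
    refine (Multiset.toFinset_card_le _).trans ((card_roots' _).trans ?_)
    rw [natDegree_map]
  have hpos : 0 < Ps.natDegree → Od p W := by
    intro h0
    refine c2 ?_
    obtain ⟨z, hz⟩ := IsAlgClosed.exists_aeval_eq_zero (AlgebraicClosure K) Ps
      (fun h => by rw [natDegree_eq_of_degree_eq_some h] at h0; exact lt_irrefl _ h0)
    exact ⟨z, by rw [Multiset.mem_toFinset, mem_aroots]; exact ⟨hPs, hz⟩⟩
  have h3p : 3 ≤ p := by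
    have := hp.two_le
    omega
  have hod : Od p W → (Ps.aroots (AlgebraicClosure K)).toFinset.card = (p - 1) / 2 := by
    intro hOd
    have h6 := Finset.card_pos.2 (c1 hOd)
    obtain ⟨m, hm⟩ := hp.odd_of_ne_two hp2
    have hk1 : k = 1 := by
      have h7 : k ≠ 0 := by
        rintro rfl
        rw [pow_zero] at hk
        omega
      have h8 : p ^ k ≤ p ^ 1 := by
        rw [← hk, pow_one]
        omega
      have h9 := (Nat.pow_le_pow_iff_right hp.one_lt).1 h8
      omega
    rw [hk1, pow_one] at hk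
    omega
  refine ⟨⟨fun hOd => ?_, fun h0 => hpos (by omega)⟩, hpos, fun hOd => ?_⟩
  · have := hod hOd
    omega
  · have h6 := hod hOd
    have h7 : (Ps.aroots (AlgebraicClosure K)).toFinset.card = Ps.natDegree := by omega
    rw [← nodup_aroots_iff_of_splits (K := AlgebraicClosure K) hPs (IsAlgClosed.splits _),
      ← Multiset.toFinset_card_eq_card_iff_nodup]
    refine le_antisymm (Multiset.toFinset_card_le _) ?_
    rw [h7, ← natDegree_map (algebraMap K (AlgebraicClosure K))]
    exact card_roots' _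

theorem tOr (h1 : S_Pts) (h2 : S_Bas) (h3 : S_Deg) (h4 : S_Mul) (h5 : S_Pw) : S_Or := by
  intro p _ hp2 K _ _ W hW
  refine ⟨fun A Ps h => or_key h1 h2 h4 h5 p hp2 K W hW A Ps h, fun j => ?_, fun L _ _ => ?_⟩
  · obtain ⟨A, Ps, h⟩ := (h5 p hp2 K W hW).1
    obtain ⟨-, -, -, -, -, hj, -⟩ := (h5 p hp2 K W hW).2 A Ps h
    have hWj := ((h2.2 K p W hW).1 j).1
    rw [(or_key h1 h2 h4 h5 p hp2 K W hW A Ps h).1,
      (or_key h1 h2 h4 h5 p hp2 K (fr p W j) hWj _ _ (hj j)).1, natDegree_map]
  · obtain ⟨A, Ps, h⟩ := (h5 p hp2 K W hW).1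
    have hK2 := or_two p hp2 K
    have hWL : IsNf (W⁄L) := (h2.1 K hK2 W hW L).2.1
    have : CharP L p := charP_of_injective_algebraMap (algebraMap K L).injective p
    have hL : IsPs (W⁄L) p (A.map (algebraMap K L)) (Ps.map (algebraMap K L)) := by
      constructor
      · rw [← map_expand, ← h.num]
        exact (h3.2 K L (algebraMap K L) W p).1
      · rw [← Polynomial.map_pow, ← map_expand, ← h.den]
        exact (h3.2 K L (algebraMap K L) W p).2
    rw [(or_key h1 h2 h4 h5 p hp2 K W hW A Ps h).1,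
      (or_key h1 h2 h4 h5 p hp2 L (W⁄L) hWL _ _ hL).1, natDegree_map]

end Pool.Agent.MP72V
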