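import Pool.Agent.Lib.MP_72e2e6_nt.WP.El.Spec

/-!
# MP_72e2e6_nt, theorem T3 for odd characteristic, elliptic block: module Pts (the group law)
-/

set_option autoImplicit false

namespace Pool.Agent.MP72V

open Polynomial WeierstrassCurve

open scoped Classical

private theorem pts_xy_of {L : Type} [Field L] {W : WeierstrassCurve.Affine L} {P : W.Point}
    {a b x y : L} {h : W.Nonsingular a b} (hP : P = .some a b h) (hx : a = x) (hy : b = y) :
    XY P x y := by
  subst hx hy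
  exact ⟨h, hP⟩

theorem tPts : S_Pts := by
  intro L _ h2 W hW
  have ha1 : W.a₁ = 0 := hW.a1
  have ha3 : W.a₃ = 0 := hW.a3
  have hΔ : W.Δ ≠ 0 := hW.dis.ne_zero
  have hsing : ∀ x : L, x ^ 3 + W.a₂ * x ^ 2 + W.a₄ * x + W.a₆ = 0 →
      3 * x ^ 2 + 2 * W.a₂ * x + W.a₄ ≠ 0 := by
    intro x hf hd
    apply hΔ
    have ha4 : W.a₄ = -(3 * x ^ 2 + 2 * W.a₂ * x) := by linear_combination hd
    have ha6 : W.a₆ = -(x ^ 3 + W.a₂ * x ^ 2 + W.a₄ * x) := by linear_combination hf
    rw [WeierstrassCurve.Δ, WeierstrassCurve.b₂, WeierstrassCurve.b₄, WeierstrassCurve.b₆,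
      WeierstrassCurve.b₈, ha1, ha3, ha6, ha4]
    ring
  have hnegY : ∀ x y, W.negY x y = -y := by
    intro x y
    rw [Affine.negY, ha1, ha3]
    ring
  have heq : ∀ x y, W.Equation x y ↔
      y ^ 2 = x ^ 3 + W.a₂ * x ^ 2 + W.a₄ * x + W.a₆ := by
    intro x y
    rw [Affine.equation_iff, ha1, ha3]
    constructor <;> intro h
    · linear_combination h
    · linear_combination h
  have hns : ∀ x y, W.Equation x y → W.Nonsingular x y := by
    intro x y h
    rw [Affine.nonsingular_iff]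
    refine ⟨h, ?_⟩
    by_contra hcon
    push Not at hcon
    obtain ⟨h3, h4⟩ := hcon
    rw [ha1] at h3
    rw [ha1, ha3] at h4
    have hy2 : 2 * y = 0 := by linear_combination h4
    have hy : y = 0 := by
      rcases mul_eq_zero.1 hy2 with h5 | h5
      · exact absurd h5 h2
      · exact h5
    rw [heq, hy] at h
    refine hsing x ?_ ?_
    · rw [← h]; ring
    · linear_combination -h3
  have hadd : ∀ {x y x' y' : L} (h : W.Nonsingular x y)
      (h' : W.Nonsingular x' y')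
      (hxy : ¬ (x = x' ∧ y = W.negY x' y')) (l X : L),
      W.slope x x' y y' = l → X = l ^ 2 - W.a₂ - x - x' →
      XY (Affine.Point.some x y h + Affine.Point.some x' y' h') X (l * (x - X) - y) := by
    intro x y x' y' h h' hxy l X hl hX
    have eX : W.addX x x' (W.slope x x' y y') = X := by
      rw [Affine.addX, ha1, hl, hX]
      ring
    refine pts_xy_of (Affine.Point.add_some hxy) eX ?_
    rw [Affine.addY, hnegY, Affine.negAddY, eX, hl]
    ring
  refine ⟨?_, ?_, ?_, ?_, ?_, ?_, ?_, ?_, ?_, hsing⟩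
  · rintro (_ | ⟨x, y, h⟩)
    · exact Or.inl rfl
    · exact Or.inr ⟨x, y, h, rfl⟩
  · rintro P x y ⟨h, rfl⟩
    exact ⟨Affine.Point.some_ne_zero h, rfl, rfl, (heq x y).1 h.1⟩
  · intro x y h
    exact ⟨.some x y (hns x y ((heq x y).2 h)), _, rfl⟩
  · rintro P Q x y ⟨h, rfl⟩ ⟨h', rfl⟩
    rfl
  · rintro P x y ⟨h, rfl⟩
    exact pts_xy_of (Affine.Point.neg_some h) rfl (hnegY x y)
  · rintro P Q x y y' ⟨h, rfl⟩ ⟨h', rfl⟩
    rcases Affine.Point.X_eq_iff (h₁ := h') (h₂ := h) |>.1 rfl with h3 | h3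
    · exact Or.inl h3
    · exact Or.inr h3
  · rintro P Q x y x' y' l ⟨h, rfl⟩ ⟨h', rfl⟩ hx hl
    refine hadd h h' (fun hh => hx hh.1) l _ ?_ rfl
    rw [Affine.slope_of_X_ne hx, hl]
  · rintro P x y l ⟨h, rfl⟩ hy hl
    have hyne : y ≠ W.negY x y := by
      rw [hnegY]
      intro h3
      have h4 : 2 * y = 0 := by linear_combination h3
      rcases mul_eq_zero.1 h4 with h5 | h5
      · exact h2 h5
      · exact hy h5
    refine hadd h h (fun hh => hyne hh.2) l _ ?_ rfl
    rw [Affine.slope_of_Y_ne rfl hyne, hnegY, ha1, hl]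
    refine congrArg₂ (· / ·) ?_ ?_
    · ring
    · ring
  · rintro P x ⟨h, rfl⟩
    refine Affine.Point.add_self_of_Y_eq ?_
    rw [hnegY, neg_zero]

end Pool.Agent.MP72V
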