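import Pool.Agent.Lib.MP_72e2e6_nt.WP.El.Spec

/-!
# MP_72e2e6_nt, theorem T3 for odd characteristic, elliptic block: the polynomials `f_p`, `g_p`
-/

namespace Pool.Agent.MP72V

open Polynomial WeierstrassCurve
open Pool.Agent.MP72W (pmap)

open scoped Classical

theorem tPw (h1 : S_Pts) (h2 : S_Bas) (h3 : S_Deg) (h4 : S_Gn) (h5 : S_Mul) (h6 : S_Sqr)
    (h7 : S_Om) (h8 : S_Dv) : S_Pw := by
  intro p _ hp K _ _ W hW
  have hpp : p.Prime := Fact.out
  have h2K : (2 : K) ≠ 0 := by
    intro h
    have h3 : ((2 : ℕ) : K) = 0 := by exact_mod_cast h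
    rw [CharP.cast_eq_zero_iff K p 2] at h3
    exact hp ((Nat.prime_dvd_prime_iff_eq hpp Nat.prime_two).1 h3)
  have hodd : Odd p := hpp.odd_of_ne_two hp
  obtain ⟨hmon, hdeg, hlt⟩ := h3.1 K W p
  obtain ⟨hcop, -⟩ := h4 K h2K W hW p
  obtain ⟨hmul1, hmul2, -⟩ := h5 K h2K W hW p
  have hg0 : mg W p ≠ 0 := hmul2 hpp.one_le
  refine ⟨?_, ?_⟩
  · have hcub : cub W ≠ 0 := by
      intro h
      have h9 : (cub W).coeff 3 = 0 := by rw [h, coeff_zero]
      unfold cub at h9
      simp [coeff_X, coeff_X_pow] at h9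
    obtain ⟨L, iF, iA, D, x, y, htr, hDx, hy⟩ := h8 K h2K (cub W) hcub
    letI := iF
    letI := iA
    haveI : CharP L p := charP_of_injective_algebraMap (algebraMap K L).injective p
    obtain ⟨h2L, hN, ha2, ha4, ha6, -⟩ := h2.1 K h2K W hW L
    obtain ⟨q1, q2, q3, -⟩ := h1 L h2L (W⁄L).toAffine hN
    have hyc : y ^ 2 = x ^ 3 + (W⁄L).toAffine.a₂ * x ^ 2 + (W⁄L).toAffine.a₄ * x +
        (W⁄L).toAffine.a₆ := by
      rw [hy, ha2, ha4, ha6]
      unfold cub
      simp only [map_add, map_mul, map_pow, aeval_X, aeval_C]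
    obtain ⟨P, hP⟩ := q3 x y hyc
    set D' : Derivation ℤ L L := Derivation.restrictScalars ℤ D with hD'
    have hDD : ∀ z, D' z = D z := fun z => rfl
    obtain ⟨o1, -, -, o4⟩ := h7 L h2L (W⁄L).toAffine hN D'
      (by rw [ha2, hDD, Derivation.map_algebraMap]) (by rw [ha4, hDD, Derivation.map_algebraMap])
      (by rw [ha6, hDD, Derivation.map_algebraMap])
    obtain ⟨w, hw⟩ := o1 P
    have hpw := o4 P w p hw
    have hRp := hmul1 L P x y hP
    have hgx : aeval x (mg W p) ≠ 0 := fun h => hg0 (htr _ h)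
    have hpP : p • P ≠ 0 := fun h => hgx (hRp.zero h)
    obtain ⟨x', y', hx'⟩ := (q1 (p • P)).resolve_left hpP
    obtain ⟨-, hfx⟩ := hRp.aff x' y' hx'
    obtain ⟨hdx', -⟩ := hpw.aff x' y' hx'
    rw [CharP.cast_eq_zero L p, zero_mul, mul_zero, hDD] at hdx'
    have hDa : ∀ h : K[X], D (aeval x h) = aeval x (derivative h) := by
      intro h
      rw [Derivation.map_aeval, hDx, smul_eq_mul, mul_one]
    have e1 : aeval x (derivative (mf W p)) = x' * aeval x (derivative (mg W p)) := by
      rw [← hDa, hfx, Derivation.leibniz, hdx', smul_zero, add_zero, smul_eq_mul, hDa]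
    have e2 : mg W p * derivative (mf W p) = mf W p * derivative (mg W p) := by
      have e3 : aeval x (mg W p * derivative (mf W p) - mf W p * derivative (mg W p)) = 0 := by
        rw [map_sub, map_mul, map_mul, e1, hfx]
        ring
      exact sub_eq_zero.1 (htr _ e3)
    have hdg : derivative (mg W p) = 0 := by
      by_contra hne
      have hd : mg W p ∣ derivative (mg W p) :=
        hcop.symm.dvd_of_dvd_mul_left ⟨derivative (mf W p), e2.symm⟩
      exact absurd (degree_le_of_dvd hd hne) (not_le.2 (degree_derivative_lt hg0))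
    have hdf : derivative (mf W p) = 0 := by
      rw [hdg, mul_zero] at e2
      exact (mul_eq_zero.1 e2).resolve_left hg0
    obtain ⟨ψ, hψ⟩ := h6 K h2K W hW p hodd
    have hψ0 : ψ ≠ 0 := by
      rintro rfl
      rw [zero_pow two_ne_zero] at hψ
      exact hg0 hψ
    have hdψ : derivative ψ = 0 := by
      rw [hψ, derivative_sq] at hdg
      have h2' : (C (2 : K) : K[X]) ≠ 0 := by
        rw [Ne, C_eq_zero]
        exact h2K
      rcases mul_eq_zero.1 hdg with h9 | h9
      · rcases mul_eq_zero.1 h9 with h10 | h10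
        · exact absurd h10 h2'
        · exact absurd h10 hψ0
      · exact h9
    refine ⟨contract p (mf W p), contract p ψ, ?_, ?_⟩
    · exact (expand_contract p hdf hpp.ne_zero).symm
    · rw [map_pow, expand_contract p hdψ hpp.ne_zero, hψ]
  · intro A Ps hPs
    obtain ⟨hnum, hden⟩ := hPs
    have hAm : A.Monic := by
      rw [hnum] at hmon
      exact (monic_expand_iff hpp.pos).1 hmon
    have hAd : A.natDegree = p := by
      rw [hnum, natDegree_expand, sq] at hdeg
      exact Nat.eq_of_mul_eq_mul_right hpp.pos hdeg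
    have hPs0 : Ps ≠ 0 := by
      rintro rfl
      rw [zero_pow two_ne_zero, map_zero] at hden
      exact hg0 hden
    refine ⟨hAm, hAd, hPs0, ?_, ?_, ?_, ?_⟩
    · have h9 := natDegree_lt_natDegree hg0 hlt
      rw [hdeg, hden, natDegree_expand, natDegree_pow] at h9
      have h10 : 2 * Ps.natDegree < p := by
        rw [sq] at h9
        exact Nat.lt_of_mul_lt_mul_right h9
      omega
    · rw [hnum, hden, isCoprime_expand hpp.ne_zero] at hcop
      exact hcop.of_isCoprime_of_dvd_right (dvd_pow_self Ps two_ne_zero)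
    · intro j
      have e := ((h2.2 K p W hW).1 j).2
      rw [e]
      obtain ⟨m1, m2⟩ := h3.2 K K (iterateFrobenius K p j) W p
      refine ⟨?_, ?_⟩
      · rw [m1, hnum, map_expand]
      · rw [m2, hden, map_expand, Polynomial.map_pow]
    · intro A' Ps' hPs'
      obtain ⟨hnum', hden'⟩ := hPs'
      refine ⟨?_, ?_⟩
      · rw [hnum] at hnum'
        exact (expand_injective hpp.pos hnum').symm
      · rw [hden] at hden'
        have h9 := expand_injective hpp.pos hden'
        exact sq_eq_sq_iff_eq_or_eq_neg.1 h9.symm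

end Pool.Agent.MP72V
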