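import Pool.Agent.Lib.MP_72e2e6_nt.WP.El.Spec

/-!
# MP_72e2e6_nt, `WP/El`, module `Sqr`: `g_n` is a square for odd `n`
-/

namespace Pool.Agent.MP72V

open Polynomial WeierstrassCurve

open scoped Classical

theorem tSqr (h1 : S_Deg) (h2 : S_Gn) (h3 : S_Mul) : S_Sqr := by
  clear h1
  intro K _ hK W hW n hn
  obtain ⟨k, rfl⟩ := hn
  induction k with
  | zero => exact ⟨1, by rw [one_pow]; rfl⟩
  | succ k ih =>
    obtain ⟨ψ, hψ⟩ := ih
    have h4 := (h2 K hK W hW (2 * k + 1)).2.2.2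
    have h5 : mg W (2 * k + 1) ≠ 0 := (h3 K hK W hW (2 * k + 1)).2.1 (by omega)
    have hψ0 : ψ ≠ 0 := by
      rintro rfl
      exact h5 (by rw [hψ]; ring)
    rw [hψ] at h4
    have h6 : ψ ^ 2 ∣ (mf W (2 * k + 1 + 1) - X * mg W (2 * k + 1 + 1)) ^ 2 :=
      ⟨mg W (2 * k + 1 + 2), by rw [← h4]; ring⟩
    obtain ⟨m, hm⟩ := (IsIntegrallyClosed.pow_dvd_pow_iff two_ne_zero).mp h6
    rw [hm] at h4
    refine ⟨m, ?_⟩
    rw [show 2 * (k + 1) + 1 = 2 * k + 1 + 2 by ring]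
    have h7 : ψ ^ 2 * mg W (2 * k + 1 + 2) = ψ ^ 2 * m ^ 2 := by
      linear_combination h4
    exact mul_left_cancel₀ (pow_ne_zero 2 hψ0) h7

end Pool.Agent.MP72V
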