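import Pool.Agent.Lib.MP_72e2e6_nt.WP.El.Spec

/-!
# MP_72e2e6_nt, theorem T3 for odd characteristic, elliptic block: properties of `V`
-/

set_option autoImplicit false

namespace Pool.Agent.MP72V

open Polynomial WeierstrassCurve
open Pool.Agent.MP72W (pmap)

open scoped Classical

private theorem vh_count {L : Type} [Field L] (W : WeierstrassCurve.Affine L)
    (hpm : ∀ (P Q : W.Point) (x y y' : L), XY P x y → XY Q x y' → Q = P ∨ Q = -P)
    (Z : Finset L) (n : ℕ) (hZ : Z.card ≤ n) (s : Set W.Point)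
    (hs : ∀ P ∈ s, P = 0 ∨ ∃ x y, XY P x y ∧ x ∈ Z) :
    s.Finite ∧ s.ncard ≤ 1 + 2 * n := by
  let c : L → W.Point := fun z => if h : ∃ P : W.Point, ∃ y, XY P z y then h.choose else 0
  let T : Finset W.Point := {0} ∪ (Z.image c ∪ Z.image fun z => - c z)
  have hsub : s ⊆ (T : Set W.Point) := by
    intro P hP
    rcases hs P hP with h | ⟨x, y, hxy, hx⟩
    · rw [h]
      exact Finset.mem_coe.2 (Finset.mem_union_left _ (Finset.mem_singleton_self _))
    · have hex : ∃ P : W.Point, ∃ y, XY P x y := ⟨P, y, hxy⟩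
      have hc : c x = hex.choose := dif_pos hex
      obtain ⟨y', hy'⟩ := hex.choose_spec
      rw [← hc] at hy'
      rcases hpm _ _ x y' y hy' hxy with h | h
      · exact Finset.mem_coe.2 (Finset.mem_union_right _ (Finset.mem_union_left _
          (Finset.mem_image.2 ⟨x, hx, h.symm⟩)))
      · exact Finset.mem_coe.2 (Finset.mem_union_right _ (Finset.mem_union_right _
          (Finset.mem_image.2 ⟨x, hx, h.symm⟩)))
  have hT : T.card ≤ 1 + 2 * n := by
    have e1 : T.card ≤ _ := Finset.card_union_le _ _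
    have e2 := Finset.card_union_le (Z.image c) (Z.image fun z => - c z)
    have e3 : (Z.image c).card ≤ Z.card := Finset.card_image_le
    have e4 : (Z.image fun z => - c z).card ≤ Z.card := Finset.card_image_le
    have e5 : ({0} : Finset W.Point).card = 1 := Finset.card_singleton _
    omega
  refine ⟨T.finite_toSet.subset hsub, ?_⟩
  have h1 := Set.ncard_le_ncard hsub T.finite_toSet
  rw [Set.ncard_coe_finset] at h1
  omega

theorem tVh (h1 : S_Pts) (h2 : S_Bas) (h3 : S_Pw) (h4 : S_Fr) (h5 : S_Vr) : S_Vh := by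
  intro p _ hp K _ _ W hW j L _ _
  have h2K : (2 : K) ≠ 0 := by
    intro h
    have h3 : ((2 : ℕ) : K) = 0 := by exact_mod_cast h
    rw [CharP.cast_eq_zero_iff K p 2] at h3
    exact hp ((Nat.prime_dvd_prime_iff_eq (Fact.out : p.Prime) Nat.prime_two).1 h3)
  have hpp : p.Prime := Fact.out
  have hodd : Odd p := hpp.odd_of_ne_two hp
  obtain ⟨hb1, hb2⟩ := h2
  obtain ⟨hb3, -⟩ := hb2 K p W hW
  obtain ⟨h2L, hN, -, -, -, hpm⟩ := hb1 K h2K (fr p W j) (hb3 j).1 L
  obtain ⟨-, hN', -, -, -, hpm'⟩ := hb1 K h2K (fr p W (j + 1)) (hb3 (j + 1)).1 L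
  obtain ⟨m1, -, -, -, -, m6, -⟩ := h1 L h2L ((fr p W (j + 1))⁄L).toAffine hN'
  obtain ⟨f1, f2, f3, f4, f5, f6⟩ := h4 p hp K W hW j (AlgebraicClosure L)
  obtain ⟨-, -, g3, -, g5, -⟩ := h4 p hp K W hW j L
  obtain ⟨v1, v2, v3⟩ := h5 p hp K W hW j L
  obtain ⟨-, sI, -, -⟩ := hpm' L (AlgebraicClosure L) (Algebra.ofId L (AlgebraicClosure L))
  have fsm : ∀ (n : ℕ) (Q : Pt p W j (AlgebraicClosure L)),
      Fi p W j (n • Q) = n • Fi p W j Q := by
    intro n Q
    induction n with
    | zero => rw [zero_smul, zero_smul, f1]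
    | succ n ih => rw [succ_nsmul, f3, ih, succ_nsmul]
  refine ⟨?_, ?_, ?_, ?_, ?_, ?_⟩
  · refine v2 0 _ _ (v1 0) ⟨0, ?_, ?_⟩
    · rw [f1, map_zero]
    · rw [map_zero, smul_zero]
  · intro X Y
    refine v2 _ _ _ (v1 _) ?_
    obtain ⟨Q, hQ1, hQ2⟩ := v1 X
    obtain ⟨Q', hQ1', hQ2'⟩ := v1 Y
    refine ⟨Q + Q', ?_, ?_⟩
    · rw [f3, hQ1, hQ1', map_add]
    · rw [map_add, hQ2, hQ2', smul_add]
  · intro Q
    refine v2 _ _ _ (v1 _) ⟨pmap (fr p W j) (Algebra.ofId L (AlgebraicClosure L)) Q, ?_, ?_⟩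
    · exact (g5 L (AlgebraicClosure L) (Algebra.ofId L (AlgebraicClosure L)) Q).symm
    · rw [map_nsmul]
  · intro X
    obtain ⟨Q, hQ1, hQ2⟩ := v1 X
    apply sI
    rw [g5 L (AlgebraicClosure L) (Algebra.ofId L (AlgebraicClosure L)), hQ2, fsm, hQ1, map_nsmul]
  · intro S M _ _ _ _ _ _ _ _ f X
    obtain ⟨w1, w2, -⟩ := h5 p hp K W hW j M
    obtain ⟨Q, hQ1, hQ2⟩ := v1 X
    -- the homomorphism of the algebraic closures
    let _ : Algebra L M := f.toRingHom.toAlgebra
    let G : AlgebraicClosure L →+* AlgebraicClosure M :=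
      (IsAlgClosed.lift (R := L) (S := AlgebraicClosure L) (M := AlgebraicClosure M)).toRingHom
    have hG : ∀ x : L, G (algebraMap L (AlgebraicClosure L) x) =
        algebraMap M (AlgebraicClosure M) (f x) := by
      intro x
      have e1 : G (algebraMap L (AlgebraicClosure L) x) =
        algebraMap L (AlgebraicClosure M) x := AlgHom.commutes _ x
      rw [e1, IsScalarTower.algebraMap_apply L M (AlgebraicClosure M)]
      rfl
    have hfK : ∀ a : K, f (algebraMap K L a) = algebraMap K M a := by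
      intro a
      rw [IsScalarTower.algebraMap_apply K S L, f.commutes, ← IsScalarTower.algebraMap_apply]
    let g : AlgebraicClosure L →ₐ[K] AlgebraicClosure M :=
      { G with
        commutes' := by
          intro a
          change G (algebraMap K (AlgebraicClosure L) a) = _
          rw [IsScalarTower.algebraMap_apply K L (AlgebraicClosure L), hG, hfK,
            ← IsScalarTower.algebraMap_apply] }
    have hcomp : ∀ (i : ℕ) (Y : Pt p W i L),
        pmap (fr p W i) g (pmap (fr p W i) (Algebra.ofId L (AlgebraicClosure L)) Y) =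
          pmap (fr p W i) (Algebra.ofId M (AlgebraicClosure M)) (pmap (fr p W i) f Y) := by
      intro i Y
      cases Y with
      | zero => rfl
      | some x y h =>
        have ex : g (Algebra.ofId L (AlgebraicClosure L) x) =
          Algebra.ofId M (AlgebraicClosure M) (f x) := hG x
        have ey : g (Algebra.ofId L (AlgebraicClosure L) y) =
          Algebra.ofId M (AlgebraicClosure M) (f y) := hG y
        unfold pmap
        simp only [Affine.Point.map_some]
        congr 1
    refine w2 _ _ _ ?_ (w1 _)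
    refine ⟨pmap (fr p W j) g Q, ?_, ?_⟩
    · rw [← hcomp, ← hQ1]
      exact (f5 K (AlgebraicClosure M) g Q).symm
    · rw [← hcomp, hQ2, map_nsmul]
  · obtain ⟨A, Ps, hA⟩ := (h3 p hp K (fr p W j) (hb3 j).1).1
    obtain ⟨-, -, hPs, hdeg, -⟩ := (h3 p hp K (fr p W j) (hb3 j).1).2 A Ps hA
    have hPs' : Ps.map (algebraMap K L) ≠ 0 :=
      (Polynomial.map_ne_zero_iff (algebraMap K L).injective).2 hPs
    have hZ : (Ps.map (algebraMap K L)).roots.toFinset.card ≤ (p - 1) / 2 :=
      (Multiset.toFinset_card_le _).trans ((Polynomial.card_roots' _).trans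
        (by rw [Polynomial.natDegree_map]; exact hdeg))
    have h6 := vh_count ((fr p W (j + 1))⁄L).toAffine m6 _ _ hZ
      {X : Pt p W (j + 1) L | Vi p W j X = 0} (by
        intro P hP
        rcases m1 P with h | ⟨x, y, hxy⟩
        · exact Or.inl h
        · refine Or.inr ⟨x, y, hxy, ?_⟩
          have h7 := ((v3 A Ps hA P x y hxy).1).1 hP
          rw [Multiset.mem_toFinset, Polynomial.mem_roots hPs', Polynomial.IsRoot.def,
            Polynomial.eval_map_algebraMap]
          exact h7)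
    refine ⟨h6.1, h6.2.trans ?_⟩
    obtain ⟨k, hk⟩ := hodd
    omega

end Pool.Agent.MP72V
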