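import Pool.Agent.Lib.MP_72e2e6_nt.WP.El.Spec

/-!
# MP_72e2e6_nt, theorem T3 for odd characteristic, elliptic block: existence and abscissa of `V X`
-/

namespace Pool.Agent.MP72V

open Polynomial WeierstrassCurve
open Pool.Agent.MP72W (pmap)

open scoped Classical

theorem tVr (h1 : S_Pts) (h2 : S_Bas) (h3 : S_Mul) (h4 : S_Pw) (h5 : S_Fr) : S_Vr := by
  intro p _ hp K _ _ W hW j L _ _
  have h2K : (2 : K) ≠ 0 := by
    intro h
    have h3 : ((2 : ℕ) : K) = 0 := by exact_mod_cast h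
    rw [CharP.cast_eq_zero_iff K p 2] at h3
    exact hp ((Nat.prime_dvd_prime_iff_eq (Fact.out : p.Prime) Nat.prime_two).1 h3)
  have hpp : p.Prime := Fact.out
  have hodd : Odd p := hpp.odd_of_ne_two hp
  obtain ⟨hb1, hb2⟩ := h2
  obtain ⟨hb3, -⟩ := hb2 K p W hW
  obtain ⟨h2L, hN, ha2, ha4, ha6, hpm⟩ := hb1 K h2K (fr p W j) (hb3 j).1 L
  obtain ⟨-, hN', -, -, -, hpm'⟩ := hb1 K h2K (fr p W (j + 1)) (hb3 (j + 1)).1 L
  obtain ⟨h2O, hO, hb2, hb4, hb6, -⟩ := hb1 K h2K (fr p W j) (hb3 j).1 (AlgebraicClosure L)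
  obtain ⟨-, hO', -⟩ := hb1 K h2K (fr p W (j + 1)) (hb3 (j + 1)).1 (AlgebraicClosure L)
  obtain ⟨q1, q2, -⟩ := h1 (AlgebraicClosure L) h2O
    ((fr p W j)⁄(AlgebraicClosure L)).toAffine hO
  obtain ⟨r1, r2, -⟩ := h1 (AlgebraicClosure L) h2O
    ((fr p W (j + 1))⁄(AlgebraicClosure L)).toAffine hO'
  obtain ⟨l1, -⟩ := h1 L h2L ((fr p W j)⁄L).toAffine hN
  obtain ⟨m1, -⟩ := h1 L h2L ((fr p W (j + 1))⁄L).toAffine hN'
  obtain ⟨f1, f2, f3, f4, -, f6⟩ := h5 p hp K W hW j (AlgebraicClosure L)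
  obtain ⟨pA, pI, pC, pE⟩ := hpm L (AlgebraicClosure L) (Algebra.ofId L (AlgebraicClosure L))
  obtain ⟨sA, sI, sC, sE⟩ := hpm' L (AlgebraicClosure L) (Algebra.ofId L (AlgebraicClosure L))
  have hinj : Function.Injective (algebraMap L (AlgebraicClosure L)) :=
    (algebraMap L (AlgebraicClosure L)).injective
  -- the abscissa of `p Q`
  have core : ∀ A Ps : K[X], IsPs (fr p W j) p A Ps → ∀ (X : Pt p W (j + 1) L) (x y : L),
      XY X x y → ∀ Q : Pt p W j (AlgebraicClosure L),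
      Fi p W j Q = pmap (fr p W (j + 1)) (Algebra.ofId L (AlgebraicClosure L)) X →
      Rp (p • Q) (algebraMap L (AlgebraicClosure L) (aeval x A))
        (algebraMap L (AlgebraicClosure L) (aeval x Ps ^ 2)) := by
    intro A Ps hA X x y hX Q hQ
    have a1 := sA X x y hX
    rw [← hQ] at a1
    rcases q1 Q with rfl | ⟨ξ, η, hξ⟩
    · rw [f1] at a1
      exact absurd rfl (r2 _ _ _ a1).1
    have a2 := f2 Q ξ η hξ
    have a3 : ξ ^ p = algebraMap L (AlgebraicClosure L) x :=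
      (r2 _ _ _ a2).2.1.symm.trans (r2 _ _ _ a1).2.1
    have a4 := (h3 K h2K (fr p W j) (hb3 j).1 p).1 (AlgebraicClosure L) Q ξ η hξ
    rw [hA.num, hA.den, expand_aeval, expand_aeval, a3, aeval_algebraMap_apply,
      aeval_algebraMap_apply, map_pow (aeval x)] at a4
    exact a4
  have exQ : ∀ X : Pt p W (j + 1) L, ∃ Q : Pt p W j (AlgebraicClosure L),
      Fi p W j Q = pmap (fr p W (j + 1)) (Algebra.ofId L (AlgebraicClosure L)) X := by
    intro X
    rcases m1 X with rfl | ⟨x, y, hX⟩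
    · exact ⟨0, by rw [f1, map_zero]⟩
    · obtain ⟨ξ, hξ⟩ := IsAlgClosed.exists_pow_nat_eq (algebraMap L (AlgebraicClosure L) x) hpp.pos
      obtain ⟨η, hη⟩ := IsAlgClosed.exists_pow_nat_eq (algebraMap L (AlgebraicClosure L) y) hpp.pos
      have a1 := sA X x y hX
      change XY _ (algebraMap L (AlgebraicClosure L) x) (algebraMap L (AlgebraicClosure L) y) at a1
      rw [← hξ, ← hη] at a1
      obtain ⟨Q, -, hQ⟩ := f6 _ ξ η a1
      exact ⟨Q, hQ⟩
  have fsm : ∀ (n : ℕ) (Q : Pt p W j (AlgebraicClosure L)),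
      Fi p W j (n • Q) = n • Fi p W j Q := by
    intro n Q
    induction n with
    | zero => rw [zero_smul, zero_smul, f1]
    | succ n ih => rw [succ_nsmul, f3, ih, succ_nsmul]
  have exP : ∀ X : Pt p W (j + 1) L, ∃ P : Pt p W j L, Vrel p W j X P := by
    obtain ⟨A, Ps, hA⟩ := (h4 p hp K (fr p W j) (hb3 j).1).1
    intro X
    rcases m1 X with rfl | ⟨x, y, hX⟩
    · exact ⟨0, 0, by rw [f1, map_zero], by rw [map_zero, smul_zero]⟩
    obtain ⟨Q, hQ⟩ := exQ X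
    have a := core A Ps hA X x y hX Q hQ
    rcases q1 (p • Q) with h0 | ⟨x', y', hXY⟩
    · exact ⟨0, Q, hQ, by rw [map_zero, h0]⟩
    obtain ⟨b1, b2⟩ := a.aff x' y' hXY
    have hx' : x' = algebraMap L (AlgebraicClosure L) (aeval x A / aeval x Ps ^ 2) := by
      rw [map_div₀, eq_div_iff b1]
      exact b2.symm
    have c1 := (q2 _ _ _ hXY).2.2.2
    obtain ⟨u, hu⟩ : ∃ u : L, y' ^ 2 = algebraMap L (AlgebraicClosure L) u := by
      refine ⟨(aeval x A / aeval x Ps ^ 2) ^ 3 +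
        algebraMap K L (fr p W j).a₂ * (aeval x A / aeval x Ps ^ 2) ^ 2 +
        algebraMap K L (fr p W j).a₄ * (aeval x A / aeval x Ps ^ 2) +
        algebraMap K L (fr p W j).a₆, ?_⟩
      rw [c1, hb2, hb4, hb6, hx']
      simp only [map_add, map_mul, map_pow, ← IsScalarTower.algebraMap_apply]
    have d1 := f2 (p • Q) x' y' hXY
    rw [fsm, hQ, ← map_nsmul] at d1
    obtain ⟨v, hv⟩ : ∃ v : L, y' ^ p = algebraMap L (AlgebraicClosure L) v := by
      refine ⟨py (p • X), ?_⟩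
      have e1 := (r2 _ _ _ d1).2.2.1
      rw [(sC (p • X)).2] at e1
      exact e1.symm
    obtain ⟨w, hw⟩ : ∃ w : L, y' = algebraMap L (AlgebraicClosure L) w := by
      by_cases hy : y' = 0
      · exact ⟨0, by rw [hy, map_zero]⟩
      · obtain ⟨m, hm⟩ := hodd
        refine ⟨v / u ^ m, ?_⟩
        rw [map_div₀, map_pow, ← hv, ← hu, eq_div_iff (pow_ne_zero m (pow_ne_zero 2 hy)), hm]
        ring
    rw [hx', hw] at hXY
    obtain ⟨P₁, -, hP₁⟩ := pE _ _ _ hXY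
    exact ⟨P₁, Q, hQ, hP₁⟩
  have hVi : ∀ X : Pt p W (j + 1) L, Vrel p W j X (Vi p W j X) := by
    intro X
    unfold Vi
    rw [dif_pos (exP X)]
    exact (exP X).choose_spec
  refine ⟨hVi, ?_, ?_⟩
  · rintro X P P' ⟨Q, hQ, hP⟩ ⟨Q', hQ', hP'⟩
    have e1 : Q = Q' := f4 Q Q' (hQ.trans hQ'.symm)
    subst e1
    exact pI (hP.trans hP'.symm)
  · intro A Ps hA X x y hX
    obtain ⟨Q, hQ, hP⟩ := hVi X
    have a := core A Ps hA X x y hX Q hQ
    rw [← hP] at a
    refine ⟨⟨?_, ?_⟩, ?_⟩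
    · intro h0
      have e1 := a.zero (by rw [h0, map_zero])
      rw [map_eq_zero_iff _ hinj] at e1
      exact pow_eq_zero_iff (two_ne_zero) |>.1 e1
    · intro h0
      rcases l1 (Vi p W j X) with h | ⟨x', y', h⟩
      · exact h
      · exact absurd (by rw [h0, zero_pow two_ne_zero, map_zero]) (a.aff _ _ (pA _ _ _ h)).1
    · intro x' y' h
      have e1 := (a.aff _ _ (pA _ _ _ h)).2
      apply hinj
      rw [map_mul]
      exact e1.symm

end Pool.Agent.MP72V
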