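import Pool.Agent.Lib.MP_72e2e6_nt.WP.El.Spec

/-!
# MP_72e2e6_nt, theorem T3 for odd characteristic, elliptic block: `S_Vs`
-/

namespace Pool.Agent.MP72V

open Polynomial WeierstrassCurve
open Pool.Agent.MP72W (pmap)

open scoped Classical

private theorem sep_infinite (L : Type) [Field L] [IsSepClosed L] : Infinite L := by
  by_contra h
  have hf : Finite L := not_infinite_iff_finite.mp h
  have hp : PerfectField L := inferInstance
  have ha : IsAlgClosed L := inferInstance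
  exact h inferInstance

private theorem two_ne (p : ℕ) [hp : Fact p.Prime] (hp2 : p ≠ 2) (K : Type) [Field K]
    [CharP K p] : (2 : K) ≠ 0 := by
  intro h0
  have h : ((2 : ℕ) : K) = 0 := by exact_mod_cast h0
  rw [CharP.cast_eq_zero_iff K p 2] at h
  exact hp2 ((Nat.prime_dvd_prime_iff_eq hp.out Nat.prime_two).mp h)

private theorem odd_nsmul {G : Type} [AddCommGroup G] (n m : ℕ) (h : n = 2 * m + 1) (Q : G) :
    n • Q = m • (Q + Q) + Q := by
  rw [h, add_nsmul, mul_nsmul, two_nsmul, one_nsmul]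

private theorem sqrt_ex (L : Type) [Field L] [IsSepClosed L] (h2 : (2 : L) ≠ 0) (c : L) :
    ∃ y : L, y ^ 2 = c := by
  have : NeZero (2 : L) := ⟨h2⟩
  obtain ⟨z, hz⟩ := IsSepClosed.exists_eq_mul_self c
  exact ⟨z, by rw [sq, hz]⟩

private theorem ker (h1 : S_Pts) (h2 : S_Bas) (h3 : S_Pw) (h4 : S_Fr) (h5 : S_Vr) (h6 : S_Vh)
    (h7 : S_Or) (p : ℕ) [hp : Fact p.Prime] (hp2 : p ≠ 2) (K : Type) [Field K] [CharP K p]
    (W : WeierstrassCurve K) (hW : IsNf W) (hod : Od p W) (j : ℕ) (L : Type) [Field L]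
    [Algebra K L] [IsSepClosed L] :
    {X : Pt p W (j + 1) L | Vi p W j X = 0}.ncard = p := by
  have h2K := two_ne p hp2 K
  have hnf : ∀ i, IsNf (fr p W i) := fun i => ((h2.2 K p W hW).1 i).1
  obtain ⟨⟨A, Ps, hPs⟩, hu⟩ := h3 p hp2 K (fr p W j) (hnf j)
  obtain ⟨hA1, hA2, hP1, hP2, hP3, -⟩ := hu A Ps hPs
  have hodj : Od p (fr p W j) := ((h7 p hp2 K W hW).2.1 j).mpr hod
  obtain ⟨o1, o2, o3⟩ := (h7 p hp2 K (fr p W j) (hnf j)).1 A Ps hPs
  have hdeg : Ps.natDegree = (p - 1) / 2 := o1.mp hodj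
  have hsepK : Ps.Separable := o3 hodj
  obtain ⟨h2L, hE, -⟩ := h2.1 K h2K (fr p W (j + 1)) (hnf (j + 1)) L
  obtain ⟨q1, q2, q3, q4, q5, q6, q7, q8, q9, q10⟩ := h1 L h2L _ hE
  obtain ⟨v1, v2, v3⟩ := h5 p hp2 K W hW j L
  obtain ⟨w1, w2, w3, w4, w5, w6, w7⟩ := h6 p hp2 K W hW j L
  have hodd : ∃ m, p = 2 * m + 1 := by
    rcases hp.out.eq_two_or_odd' with h | h
    · exact absurd h hp2
    · exact h
  obtain ⟨m, hm⟩ := hodd
  have hsep : (Ps.map (algebraMap K L)).Separable := hsepK.map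
  have hsplit : (Ps.map (algebraMap K L)).Splits := IsSepClosed.splits_of_separable _ hsep
  have hne : Ps.map (algebraMap K L) ≠ 0 := by
    rw [Ne, Polynomial.map_eq_zero]
    exact hP1
  have hZ : (Ps.map (algebraMap K L)).roots.toFinset.card = m := by
    rw [Multiset.toFinset_card_of_nodup (nodup_roots hsep), ← hsplit.natDegree_eq_card_roots,
      natDegree_map, hdeg, hm]
    omega
  have hZr : ∀ x ∈ (Ps.map (algebraMap K L)).roots.toFinset, aeval x Ps = 0 := by
    intro x hx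
    rw [Multiset.mem_toFinset, mem_roots hne] at hx
    rw [← eval_map_algebraMap]
    exact hx
  have hpt : ∀ x : L, ∃ (X : Pt p W (j + 1) L) (y : L), XY X x y := by
    intro x
    obtain ⟨y, hy⟩ := sqrt_ex L h2L (x ^ 3 + ((fr p W (j + 1))⁄L).toAffine.a₂ * x ^ 2 +
      ((fr p W (j + 1))⁄L).toAffine.a₄ * x + ((fr p W (j + 1))⁄L).toAffine.a₆)
    obtain ⟨P, hP⟩ := q3 x y hy
    exact ⟨P, y, hP⟩
  choose X Y hXY using hpt
  have hker : ∀ x ∈ (Ps.map (algebraMap K L)).roots.toFinset, Vi p W j (X x) = 0 := by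
    intro x hx
    rw [(v3 A Ps hPs (X x) x (Y x) (hXY x)).1]
    exact hZr x hx
  have hviN : ∀ P : Pt p W (j + 1) L, Vi p W j (-P) = -Vi p W j P := by
    intro P
    exact (AddMonoidHom.mk' (Vi p W j) w2).map_neg P
  have hY : ∀ x ∈ (Ps.map (algebraMap K L)).roots.toFinset, Y x ≠ 0 := by
    intro x hx hy
    have e0 := hXY x
    rw [hy] at e0
    have e1 := q9 _ _ e0
    have e2 := w4 (X x)
    rw [hker x hx, (h4 p hp2 K W hW j L).1, odd_nsmul p m hm, e1, smul_zero, zero_add] at e2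
    exact (q2 _ _ _ (hXY x)).1 e2.symm
  -- the injection
  let g : Option ({x // x ∈ (Ps.map (algebraMap K L)).roots.toFinset} × Bool) →
      Pt p W (j + 1) L := fun o =>
    match o with
    | none => 0
    | some (x, true) => X x.1
    | some (x, false) => -X x.1
  have hg : Function.Injective g := by
    have k1 : ∀ x : L, X x ≠ 0 := fun x => (q2 _ _ _ (hXY x)).1
    have k2 : ∀ x : L, -X x ≠ 0 := fun x h => k1 x (neg_eq_zero.mp h)
    have k3 : ∀ x : L, px (X x) = x := fun x => (q2 _ _ _ (hXY x)).2.1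
    have k4 : ∀ x : L, px (-X x) = x := fun x => (q2 _ _ _ (q5 _ _ _ (hXY x))).2.1
    have k5 : ∀ x ∈ (Ps.map (algebraMap K L)).roots.toFinset, X x ≠ -X x := by
      intro x hx h
      have e1 := (q2 _ _ _ (hXY x)).2.2.1
      have e2 := (q2 _ _ _ (q5 _ _ _ (hXY x))).2.2.1
      rw [← h, e1] at e2
      have e3 : 2 * Y x = 0 := by linear_combination e2
      rcases mul_eq_zero.mp e3 with e4 | e4
      · exact h2L e4
      · exact hY x hx e4
    intro a b hab
    rcases a with _ | ⟨⟨x, hx⟩, _ | _⟩ <;> rcases b with _ | ⟨⟨x', hx'⟩, _ | _⟩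
    · rfl
    · exact absurd hab.symm (k2 x')
    · exact absurd hab.symm (k1 x')
    · exact absurd hab (k2 x)
    · have e : -X x = -X x' := hab
      have e' := congrArg px e
      rw [k4, k4] at e'
      subst e'
      rfl
    · have e : -X x = X x' := hab
      have e' := congrArg px e
      rw [k4, k3] at e'
      subst e'
      exact absurd e.symm (k5 x hx)
    · exact absurd hab (k1 x)
    · have e : X x = -X x' := hab
      have e' := congrArg px e
      rw [k3, k4] at e'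
      subst e'
      exact absurd e (k5 x hx)
    · have e : X x = X x' := hab
      have e' := congrArg px e
      rw [k3, k3] at e'
      subst e'
      rfl
  have hsub : Set.range g ⊆ {X : Pt p W (j + 1) L | Vi p W j X = 0} := by
    rintro _ ⟨a, rfl⟩
    rcases a with _ | ⟨⟨x, hx⟩, _ | _⟩
    · exact w1
    · change Vi p W j (-X x) = 0
      rw [hviN, hker x hx, neg_zero]
    · exact hker x hx
  apply le_antisymm w7
  have hc : (Set.range g).ncard = p := by
    rw [← Set.image_univ, Set.ncard_image_of_injective _ hg, Set.ncard_univ,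
      Nat.card_eq_fintype_card, Fintype.card_option, Fintype.card_prod, Fintype.card_coe, hZ,
      Fintype.card_bool]
    omega
  calc p = (Set.range g).ncard := hc.symm
    _ ≤ _ := Set.ncard_le_ncard hsub w6

private theorem surj_ne (h1 : S_Pts) (h2 : S_Bas) (h3 : S_Pw) (h4 : S_Fr) (h5 : S_Vr)
    (h6 : S_Vh) (h7 : S_Or) (h8 : S_Mul) (p : ℕ) [hp : Fact p.Prime] (hp2 : p ≠ 2) (K : Type)
    [Field K] [CharP K p] (W : WeierstrassCurve K) (hW : IsNf W) (hod : Od p W) (j : ℕ)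
    (L : Type) [Field L] [Algebra K L] [IsSepClosed L] (P : Pt p W j L) (x₁ y₁ : L)
    (hP : XY P x₁ y₁) (hy₁ : y₁ ≠ 0) : ∃ X, Vi p W j X = P := by
  have h2K := two_ne p hp2 K
  have hnf : ∀ i, IsNf (fr p W i) := fun i => ((h2.2 K p W hW).1 i).1
  obtain ⟨⟨A, Ps, hPs⟩, hu⟩ := h3 p hp2 K (fr p W j) (hnf j)
  obtain ⟨hA1, hA2, hP1, hP2, hP3, -⟩ := hu A Ps hPs
  obtain ⟨h2L, hE, -⟩ := h2.1 K h2K (fr p W (j + 1)) (hnf (j + 1)) L
  obtain ⟨q1, q2, q3, q4, q5, q6, q7, q8, q9, q10⟩ := h1 L h2L _ hE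
  obtain ⟨v1, v2, v3⟩ := h5 p hp2 K W hW j L
  obtain ⟨w1, w2, w3, w4, w5, w6, w7⟩ := h6 p hp2 K W hW j L
  obtain ⟨-, hE', -, -, -, hmap⟩ := h2.1 K h2K (fr p W j) (hnf j) L
  obtain ⟨r1, r2, r3, r4, r5, r6, r7, r8, r9, r10⟩ := h1 L h2L _ hE'
  have hp1 := hp.out.one_lt
  -- the polynomial
  have hdA : (A.map (algebraMap K L)).natDegree = p := by rw [natDegree_map, hA2]
  have hdP : (C x₁ * (Ps.map (algebraMap K L)) ^ 2).natDegree < p := by
    refine lt_of_le_of_lt (natDegree_C_mul_le _ _) ?_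
    rw [natDegree_pow, natDegree_map]
    omega
  obtain ⟨q, hq⟩ : ∃ q : L[X], q = A.map (algebraMap K L) -
    C x₁ * (Ps.map (algebraMap K L)) ^ 2 := ⟨_, rfl⟩
  have hqd : q.natDegree = p := by
    rw [hq, natDegree_sub_eq_left_of_natDegree_lt (by rw [hdA]; exact hdP), hdA]
  have hq0 : q ≠ 0 := by
    intro h
    rw [h, natDegree_zero] at hqd
    omega
  have hqe : ∀ (Ω : Type) [Field Ω] [Algebra K Ω] [Algebra L Ω] [IsScalarTower K L Ω] (z : Ω),
      aeval z q = aeval z A - algebraMap L Ω x₁ * (aeval z Ps) ^ 2 := by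
    intro Ω _ _ _ _ z
    rw [hq, map_sub, map_mul, map_pow, aeval_C, aeval_map_algebraMap, aeval_map_algebraMap]
  -- separability
  have hsep : q.Separable := by
    have hΩ := h2.1 K h2K (fr p W (j + 1)) (hnf (j + 1)) (AlgebraicClosure L)
    obtain ⟨h2Ω, hEΩ, -⟩ := hΩ
    obtain ⟨s1, s2, s3, s4, s5, s6, s7, s8, s9, s10⟩ := h1 (AlgebraicClosure L) h2Ω _ hEΩ
    obtain ⟨-, hEΩ', -⟩ := h2.1 K h2K (fr p W j) (hnf j) (AlgebraicClosure L)
    obtain ⟨t1, t2, t3, t4, t5, t6, t7, t8, t9, t10⟩ := h1 (AlgebraicClosure L) h2Ω _ hEΩ'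
    obtain ⟨u1, u2, u3⟩ := h5 p hp2 K W hW j (AlgebraicClosure L)
    obtain ⟨z1, z2, z3, z4, z5, z6, z7⟩ := h6 p hp2 K W hW j (AlgebraicClosure L)
    obtain ⟨m1, -, -, -⟩ := hmap L (AlgebraicClosure L) (Algebra.ofId L (AlgebraicClosure L))
    obtain ⟨P', hP'⟩ : ∃ P', P' = pmap (fr p W j) (Algebra.ofId L (AlgebraicClosure L)) P :=
      ⟨_, rfl⟩
    have hP'xy : XY P' (algebraMap L (AlgebraicClosure L) x₁)
        (algebraMap L (AlgebraicClosure L) y₁) := by
      rw [hP']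
      exact m1 P x₁ y₁ hP
    have hy1 : algebraMap L (AlgebraicClosure L) y₁ ≠ 0 := by
      rw [Ne, map_eq_zero]
      exact hy₁
    have hPP : P' + P' ≠ 0 := (t2 _ _ _ (t8 P' _ _ _ hP'xy hy1 rfl)).1
    obtain ⟨Q, hQ⟩ := (h8 K h2K (fr p W j) (hnf j) p).2.2 (AlgebraicClosure L) hp1.le P'
    obtain ⟨X, hX⟩ : ∃ X, Vi p W j X = P' := ⟨Fi p W j Q, by rw [z3, hQ]⟩
    have hkc := ker h1 h2 h3 h4 h5 h6 h7 p hp2 K W hW hod j (AlgebraicClosure L)
    -- the abscissae
    have hne : ∀ T : Pt p W (j + 1) (AlgebraicClosure L), Vi p W j T = 0 → X + T ≠ 0 := by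
      intro T hT h0
      have := z2 X T
      rw [h0, z1, hT, hX, add_zero] at this
      exact (t2 _ _ _ hP'xy).1 this.symm
    have hxy : ∀ T : Pt p W (j + 1) (AlgebraicClosure L), Vi p W j T = 0 →
        ∃ y, XY (X + T) (px (X + T)) y := by
      intro T hT
      rcases s1 (X + T) with h | ⟨x, y, h⟩
      · exact absurd h (hne T hT)
      · have := (s2 _ _ _ h).2.1
        exact ⟨y, by rw [this]; exact h⟩
    have hroot : ∀ T : Pt p W (j + 1) (AlgebraicClosure L), Vi p W j T = 0 →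
        px (X + T) ∈ (q.map (algebraMap L (AlgebraicClosure L))).roots := by
      intro T hT
      obtain ⟨y, hy⟩ := hxy T hT
      rw [mem_roots (by rw [Ne, Polynomial.map_eq_zero]; exact hq0), IsRoot.def,
        eval_map_algebraMap, hqe]
      have hV : Vi p W j (X + T) = P' := by rw [z2, hT, hX, add_zero]
      have := (u3 A Ps hPs (X + T) _ y hy).2 (algebraMap L (AlgebraicClosure L) x₁)
        (algebraMap L (AlgebraicClosure L) y₁) (by rw [hV]; exact hP'xy)
      rw [← this]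
      exact sub_self _
    have hinj : Set.InjOn (fun T => px (X + T))
        {T : Pt p W (j + 1) (AlgebraicClosure L) | Vi p W j T = 0} := by
      intro T hT T' hT' he
      have hT1 : Vi p W j T = 0 := hT
      have hT2 : Vi p W j T' = 0 := hT'
      have he' : px (X + T) = px (X + T') := he
      obtain ⟨y, hy⟩ := hxy T hT1
      obtain ⟨y', hy'⟩ := hxy T' hT2
      rw [← he'] at hy'
      rcases s6 _ _ _ _ _ hy hy' with h | h
      · exact (add_left_cancel h).symm
      · exfalso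
        have e1 : (X + T') + (X + T) = 0 := by rw [h]; exact neg_add_cancel _
        have e2 := congrArg (Vi p W j) e1
        rw [z1, z2, z2, z2, hT1, hT2, add_zero, hX] at e2
        exact hPP e2
    have hle : p ≤ (q.map (algebraMap L (AlgebraicClosure L))).roots.toFinset.card := by
      have e1 : ((fun T => px (X + T)) ''
          {T : Pt p W (j + 1) (AlgebraicClosure L) | Vi p W j T = 0}) ⊆
          ((q.map (algebraMap L (AlgebraicClosure L))).roots.toFinset :
            Set (AlgebraicClosure L)) := by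
        rintro _ ⟨T, hT, rfl⟩
        rw [Finset.mem_coe, Multiset.mem_toFinset]
        exact hroot T hT
      have e2 := Set.ncard_le_ncard e1 (Finset.finite_toSet _)
      rw [Set.ncard_image_of_injOn hinj, hkc, Set.ncard_coe_finset] at e2
      exact e2
    have hcard : (q.map (algebraMap L (AlgebraicClosure L))).roots.card ≤ p := by
      have := card_roots' (q.map (algebraMap L (AlgebraicClosure L)))
      rw [natDegree_map, hqd] at this
      exact this
    have hnd : (q.map (algebraMap L (AlgebraicClosure L))).roots.Nodup := by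
      apply Multiset.toFinset_card_eq_card_iff_nodup.mp
      apply le_antisymm (Multiset.toFinset_card_le _)
      omega
    have hspl : (q.map (algebraMap L (AlgebraicClosure L))).Splits := IsAlgClosed.splits _
    rw [nodup_roots_iff_of_splits (by rw [Ne, Polynomial.map_eq_zero]; exact hq0) hspl,
      separable_map] at hnd
    exact hnd
  -- a root
  obtain ⟨x, hx⟩ := IsSepClosed.exists_root q (by
    rw [degree_eq_natDegree hq0, hqd]
    intro h
    have : p = 0 := by exact_mod_cast h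
    omega) hsep
  have hx' : aeval x A = x₁ * (aeval x Ps) ^ 2 := by
    have e := hqe L x
    rw [coe_aeval_eq_eval, hx] at e
    have e' : algebraMap L L x₁ = x₁ := rfl
    rw [e'] at e
    linear_combination -e
  have hPx : aeval x Ps ≠ 0 := by
    intro h0
    rw [h0, zero_pow two_ne_zero, mul_zero] at hx'
    obtain ⟨a, b, hab⟩ := hP3
    have := congrArg (aeval x) hab
    rw [map_add, map_mul, map_mul, h0, hx', map_one, mul_zero, mul_zero, add_zero] at this
    exact zero_ne_one this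
  obtain ⟨y, hy⟩ := sqrt_ex L h2L (x ^ 3 + ((fr p W (j + 1))⁄L).toAffine.a₂ * x ^ 2 +
      ((fr p W (j + 1))⁄L).toAffine.a₄ * x + ((fr p W (j + 1))⁄L).toAffine.a₆)
  obtain ⟨X, hX⟩ := q3 x y hy
  obtain ⟨c1, c2⟩ := v3 A Ps hPs X x y hX
  have hVX : Vi p W j X ≠ 0 := fun h => hPx (c1.mp h)
  rcases r1 (Vi p W j X) with h | ⟨x', y', h⟩
  · exact absurd h hVX
  · have e := c2 x' y' h
    rw [hx'] at e
    have e1 : x' = x₁ := mul_right_cancel₀ (pow_ne_zero 2 hPx) e
    rw [e1] at h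
    have hviN : ∀ P : Pt p W (j + 1) L, Vi p W j (-P) = -Vi p W j P := by
      intro P
      exact (AddMonoidHom.mk' (Vi p W j) w2).map_neg P
    rcases r6 _ _ _ _ _ hP h with h' | h'
    · exact ⟨X, h'⟩
    · exact ⟨-X, by rw [hviN, h', neg_neg]⟩

theorem tVs (h1 : S_Pts) (h2 : S_Bas) (h3 : S_Pw) (h4 : S_Fr) (h5 : S_Vr) (h6 : S_Vh)
    (h7 : S_Or) (h8 : S_Mul) : S_Vs := by
  intro p hp hp2 K _ _ W hW hod j L _ _ _
  refine ⟨?_, ker h1 h2 h3 h4 h5 h6 h7 p hp2 K W hW hod j L⟩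
  have h2K := two_ne p hp2 K
  have hnf : ∀ i, IsNf (fr p W i) := fun i => ((h2.2 K p W hW).1 i).1
  obtain ⟨h2L, hE, -⟩ := h2.1 K h2K (fr p W j) (hnf j) L
  obtain ⟨q1, q2, q3, q4, q5, q6, q7, q8, q9, q10⟩ := h1 L h2L _ hE
  obtain ⟨w1, w2, w3, w4, w5, w6, w7⟩ := h6 p hp2 K W hW j L
  have hne := surj_ne h1 h2 h3 h4 h5 h6 h7 h8 p hp2 K W hW hod j L
  -- a point with nonzero ordinate
  obtain ⟨P₁, x₁, y₁, hP₁, hy₁⟩ : ∃ (P₁ : Pt p W j L) (x₁ y₁ : L), XY P₁ x₁ y₁ ∧ y₁ ≠ 0 := by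
    have hinf := sep_infinite L
    obtain ⟨x, hx⟩ : ∃ x : L, x ^ 3 + ((fr p W j)⁄L).toAffine.a₂ * x ^ 2 +
        ((fr p W j)⁄L).toAffine.a₄ * x + ((fr p W j)⁄L).toAffine.a₆ ≠ 0 := by
      by_contra hcon
      push Not at hcon
      have hz : (X ^ 3 + C ((fr p W j)⁄L).toAffine.a₂ * X ^ 2 +
          C ((fr p W j)⁄L).toAffine.a₄ * X + C ((fr p W j)⁄L).toAffine.a₆ : L[X]) = 0 := by
        apply Polynomial.funext
        intro r
        rw [eval_zero, ← hcon r]
        simp only [eval_add, eval_mul, eval_pow, eval_X, eval_C]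
      have hc := congrArg (fun f : L[X] => f.coeff 3) hz
      simp [coeff_X, coeff_C] at hc
    obtain ⟨y, hy⟩ := sqrt_ex L h2L (x ^ 3 + ((fr p W j)⁄L).toAffine.a₂ * x ^ 2 +
        ((fr p W j)⁄L).toAffine.a₄ * x + ((fr p W j)⁄L).toAffine.a₆)
    obtain ⟨P, hP⟩ := q3 x y hy
    refine ⟨P, x, y, hP, ?_⟩
    intro h0
    rw [h0, zero_pow two_ne_zero] at hy
    exact hx hy.symm
  intro P
  rcases q1 P with rfl | ⟨x, y, hP⟩
  · exact ⟨0, w1⟩
  · by_cases hy : y = 0
    · rw [hy] at hP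
      have e1 : P + P = 0 := q9 P x hP
      have e2 : P₁ + P₁ ≠ 0 := (q2 _ _ _ (q8 P₁ _ _ _ hP₁ hy₁ rfl)).1
      have e3 : (P - P₁) + (P - P₁) = -(P₁ + P₁) := by
        have : (P - P₁) + (P - P₁) = (P + P) - (P₁ + P₁) := by abel
        rw [this, e1, zero_sub]
      obtain ⟨X₁, hX₁⟩ := hne P₁ x₁ y₁ hP₁ hy₁
      rcases q1 (P - P₁) with h0 | ⟨x₂, y₂, h₂⟩
      · exfalso
        rw [h0, add_zero] at e3
        exact e2 (neg_eq_zero.mp e3.symm)
      · have hy₂ : y₂ ≠ 0 := by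
          intro h0
          rw [h0] at h₂
          rw [q9 _ _ h₂] at e3
          exact e2 (neg_eq_zero.mp e3.symm)
        obtain ⟨X₂, hX₂⟩ := hne (P - P₁) x₂ y₂ h₂ hy₂
        exact ⟨X₁ + X₂, by rw [w2, hX₁, hX₂]; abel⟩
    · exact hne P x y hP hy

end Pool.Agent.MP72V
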