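import Pool.Agent.Lib.MP_72e2e6_nt.WP.El.Defs

/-!
# MP_72e2e6_nt, theorem T3 for odd characteristic, elliptic block

The proofs are complete in the docstrings; every module is independent (used statements are
hypotheses): file `WP/El/<Name>.lean` (import this file only) with `theorem t<Name> : S_<Name>` or
`theorem t<Name> (h1 : S_X) (h2 : S_Y) .. : S_<Name>` (in the order of the docstring), namespace
`Pool.Agent.MP72V`, other declarations `private`. Use `open scoped Classical` (the group structure on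
the points uses the classical decidable equality). `O = 0` is the point at infinity,
`f(x) = x ^ 3 + a₂ x ^ 2 + a₄ x + a₆`, `f_n = mf W n`, `g_n = mg W n`.
-/

namespace Pool.Agent.MP72V

open Polynomial WeierstrassCurve
open Pool.Agent.MP72W (pmap)

open scoped Classical

/-- **Pts** (200 lines). The group law of `y ^ 2 = f(x)`, characteristic not two.

Proof. Unfold the definitions of Mathlib (`Affine/Formula.lean`, `Affine/Point.lean`: `equation_iff`,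
`nonsingular_iff`, `slope_of_X_ne`, `slope_of_Y_ne`, `add_some`, `addX`, `negAddY`, `addY`, `negY`); `a₁ = a₃ = 0`,
`negY x y = - y`. (3), (10): a common zero of `f` and `f'` is excluded by `Δ ≠ 0`:
`Δ = 16 disc(f)` is a polynomial combination of `f(x)` and `f'(x)`; explicitly with
`b₂ = 4 a₂`, `b₄ = 2 a₄`, `b₆ = 4 a₆`, `b₈ = 4 a₂ a₆ - a₄ ^ 2`; eliminate `a₆ = -(x ^ 3 + a₂ x ^ 2 + a₄ x)` and
`a₄ = -(3 x ^ 2 + 2 a₂ x)` and check `Δ = 0` by `ring`. (6): `y' ^ 2 = y ^ 2`. (7), (8): the slope is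
`(y - y') / (x - x')`, resp. `(3 x ^ 2 + 2 a₂ x + a₄) / (2 y)`. -/
def S_Pts : Prop :=
  ∀ (L : Type) [Field L], (2 : L) ≠ 0 → ∀ W : WeierstrassCurve.Affine L, IsNf W →
    (∀ P : W.Point, P = 0 ∨ ∃ x y, XY P x y) ∧
    (∀ (P : W.Point) (x y : L), XY P x y → P ≠ 0 ∧ px P = x ∧ py P = y ∧
      y ^ 2 = x ^ 3 + W.a₂ * x ^ 2 + W.a₄ * x + W.a₆) ∧
    (∀ x y : L, y ^ 2 = x ^ 3 + W.a₂ * x ^ 2 + W.a₄ * x + W.a₆ → ∃ P : W.Point, XY P x y) ∧
    (∀ (P Q : W.Point) (x y : L), XY P x y → XY Q x y → P = Q) ∧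
    (∀ (P : W.Point) (x y : L), XY P x y → XY (-P) x (-y)) ∧
    (∀ (P Q : W.Point) (x y y' : L), XY P x y → XY Q x y' → Q = P ∨ Q = -P) ∧
    (∀ (P Q : W.Point) (x y x' y' l : L), XY P x y → XY Q x' y' → x ≠ x' →
      l = (y - y') / (x - x') →
      XY (P + Q) (l ^ 2 - W.a₂ - x - x') (l * (x - (l ^ 2 - W.a₂ - x - x')) - y)) ∧
    (∀ (P : W.Point) (x y l : L), XY P x y → y ≠ 0 →
      l = (3 * x ^ 2 + 2 * W.a₂ * x + W.a₄) / (2 * y) →
      XY (P + P) (l ^ 2 - W.a₂ - x - x) (l * (x - (l ^ 2 - W.a₂ - x - x)) - y)) ∧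
    (∀ (P : W.Point) (x : L), XY P x 0 → P + P = 0) ∧
    ∀ x : L, x ^ 3 + W.a₂ * x ^ 2 + W.a₄ * x + W.a₆ = 0 → 3 * x ^ 2 + 2 * W.a₂ * x + W.a₄ ≠ 0

/-- **Bas** (120 lines, uses `S_Pts`). Base change and homomorphisms of fields.

Proof. `WeierstrassCurve.map`, `Point.map_some`, `Point.map_injective`. The last statement: `(x, y)`
satisfies the equation over `L` since `f` is injective; take the point of `S_Pts` (3). For the second
statement: raising to the power `p ^ j` is a ring homomorphism of `K`, and `Δ` is a polynomial in the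
coefficients (`WeierstrassCurve.map_Δ` with `iterateFrobenius K p j`: `fr p W j = W.map (iterateFrobenius K p j)`). -/
def S_Bas : Prop :=
  (∀ (K : Type) [Field K], (2 : K) ≠ 0 → ∀ W : WeierstrassCurve K, IsNf W →
    ∀ (L : Type) [Field L] [Algebra K L], (2 : L) ≠ 0 ∧ IsNf (W⁄L).toAffine ∧
      (W⁄L).toAffine.a₂ = algebraMap K L W.a₂ ∧ (W⁄L).toAffine.a₄ = algebraMap K L W.a₄ ∧
      (W⁄L).toAffine.a₆ = algebraMap K L W.a₆ ∧
    ∀ (S M : Type) [Field S] [Field M] [Algebra K S] [Algebra K M] [Algebra S L] [Algebra S M]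
      [IsScalarTower K S L] [IsScalarTower K S M] (f : L →ₐ[S] M),
      (∀ (P : (W⁄L).toAffine.Point) (x y : L), XY P x y → XY (pmap W f P) (f x) (f y)) ∧
      Function.Injective (pmap W f) ∧
      (∀ P : (W⁄L).toAffine.Point, px (pmap W f P) = f (px P) ∧ py (pmap W f P) = f (py P)) ∧
      ∀ (P : (W⁄M).toAffine.Point) (x y : L), XY P (f x) (f y) →
        ∃ P₁ : (W⁄L).toAffine.Point, XY P₁ x y ∧ pmap W f P₁ = P) ∧
  ∀ (K : Type) [Field K] (p : ℕ) [Fact p.Prime] [CharP K p] (W : WeierstrassCurve K), IsNf W →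
    (∀ j : ℕ, IsNf (fr p W j) ∧ fr p W j = W.map (iterateFrobenius K p j)) ∧
    ∀ i j : ℕ, fr p (fr p W i) j = fr p W (i + j)

/-- **AS** (250 lines, uses `S_Pts`). The abscissae of `P + Q` and `P - Q`.

Proof. Here `P = (u : v)`, `Q = (u' : v')`, `P + Q = (r : t)`, `P - Q = (r' : t')` (abscissae). Both sides of
the claim are homogeneous in each of the four pairs, so one may replace each pair by `(x, 1)`, resp. `(1, 0)`.
`P = O`: `P + Q = Q`, `P - Q = - Q` have the abscissa `(u' : v')`, and the three forms at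
`(s, m, w) = (u', v', 0)` are `u' ^ 2, 2 u' v', v' ^ 2`. `Q = O`: the same. Both affine, `x ≠ x'`: `c = (x - x')⁻²`:
with `l = (y - y') / (x - x')`, `l' = (y + y') / (x - x')`, `x(P + Q) = l ^ 2 - a₂ - x - x'`,
`x(P - Q) = l' ^ 2 - a₂ - x - x'`; multiply by `(x - x') ^ 2` and use `y ^ 2 = f(x)`, `y' ^ 2 = f(x')`. `x = x'`: `Q = ± P`
and by symmetry (`P - Q ↔ P + Q`) let `Q = P`, `P - Q = O`. If `y ≠ 0`: `x(2 P) = l ^ 2 - a₂ - 2 x`,
`l = f'(x) / (2 y)`, and the three forms at `(x ^ 2, 2 x, 1)` are `4 y ^ 2 (l ^ 2 - a₂ - 2 x)`, `4 y ^ 2`, `0`. If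
`y = 0`: `2 P = O`, the forms are `(f'(x) ^ 2, 0, 0)` modulo `f(x) = 0`, and `f'(x) ≠ 0`. -/
def S_AS : Prop :=
  ∀ (L : Type) [Field L], (2 : L) ≠ 0 → ∀ W : WeierstrassCurve.Affine L, IsNf W →
    ∀ (P Q : W.Point) (u v u' v' r t r' t' s m w : L), Rp P u v → Rp Q u' v' → Rp (P + Q) r t →
      Rp (P - Q) r' t' → s = u * u' → m = u * v' + v * u' → w = v * v' →
      ∃ c : L, c ≠ 0 ∧
        r * r' = c * (s ^ 2 - 2 * W.a₄ * s * w - 4 * W.a₆ * m * w -
          (4 * W.a₂ * W.a₆ - W.a₄ ^ 2) * w ^ 2) ∧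
        r * t' + t * r' = c * (2 * m * s + 4 * W.a₂ * s * w + 2 * W.a₄ * m * w +
          4 * W.a₆ * w ^ 2) ∧
        t * t' = c * (m ^ 2 - 4 * s * w)

/-- **Deg** (200 lines). Degrees; compatibility with ring homomorphisms.

Proof. (1) by two-step induction. `n = 0, 1` are clear. Let `e = (n + 1) ^ 2`; `f_{n+1}` is monic of degree `e`,
`deg g_{n+1} < e`. Then `X f_{n+1}` is monic of degree `e + 1`, `deg (f_{n+1} + X g_{n+1}) ≤ e`, so `A0` is
monic of degree `2 e + 2` and `deg A1 ≤ 2 e + 1`. Division by the monic `f_n` of degree `n ^ 2`: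
`2 e + 2 - n ^ 2 = (n + 2) ^ 2`, the quotient is monic (`leadingCoeff_divByMonic_of_monic`,
`natDegree_divByMonic`); `deg (A1 - f_{n+2} g_n) ≤ max (2 e + 1, (n + 2) ^ 2 + n ^ 2 - 1)` and
`2 e + 1 - n ^ 2 < (n + 2) ^ 2` (if `n = 0`, `g_0 = 0`). (2) by induction, `Polynomial.map_divByMonic`. -/
def S_Deg : Prop :=
  (∀ (R : Type) [CommRing R] [Nontrivial R] (W : WeierstrassCurve R) (n : ℕ),
    (mf W n).Monic ∧ (mf W n).natDegree = n ^ 2 ∧ (mg W n).degree < (mf W n).degree) ∧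
  ∀ (R S : Type) [CommRing R] [CommRing S] [Nontrivial S] (φ : R →+* S)
    (W : WeierstrassCurve R) (n : ℕ),
    mf (W.map φ) n = (mf W n).map φ ∧ mg (W.map φ) n = (mg W n).map φ

/-- **Prm** (150 lines). Primitive triples.

Proof. (1) `W' = W.map C` over `K[X]` has the unit discriminant `C Δ`, so it is elliptic. With
`a₁ = a₃ = 0`: `b₂ = 4 a₂`, `b₄ = 2 a₄`, `b₆ = 4 a₆`, `b₈ = 4 a₂ a₆ - a₄ ^ 2`. Let `v = ![X f, f + X g, g]`; the values
of `W'.addSubMap` at `v` are `A0, A1, (f - X g) ^ 2` (as `(f + X g) ^ 2 - 4 X f g = (f - X g) ^ 2`). If an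
irreducible, hence prime, `π` divides all of them, then by `WeierstrassCurve.addSubMapCoeff_condition`
it divides `v i ^ 4`, hence `v i`, for all `i`: `π ∣ g`, `π ∣ f + X g`, so `π ∣ f`, contradicting coprimality.
(2) If `π` divides `f₁ f₂`, `f₁ g₂ + g₁ f₂`, `g₁ g₂`: say `π ∣ f₁`; then `π ∤ g₁`, so `π ∣ g₂`, `π ∤ f₂`, but
`π ∣ g₁ f₂`, a contradiction; `π ∣ f₂` is symmetric. (3) Write `c = r / s` with coprime `r, s : K[X]`, `s ≠ 0`
(`RatFunc.num`, `RatFunc.denom`), so `s u_i = r w_i`. An irreducible factor of `r` divides every `u_i`, an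
irreducible factor of `s` every `w_i`; so `r, s` are units, i.e. nonzero constants. -/
def S_Prm : Prop :=
  ∀ (K : Type) [Field K],
    (∀ W : WeierstrassCurve K, (2 : K) ≠ 0 → IsNf W → ∀ f g : K[X], IsCoprime f g →
      ∀ π : K[X], Irreducible π → ¬ (π ∣ A0 W f g ∧ π ∣ A1 W f g ∧ π ∣ (f - X * g) ^ 2)) ∧
    (∀ f₁ g₁ f₂ g₂ : K[X], IsCoprime f₁ g₁ → IsCoprime f₂ g₂ → ∀ π : K[X], Irreducible π →
      ¬ (π ∣ f₁ * f₂ ∧ π ∣ f₁ * g₂ + g₁ * f₂ ∧ π ∣ g₁ * g₂)) ∧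
    ∀ (u₀ u₁ u₂ w₀ w₁ w₂ : K[X]) (c : RatFunc K), c ≠ 0 →
      (∀ π : K[X], Irreducible π → ¬ (π ∣ u₀ ∧ π ∣ u₁ ∧ π ∣ u₂)) →
      (∀ π : K[X], Irreducible π → ¬ (π ∣ w₀ ∧ π ∣ w₁ ∧ π ∣ w₂)) →
      algebraMap K[X] (RatFunc K) u₀ = c * algebraMap K[X] (RatFunc K) w₀ →
      algebraMap K[X] (RatFunc K) u₁ = c * algebraMap K[X] (RatFunc K) w₁ →
      algebraMap K[X] (RatFunc K) u₂ = c * algebraMap K[X] (RatFunc K) w₂ →
      ∃ e : K, e ≠ 0 ∧ u₀ = C e * w₀ ∧ u₁ = C e * w₁ ∧ u₂ = C e * w₂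

/-- **Gn** (300 lines, uses `S_Pts`, `S_Bas`, `S_AS`, `S_Deg`, `S_Prm`). The recursion is exact
(generic point).

Proof. `A2 = (f_{n+1} - X g_{n+1}) ^ 2`. Let `Ω = AlgebraicClosure (RatFunc K)` (an algebra over `K`), `x₀ ∈ Ω` the
image of `X`, `y₀ ^ 2 = f(x₀)`, `P₀ = (x₀, y₀) ∈ W(Ω)`. By two-step induction: `f_n, g_n` are coprime,
`Rp (n P₀) (f_n(x₀)) (g_n(x₀))` (values by `aeval x₀`), and the three identities hold for all smaller indices.
`n = 0`: `(1, 0)`; `n = 1`: `(x₀, 1)`. Step: let `(r, t)` be a pair with `Rp ((n + 2) P₀) r t` (`(1, 0)` or `(x, 1)`).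
`S_AS` for `(n + 1) P₀` and `P₀` with the pairs `(f_{n+1}(x₀), g_{n+1}(x₀))`, `(x₀, 1)`, `(r, t)`,
`(f_n(x₀), g_n(x₀))`: after replacing `(r, t)` by `(r, t) / c`
`r f_n = A0, r g_n + t f_n = A1, t g_n = A2` (values at `x₀`). `f_n(x₀) ≠ 0` (monic, `x₀` transcendental: `RatFunc K`
is the fraction field of `K[X]`). So `r = A0 / f_n` and `t = (A1 - r g_n) / f_n` are in `RatFunc K`; not both
zero. Multiply by a common denominator and divide by a gcd: `(r, t) = λ (a, b)` with `λ ∈ RatFunc K` not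
zero, `a, b ∈ K[X]` coprime. Hence `(A0, A1, A2) = λ (a f_n, a g_n + b f_n, b g_n)`; both triples are
primitive (`S_Prm` (1), (2)), so by `S_Prm` (3) `λ = e` is a constant (up to this: `A0 = e a f_n`, ..). Since
`f_n` is monic: `f_{n+2} = A0 /ₘ f_n = e a` and `g_{n+2} = (A1 - f_{n+2} g_n) /ₘ f_n = e b`. -/
def S_Gn : Prop :=
  ∀ (K : Type) [Field K], (2 : K) ≠ 0 → ∀ W : WeierstrassCurve K, IsNf W → ∀ n : ℕ,
    IsCoprime (mf W n) (mg W n) ∧
    mf W (n + 2) * mf W n = A0 W (mf W (n + 1)) (mg W (n + 1)) ∧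
    mf W (n + 2) * mg W n + mg W (n + 2) * mf W n = A1 W (mf W (n + 1)) (mg W (n + 1)) ∧
    mg W (n + 2) * mg W n = (mf W (n + 1) - X * mg W (n + 1)) ^ 2

/-- **Mul** (200 lines, uses `S_Pts`, `S_Bas`, `S_AS`, `S_Deg`, `S_Gn`). The abscissa of `n P`.

Proof. Two-step induction on `n` for a fixed `P = (x, y)`. `n = 0`: `(1, 0)`; `n = 1`: `(x, 1)`. Step: let
`Rp ((n + 2) P) r t`. `S_AS` for `(n + 1) P` and `P` with the pairs `(f_{n+1}(x), g_{n+1}(x))`, `(x, 1)`,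
`(f_n(x), g_n(x))` for `n P`: `s = x f_{n+1}(x)`, `m = f_{n+1}(x) + x g_{n+1}(x)`, `w = g_{n+1}(x)`, so the three
forms are the values at `x` of `A0`, `A1`, `(f_{n+1} - X g_{n+1}) ^ 2` and by `S_Gn`
`r f_n(x) = c f_{n+2}(x) f_n(x)`, `r g_n(x) + t f_n(x) = c (f_{n+2}(x) g_n(x) + g_{n+2}(x) f_n(x))`,
`t g_n(x) = c g_{n+2}(x) g_n(x)`. As `(f_n(x), g_n(x)) ≠ 0` this gives `r = c f_{n+2}(x)`, `t = c g_{n+2}(x)`
(if `f_n(x) ≠ 0` use the first two, otherwise the last two). `c ≠ 0`, so `Rp ((n + 2) P)` holds for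
`(f_{n+2}(x), g_{n+2}(x))`. (2) For `n ≥ 1`: `g_n ≠ 0`, since otherwise `f_n` is a unit of degree `n ^ 2 > 0`. (3)
`n • Q = P`: `P = O`: `Q = O`. `P = (x₁, y₁)`: `f_n - x₁ g_n` (coefficients in `L`) is monic of degree `n ^ 2 > 0`, so
it has a root `x`; `y ^ 2 = f(x)`, `Q = (x, y)`; `g_n(x) ≠ 0` (coprime), so `n Q` has the abscissa
`f_n(x) / g_n(x) = x₁` and `n Q = ± P`. -/
def S_Mul : Prop :=
  ∀ (K : Type) [Field K], (2 : K) ≠ 0 → ∀ W : WeierstrassCurve K, IsNf W → ∀ n : ℕ,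
    (∀ (L : Type) [Field L] [Algebra K L] (P : (W⁄L).toAffine.Point) (x y : L), XY P x y →
      Rp (n • P) (aeval x (mf W n)) (aeval x (mg W n))) ∧
    (1 ≤ n → mg W n ≠ 0) ∧
    ∀ (L : Type) [Field L] [Algebra K L] [IsAlgClosed L], 1 ≤ n →
      ∀ P : (W⁄L).toAffine.Point, ∃ Q, n • Q = P

/-- **Sqr** (80 lines, uses `S_Deg`, `S_Gn`, `S_Mul`). `g_n` is a square for odd `n`.

Proof. Induction: `g_1 = 1`; `g_{n+2} g_n = (..) ^ 2`, `g_n = ψ ^ 2 ≠ 0`: `ψ ^ 2 ∣ (..) ^ 2`, so `ψ ∣ (..)`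
(`pow_dvd_pow_iff`), `(..) = ψ m`, `g_{n+2} = m ^ 2`. -/
def S_Sqr : Prop :=
  ∀ (K : Type) [Field K], (2 : K) ≠ 0 → ∀ W : WeierstrassCurve K, IsNf W → ∀ n : ℕ, Odd n →
    ∃ ψ : K[X], mg W n = ψ ^ 2

/-- **Om** (250 lines, uses `S_Pts`). The invariant differential.

Proof. `D f(x) = f'(x) D x` (the coefficients are constants), so `2 y D y = f'(x) D x`. (1) `y ≠ 0`:
`w = D x / (2 y)`; `y = 0`: `f(x) = 0`, `f'(x) ≠ 0`, so `D x = 0`, `w = D y / f'(x)`. Uniqueness: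
`(2 y, f'(x)) ≠ (0, 0)`. (2) `P = O` or `Q = O`: clear. `Q = - P`: `(x, -y)` has the value `- w`. Otherwise let
`l` be the slope (`x ≠ x'`: `(y - y') / (x - x')`; `Q = P`: `f'(x) / (2 y)`),
`x₃ = l ^ 2 - a₂ - x - x'`, `y₃ = l (x - x₃) - y`. Claim `D l = w (x - x₃) + w' (x' - x₃)`. For `x ≠ x'`: the line
`y = l x + ν` meets the curve in `x, x', x₃`: `f(X) - (l X + ν) ^ 2 = (X - x) (X - x') (X - x₃)`, so
`f'(x) - 2 l y = (x - x') (x - x₃)`, `f'(x') - 2 l y' = (x' - x) (x' - x₃)`, and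
`(x - x') D l = (D y - D y') - l (D x - D x') = w (f'(x) - 2 l y) - w' (f'(x') - 2 l y')`. For `Q = P`:
`2 y D l = D (f'(x)) - 2 l D y = (6 x + 2 a₂) 2 y w - 2 l f'(x) w` and `f'(x) = 2 y l`, so
`D l = (6 x + 2 a₂ - 2 l ^ 2) w = 2 (x - x₃) w`. Then `D x₃ = 2 l D l - D x - D x'
= w (2 l (x - x₃) - 2 y) + w' (2 l (x' - x₃) - 2 y') = 2 y₃ (w + w')` (`y₃ = l (x - x₃) - y = l (x' - x₃) - y'`), and
`D y₃ = D l (x - x₃) + l (D x - D x₃) - D y`; using `f'(x) - 2 l y = (x - x') (x - x₃)` and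
`f'(x₃) + 2 l y₃ = (x₃ - x) (x₃ - x')` (the line passes through `(x₃, -y₃)`) this is `f'(x₃) (w + w')`. (3) by
induction on `n`. -/
def S_Om : Prop :=
  ∀ (L : Type) [Field L], (2 : L) ≠ 0 → ∀ W : WeierstrassCurve.Affine L, IsNf W →
    ∀ D : Derivation ℤ L L, D W.a₂ = 0 → D W.a₄ = 0 → D W.a₆ = 0 →
    (∀ P : W.Point, ∃ w, IsOm D P w) ∧
    (∀ (P : W.Point) (w w' : L), IsOm D P w → IsOm D P w' → w = w') ∧
    (∀ (P Q : W.Point) (w w' : L), IsOm D P w → IsOm D Q w' → IsOm D (P + Q) (w + w')) ∧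
    ∀ (P : W.Point) (w : L) (n : ℕ), IsOm D P w → IsOm D (n • P) (n * w)

/-- **Dv** (120 lines). A field with a derivation.

Proof. `L = SeparableClosure (RatFunc K)`, `x` the image of `X`; `y ^ 2 = c(x)` has a root since
`T ^ 2 - c(x)` is separable (`c ≠ 0` as a polynomial, `2 ≠ 0`). The derivation `d / dX` of `K[X]` extends to
`RatFunc K` (localization) and to `L` (separable algebraic): both `K[X] → RatFunc K` and `RatFunc K → L` are
formally étale (`Algebra.FormallyEtale.of_isLocalization`, `Algebra.FormallyEtale.of_isSeparable` or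
similar, `Algebra.FormallyEtale.comp`), so `L ⊗ Ω[K[X]⁄K] ≃ Ω[L⁄K]`
(`KaehlerDifferential.tensorKaehlerEquivOfFormallyEtale`), and a derivation is a linear form on `Ω`
(`Derivation.liftKaehlerDifferential`). Any other construction is fine. -/
def S_Dv : Prop :=
  ∀ (K : Type) [Field K], (2 : K) ≠ 0 → ∀ c : K[X], c ≠ 0 →
    ∃ (L : Type) (_ : Field L) (_ : Algebra K L) (D : Derivation K L L) (x y : L),
      (∀ h : K[X], aeval x h = 0 → h = 0) ∧ D x = 1 ∧ y ^ 2 = aeval x c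

/-- **Pw** (200 lines, uses `S_Pts`, `S_Bas`, `S_Deg`, `S_Gn`, `S_Mul`, `S_Sqr`, `S_Om`, `S_Dv`). In
characteristic `p` the polynomials `f_p`, `g_p` are polynomials in `X ^ p`.

Proof. Let `L, D, x, y` be as in `S_Dv` for `c = cub W`, `P = (x, y)`, `IsOm D P w` (the coefficients of `W⁄L` are
images of elements of `K`, killed by `D`). `IsOm D (p • P) (p * w)`, `p * w = 0`. `g_p(x) ≠ 0` (`S_Mul` (2), `x`
transcendental), so `p • P = (x', y')`, `x' g_p(x) = f_p(x)`, and `D x' = 0`. So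
`x' D (g_p(x)) = D (f_p(x))`, i.e. (`D (h(x)) = h'(x) D x = h'(x)`) `f_p(x) g_p'(x) = f_p'(x) g_p(x)`, hence
`f_p g_p' = f_p' g_p` in `K[X]`. Coprime: `g_p ∣ g_p'`, so `g_p' = 0` (degree), `f_p' = 0`. A polynomial with
derivative zero is in the image of `expand K p` (`expand_contract`). `g_p = ψ ^ 2` (`S_Sqr`, `p` is odd),
`2 ψ ψ' = 0`, so `ψ' = 0`, `ψ = expand K p Ps`. Degrees: `p natDegree A = p ^ 2`,
`2 p natDegree Ps < p ^ 2`. `A` is monic, `A, Ps` are coprime (`IsCoprime.of_expand`-type; a common root of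
`A` and `Ps ^ 2` in the algebraic closure gives a common root of `f_p` and `g_p`; or use
`Polynomial.isCoprime_expand`). Uniqueness: `expand` is injective. -/
def S_Pw : Prop :=
  ∀ (p : ℕ) [Fact p.Prime], p ≠ 2 → ∀ (K : Type) [Field K] [CharP K p]
    (W : WeierstrassCurve K), IsNf W →
    (∃ A Ps : K[X], IsPs W p A Ps) ∧
    ∀ A Ps : K[X], IsPs W p A Ps → A.Monic ∧ A.natDegree = p ∧ Ps ≠ 0 ∧
      Ps.natDegree ≤ (p - 1) / 2 ∧ IsCoprime A Ps ∧
      (∀ j : ℕ, IsPs (fr p W j) p (A.map (iterateFrobenius K p j))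
        (Ps.map (iterateFrobenius K p j))) ∧
      ∀ A' Ps' : K[X], IsPs W p A' Ps' → A' = A ∧ (Ps' = Ps ∨ Ps' = -Ps)

/-- **Fr** (200 lines, uses `S_Pts`, `S_Bas`). The Frobenius isogeny.

Proof. (2) `(x ^ p, y ^ p)` satisfies the equation of `E_{j + 1}`. (3) additivity: the cases `P = O`, `Q = O`,
`Q = - P`, `P = Q` (`y ≠ 0`), `px P ≠ px Q`: the slope of `Fi P`, `Fi Q` is the `p`-th power of the slope of
`P`, `Q`, and the formulas `S_Pts` (7), (8) are compatible with `p`-th powers (the coefficients of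
`E_{j + 1}` over `L` are the `p`-th powers of those of `E_j`). (4) `x ↦ x ^ p` is injective. (5) naturality:
compare coordinates. (6) the equation of `E_{j + 1}` for `(x ^ p, y ^ p)` is the `p`-th power of the one of `E_j`
for `(x, y)`. -/
def S_Fr : Prop :=
  ∀ (p : ℕ) [Fact p.Prime], p ≠ 2 → ∀ (K : Type) [Field K] [CharP K p]
    (W : WeierstrassCurve K), IsNf W → ∀ (j : ℕ) (L : Type) [Field L] [Algebra K L],
    Fi p W j (0 : Pt p W j L) = 0 ∧
    (∀ (P : Pt p W j L) (x y : L), XY P x y → XY (Fi p W j P) (x ^ p) (y ^ p)) ∧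
    (∀ P Q : Pt p W j L, Fi p W j (P + Q) = Fi p W j P + Fi p W j Q) ∧
    (∀ P Q : Pt p W j L, Fi p W j P = Fi p W j Q → P = Q) ∧
    (∀ (S M : Type) [Field S] [Field M] [Algebra K S] [Algebra K M] [Algebra S L] [Algebra S M]
      [IsScalarTower K S L] [IsScalarTower K S M] (f : L →ₐ[S] M) (P : Pt p W j L),
      pmap (fr p W (j + 1)) f (Fi p W j P) = Fi p W j (pmap (fr p W j) f P)) ∧
    ∀ (P : Pt p W (j + 1) L) (x y : L), XY P (x ^ p) (y ^ p) →
      ∃ P₁ : Pt p W j L, XY P₁ x y ∧ Fi p W j P₁ = P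

/-- **Vr** (200 lines, uses `S_Pts`, `S_Bas`, `S_Mul`, `S_Pw`, `S_Fr`). Existence and abscissa of `V X`.

Proof. `Ω = AlgebraicClosure L`, `ι : L → Ω`. `X = O`: `Q = O`, `P = O`. Let `X = (x, y)`, `ξ, η ∈ Ω` with
`ξ ^ p = x`, `η ^ p = y`; by `S_Fr` (6) `Q = (ξ, η) ∈ E_j(Ω)`, `Fi Q = ι X`. `S_Mul` for `E_j` (`fr p W j`) and
`IsPs (fr p W j) p A Ps`: `f_p(ξ) = A(ξ ^ p) = A(x)`, `g_p(ξ) = Ps(x) ^ 2`. If `Ps(x) = 0`: `p Q = O`, `P = O`.
Otherwise `p Q = (x', y')`, `x' = A(x) / Ps(x) ^ 2 ∈ ι L`; `y' ^ 2 = f_j(x') ∈ ι L`;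
`Fi (p Q) = p ι X = ι (p X)`, so `y' ^ p ∈ ι L`. As `p` is odd `y' ∈ ι L`: if `y' ≠ 0` then
`y' = y' ^ p / (y' ^ 2) ^ ((p - 1) / 2)`. By the last statement of `S_Bas` `p Q = ι P`. Uniqueness of `P` for given `X`: `Fi` and
`ι` are injective. -/
def S_Vr : Prop :=
  ∀ (p : ℕ) [Fact p.Prime], p ≠ 2 → ∀ (K : Type) [Field K] [CharP K p]
    (W : WeierstrassCurve K), IsNf W → ∀ (j : ℕ) (L : Type) [Field L] [Algebra K L],
    (∀ X : Pt p W (j + 1) L, Vrel p W j X (Vi p W j X)) ∧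
    (∀ (X : Pt p W (j + 1) L) (P P' : Pt p W j L), Vrel p W j X P → Vrel p W j X P' → P = P') ∧
    ∀ (A Ps : K[X]), IsPs (fr p W j) p A Ps → ∀ (X : Pt p W (j + 1) L) (x y : L), XY X x y →
      (Vi p W j X = 0 ↔ aeval x Ps = 0) ∧
      ∀ x' y' : L, XY (Vi p W j X) x' y' → x' * aeval x Ps ^ 2 = aeval x A

/-- **Vh** (200 lines, uses `S_Pts`, `S_Bas`, `S_Pw`, `S_Fr`, `S_Vr`). Properties of `Vi`.

Proof. (0) For every homomorphism `f : L → M` of fields over `K` and `Q ∈ E_j(M)` with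
`Fi Q = pmap f X`: `pmap f (Vi X) = p Q`. Indeed let `Ω` be an algebraic closure of `M`; there is a homomorphism
`g : AlgebraicClosure L → Ω` compatible with `L → M → Ω` (`IsAlgClosed.lift`), and if `Q'` is the point of
`Vrel X (Vi X)` then `g Q'` and the image of `Q` have the same image under `Fi` (naturality), so they are
equal (`Fi` injective); compare `p g Q' = g ι (Vi X)` and use that `M → Ω` is injective on points.
(1), (2): from `Vrel` (the relation is additive, and unique by `S_Vr` (2)). (3) `Vi (Fi Q) = p Q`: (0) with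
`M = L`, `f = id`. (4) `Fi (Vi X) = p X`: over `Ω`, `ι (Fi (Vi X)) = Fi (p Q) = p ι X`. (5) naturality: with the
point `Q` of `Vrel X (Vi X)` over `AlgebraicClosure L`, a lift `g : AlgebraicClosure L → AlgebraicClosure M`
of `f` shows `Vrel (pmap f X) (pmap f (Vi X))`. (6) the kernel: `Vi X = O` iff `X = O` or `Ps(x) = 0` (`S_Vr` (3), an
`IsPs` exists by hypothesis); every root `x` of `Ps` belongs to at most two points `± X`, and
`natDegree Ps ≤ (p - 1) / 2`; so at most `1 + 2 (p - 1) / 2 = p` points. -/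
def S_Vh : Prop :=
  ∀ (p : ℕ) [Fact p.Prime], p ≠ 2 → ∀ (K : Type) [Field K] [CharP K p]
    (W : WeierstrassCurve K), IsNf W → ∀ (j : ℕ) (L : Type) [Field L] [Algebra K L],
    Vi p W j (0 : Pt p W (j + 1) L) = 0 ∧
    (∀ X Y : Pt p W (j + 1) L, Vi p W j (X + Y) = Vi p W j X + Vi p W j Y) ∧
    (∀ Q : Pt p W j L, Vi p W j (Fi p W j Q) = p • Q) ∧
    (∀ X : Pt p W (j + 1) L, Fi p W j (Vi p W j X) = p • X) ∧
    (∀ (S M : Type) [Field S] [Field M] [Algebra K S] [Algebra K M] [Algebra S L] [Algebra S M]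
      [IsScalarTower K S L] [IsScalarTower K S M] (f : L →ₐ[S] M) (X : Pt p W (j + 1) L),
      pmap (fr p W j) f (Vi p W j X) = Vi p W j (pmap (fr p W (j + 1)) f X)) ∧
    {X : Pt p W (j + 1) L | Vi p W j X = 0}.Finite ∧
      {X : Pt p W (j + 1) L | Vi p W j X = 0}.ncard ≤ p

/-- **Or** (200 lines, uses `S_Pts`, `S_Bas`, `S_Deg`, `S_Mul`, `S_Pw`). Ordinary curves.

Proof. (a) → (c): `P = (x, y)`, `p P = O`: `g_p(x) = Ps(x ^ p) ^ 2 = 0`, so `Ps` (not zero) is not constant.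
(c) → (b) and separability: let `G = {Q ∈ W(Ω) : p Q = O}`, `Ω` the algebraic closure. Its elements are `O` and for
every root `z` of `Ps` in `Ω` the points `(ξ, ± η)`, `ξ ^ p = z`, `η ^ 2 = f(ξ)`, with `η ≠ 0` (otherwise `2 Q = O` and
`p Q = O`, so `Q = O` as `p` is odd). So `|G| = 1 + 2 n`, `n ≤ natDegree Ps ≤ (p - 1) / 2` the number of
different roots. `G` is a finite group killed by `p`, so `|G|` is a power of `p`, `1 < |G| ≤ p`: `|G| = p`,
`n = (p - 1) / 2 = natDegree Ps`, and `Ps` is separable (as many roots as the degree). (b) → (a): `(p - 1) / 2 > 0`, a root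
`z` of `Ps` gives `Q`. (4) The polynomial `Ps` of `E_j` is `Ps.map (iterateFrobenius ..)`, of the same degree
(`S_Pw`). (5) base change: `IsPs W p A Ps` implies `IsPs (W⁄L) p (A.map ..) (Ps.map ..)` (`mf`, `mg` commute with
`map`, `S_Deg` (2)), same degree. -/
def S_Or : Prop :=
  ∀ (p : ℕ) [Fact p.Prime], p ≠ 2 → ∀ (K : Type) [Field K] [CharP K p]
    (W : WeierstrassCurve K), IsNf W →
    (∀ A Ps : K[X], IsPs W p A Ps →
      (Od p W ↔ Ps.natDegree = (p - 1) / 2) ∧ (0 < Ps.natDegree → Od p W) ∧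
      (Od p W → Ps.Separable)) ∧
    (∀ j : ℕ, Od p (fr p W j) ↔ Od p W) ∧
    ∀ (L : Type) [Field L] [Algebra K L], Od p (W⁄L) ↔ Od p W

/-- **Vs** (250 lines, uses `S_Pts`, `S_Bas`, `S_Pw`, `S_Fr`, `S_Vr`, `S_Vh`, `S_Or`, `S_Mul`). Surjectivity
of `V` over separably closed fields.

Proof. Let `Ω` be the algebraic closure of `L`, `A, Ps` the polynomials of `E_j`. (1) `V` is surjective on
`Ω`-points: `P = p Q` (`S_Mul` (3)) `= V (F Q)`; the kernel of `V` on `E_{j+1}(Ω)` has exactly `p` elements: the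
`Fi Q`, `p Q = O` (`S_Or`: `Ps` has `(p - 1) / 2` different roots `z`, each with two points
`(z, ± y)`, `y ≠ 0`). (2) Let `P = (x₁, y₁) ∈ E_j(L)` with `y₁ ≠ 0`. The polynomial `A - x₁ Ps ^ 2 ∈ L[X]` is monic
of degree `p`, and the abscissae of the `p` points `X + T` (`V X = ι P`, `V T = O`) are roots of it; they are
different: `X + T = ± (X + T')` implies `T = T'` or `2 X = - (T + T')`, `V (2 X) = 2 P = O`, `y₁ = 0`. So it is
separable and its roots are in `L` (`IsSepClosed`: a separable polynomial splits). Let `x ∈ L` be a root;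
`Ps(x) ≠ 0` (coprime); `y ^ 2 = f_{j+1}(x)` has a solution in `L` (`IsSepClosed`, `2 ≠ 0`), `X = (x, y)`,
`V X` has the abscissa `x₁`, so `V X = ± P` and `V (± X) = P`. (3) In general: `L` is infinite, so there is
`P₁ = (x₁, y₁) ∈ E_j(L)` with `y₁ ≠ 0` and (if `P` is given with `2 P = O`) then `P - P₁` has `2 (P - P₁) = - 2 P₁ ≠ O`;
`P = P₁ + (P - P₁)`. (4) the kernel over `L`: `Ps` is separable and splits over `L`, each root `x` gives
`y ∈ L`, `y ≠ 0` (as `y = 0` means `2 X = O` and `p X = F V X = O`), so `p` elements. -/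
def S_Vs : Prop :=
  ∀ (p : ℕ) [Fact p.Prime], p ≠ 2 → ∀ (K : Type) [Field K] [CharP K p]
    (W : WeierstrassCurve K), IsNf W → Od p W → ∀ (j : ℕ) (L : Type) [Field L] [Algebra K L]
    [IsSepClosed L],
    (∀ P : Pt p W j L, ∃ X, Vi p W j X = P) ∧
    {X : Pt p W (j + 1) L | Vi p W j X = 0}.ncard = p

/-- **It** (250 lines, uses `S_Bas`, `S_Fr`, `S_Vh`). The iterates (as in T3).

Proof. (1)-(6) by induction on `n`:
`Fn (n + 1) (Vn (n + 1) P) = Fi (Fn n (Vn n (Vi P))) = Fi (p ^ n • Vi P) = p ^ n • (p • P)`. (7) the fibres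
of `Vi` have at most `p` elements; induction. (8) Let `IsR k R`. `p ^ k • R = Fn (Vn R) = 0`, and
`p ^ n • R ≠ 0` for `n < k`, so `addOrderOf R = p ^ k` (`addOrderOf_eq_prime_pow` or `k = 0`: `R = 0`); the
`p ^ k` multiples of `R` are in the kernel, which has at most `p ^ k` elements. (9)
`Fi (p ^ n • Vi R) = p ^ (n + 1) • R ≠ 0`. (10) injectivity of `pmap`. -/
def S_It : Prop :=
  ∀ (p : ℕ) [Fact p.Prime], p ≠ 2 → ∀ (K : Type) [Field K] [CharP K p]
    (W : WeierstrassCurve K), IsNf W → ∀ (L : Type) [Field L] [Algebra K L],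
    (∀ (n : ℕ) (P Q : Pt p W 0 L), Fn p W n (P + Q) = Fn p W n P + Fn p W n Q) ∧
    (∀ (n : ℕ) (P Q : Pt p W n L), Vn p W n (P + Q) = Vn p W n P + Vn p W n Q) ∧
    (∀ (n : ℕ) (P : Pt p W 0 L), Vn p W n (Fn p W n P) = p ^ n • P) ∧
    (∀ (n : ℕ) (P : Pt p W n L), Fn p W n (Vn p W n P) = p ^ n • P) ∧
    (∀ (n : ℕ) (P Q : Pt p W 0 L), Fn p W n P = Fn p W n Q → P = Q) ∧
    (∀ (n : ℕ) (S M : Type) [Field S] [Field M] [Algebra K S] [Algebra K M] [Algebra S L]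
      [Algebra S M] [IsScalarTower K S L] [IsScalarTower K S M] (f : L →ₐ[S] M),
      (∀ P : Pt p W 0 L, pmap (fr p W n) f (Fn p W n P) = Fn p W n (pmap (fr p W 0) f P)) ∧
      ∀ P : Pt p W n L, pmap (fr p W 0) f (Vn p W n P) = Vn p W n (pmap (fr p W n) f P)) ∧
    (∀ n : ℕ, {P : Pt p W n L | Vn p W n P = 0}.Finite ∧
      {P : Pt p W n L | Vn p W n P = 0}.ncard ≤ p ^ n) ∧
    (∀ (k : ℕ) (R : Pt p W k L), IsR p W k R → addOrderOf R = p ^ k ∧
      ∀ P : Pt p W k L, Vn p W k P = 0 ↔ ∃ m : ℕ, P = m • R) ∧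
    (∀ (k : ℕ) (R : Pt p W (k + 1) L), IsR p W (k + 1) R → IsR p W k (Vi p W k R)) ∧
    ∀ (k : ℕ) (R : Pt p W k L) (S M : Type) [Field S] [Field M] [Algebra K S] [Algebra K M]
      [Algebra S L] [Algebra S M] [IsScalarTower K S L] [IsScalarTower K S M] (f : L →ₐ[S] M),
      IsR p W k R → IsR p W k (pmap (fr p W k) f R)

/-- **Rk** (100 lines, uses `S_Fr`, `S_Vh`, `S_Vs`, `S_It`). Over separably closed fields `Vn` is
surjective and its kernel is cyclic of order `p ^ k`; the group of points is infinite.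

Proof. (1) iterate `S_Vs` (1). (2) `R_0 = O`; `R_1 ≠ O` in the kernel of `V : E_1 → E_0` (it has `p > 1`
elements); for `k ≥ 1` let `V R_{k+1} = R_k`; `Vn (k + 1) R_{k+1} = Vn k R_k = O` and
`p ^ (n + 1) • R_{k+1} = Fi (p ^ n • R_k) ≠ O` for `n < k`, `R_{k+1} ≠ O`. (3) `L` is infinite, for every `x ∈ L`
there is `y` with `y ^ 2 = f_j(x)`. -/
def S_Rk : Prop :=
  ∀ (p : ℕ) [Fact p.Prime], p ≠ 2 → ∀ (K : Type) [Field K] [CharP K p]
    (W : WeierstrassCurve K), IsNf W → ∀ (L : Type) [Field L] [Algebra K L] [IsSepClosed L],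
    (Od p W → (∀ (k : ℕ) (P : Pt p W 0 L), ∃ X, Vn p W k X = P) ∧
      ∀ k : ℕ, ∃ R : Pt p W k L, IsR p W k R) ∧
    ∀ j : ℕ, Infinite (Pt p W j L)

/-- **Rdc** (150 lines, uses `S_Deg`, `S_Pw`, `S_Or`). Integrality and reduction of `A`, `Ps`.

Proof. `W₀` over `R`, `W = W₀.map (R → K)`. `mf W p`, `mg W p` are the images of `mf W₀ p`, `mg W₀ p ∈ R[X]`
(`S_Deg` (2)). So the coefficients of `A` and of `Ps ^ 2` are in `R`; `A = A₀.map`, and `Ps` has coefficients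
in `R` since `R` is integrally closed (`Ps` is a root of `T ^ 2 - Ps ^ 2`, integral over `R[X]`; `R[X]` is integrally closed
in `K[X]`: `Polynomial.isIntegral_iff..`, or: the coefficients of an element of `K[X]` integral over `R[X]` are
integral over `R`). With `R[X] → K[X]` injective `mf W₀ p = expand R p A₀`, `mg W₀ p = expand R p (Ps₀ ^ 2)`; map
to `k` (`map_expand`): `IsPs (W₀.map φ) p (A₀.map φ) (Ps₀.map φ)`. If `W₀.map φ` is ordinary then
`(Ps₀.map φ).natDegree = (p - 1) / 2 ≥ Ps₀.natDegree`, so the leading coefficient of `Ps₀` is not killed by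
`φ`, and `Ps₀` has the degree `(p - 1) / 2 > 0`, so `W` is ordinary. -/
def S_Rdc : Prop :=
  ∀ (p : ℕ) [Fact p.Prime], p ≠ 2 → ∀ (R : Type) [CommRing R] [IsDomain R]
    [IsIntegrallyClosed R] [CharP R p] (K : Type) [Field K] [Algebra R K] [IsFractionRing R K]
    [CharP K p] (W₀ : WeierstrassCurve R), IsNf W₀ → ∀ A Ps : K[X],
    IsPs (W₀.map (algebraMap R K)) p A Ps →
    ∃ A₀ Ps₀ : R[X], A₀.Monic ∧ A₀.map (algebraMap R K) = A ∧ Ps₀.map (algebraMap R K) = Ps ∧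
      ∀ (k : Type) [Field k] [CharP k p] (φ : R →+* k),
        IsPs (W₀.map φ) p (A₀.map φ) (Ps₀.map φ) ∧
        (Od p (W₀.map φ) → Ps₀.natDegree = (p - 1) / 2 ∧ φ Ps₀.leadingCoeff ≠ 0 ∧
          (Ps₀.map φ).Separable ∧ Od p (W₀.map (algebraMap R K)))

end Pool.Agent.MP72V
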