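import Pool.Agent.Lib.MP_72e2e6_nt.W2.Stmt

/-!
# MP_72e2e6_nt, theorem T3 for odd characteristic, elliptic block: definitions

The curves are `W : y ^ 2 = x ^ 3 + a₂ x ^ 2 + a₄ x + a₆` (`IsNf W`), `p` is an odd prime,
`E_j = fr p j W` has the coefficients of `W` raised to the power `p ^ j`, `F : E_j → E_{j + 1}` is the
Frobenius isogeny (`Fi`), `V : E_{j + 1} → E_j` is the isogeny with `V F = F V = p` (`Vi`).
-/

namespace Pool.Agent.MP72V

open Polynomial WeierstrassCurve
open Pool.Agent.MP72W (pmap)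

open scoped Classical

/-- The curves `y ^ 2 = x ^ 3 + a₂ x ^ 2 + a₄ x + a₆` with invertible discriminant. -/
structure IsNf {R : Type} [CommRing R] (W : WeierstrassCurve R) : Prop where
  a1 : W.a₁ = 0
  a3 : W.a₃ = 0
  dis : IsUnit W.Δ

section

variable {L : Type} [Field L]

/-- `P = (x, y)`. -/
def XY {W : WeierstrassCurve.Affine L} (P : W.Point) (x y : L) : Prop :=
  ∃ h : W.Nonsingular x y, P = .some x y h

/-- The `x`-coordinate (`0` for the point at infinity). -/
def px {W : WeierstrassCurve.Affine L} : W.Point → L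
  | .zero => 0
  | .some x _ _ => x

/-- The `y`-coordinate (`0` for the point at infinity). -/
def py {W : WeierstrassCurve.Affine L} : W.Point → L
  | .zero => 0
  | .some _ y _ => y

/-- `(u : v)` are homogeneous coordinates of the abscissa of `P` (`(1 : 0)` for the point at
infinity). -/
structure Rp {W : WeierstrassCurve.Affine L} (P : W.Point) (u v : L) : Prop where
  nz : u ≠ 0 ∨ v ≠ 0
  zero : P = 0 → v = 0
  aff : ∀ x y, XY P x y → v ≠ 0 ∧ u = x * v

/-- `w` is the value at `P` of the invariant differential `d x / (2 y)` with respect to the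
derivation `D`. -/
structure IsOm {W : WeierstrassCurve.Affine L} (D : Derivation ℤ L L) (P : W.Point) (w : L) :
    Prop where
  zero : P = 0 → w = 0
  aff : ∀ x y, XY P x y →
    D x = 2 * y * w ∧ D y = (3 * x ^ 2 + 2 * W.a₂ * x + W.a₄) * w

end

section

variable {R : Type} [CommRing R] (W : WeierstrassCurve R)

/-- The cubic polynomial. -/
noncomputable def cub : R[X] := X ^ 3 + C W.a₂ * X ^ 2 + C W.a₄ * X + C W.a₆

/-- First component of the addition-subtraction map at `(X f, f + X g, g)`. -/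
noncomputable def A0 (f g : R[X]) : R[X] :=
  (X * f) ^ 2 - C (2 * W.a₄) * (X * f) * g - C (4 * W.a₆) * (f + X * g) * g -
    C (4 * W.a₂ * W.a₆ - W.a₄ ^ 2) * g ^ 2

/-- Second component. -/
noncomputable def A1 (f g : R[X]) : R[X] :=
  2 * (f + X * g) * (X * f) + C (4 * W.a₂) * (X * f) * g + C (2 * W.a₄) * (f + X * g) * g +
    C (4 * W.a₆) * g ^ 2

/-- The polynomials `f_n`, `g_n` with `x(n P) = f_n(x) / g_n(x)`. -/
noncomputable def mfg : ℕ → R[X] × R[X]
  | 0 => (1, 0)
  | 1 => (X, 1)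
  | n + 2 => (A0 W (mfg (n + 1)).1 (mfg (n + 1)).2 /ₘ (mfg n).1,
      (A1 W (mfg (n + 1)).1 (mfg (n + 1)).2 -
        (A0 W (mfg (n + 1)).1 (mfg (n + 1)).2 /ₘ (mfg n).1) * (mfg n).2) /ₘ (mfg n).1)

/-- The numerator `f_n`. -/
noncomputable def mf (n : ℕ) : R[X] := (mfg W n).1

/-- The denominator `g_n`. -/
noncomputable def mg (n : ℕ) : R[X] := (mfg W n).2

/-- `x(V X) = A(x) / Ps(x) ^ 2` for the isogeny `V : E_1 → E_0`. -/
structure IsPs (p : ℕ) (A Ps : R[X]) : Prop where
  num : mf W p = expand R p A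
  den : mg W p = expand R p (Ps ^ 2)

end

section

variable {K : Type} [Field K] (p : ℕ) (W : WeierstrassCurve K)

/-- The curves `E_j`: the coefficients of `W` raised to the power `p ^ j`. -/
def fr (j : ℕ) : WeierstrassCurve K :=
  ⟨W.a₁ ^ p ^ j, W.a₂ ^ p ^ j, W.a₃ ^ p ^ j, W.a₄ ^ p ^ j, W.a₆ ^ p ^ j⟩

/-- The points of `E_j` over `L`. -/
abbrev Pt (j : ℕ) (L : Type) [Field L] [Algebra K L] : Type := ((fr p W j)⁄L).toAffine.Point

/-- There is a point of order `p` over the algebraic closure. -/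
def Od : Prop :=
  ∃ P : (W⁄(AlgebraicClosure K)).toAffine.Point, P ≠ 0 ∧ p • P = 0

variable {L : Type} [Field L] [Algebra K L]

/-- The Frobenius isogeny `E_j → E_{j + 1}`, `(x, y) ↦ (x ^ p, y ^ p)`. -/
noncomputable def Fi (j : ℕ) (P : Pt p W j L) : Pt p W (j + 1) L :=
  if h : ∃ Q : Pt p W (j + 1) L, P ≠ 0 ∧ XY Q (px P ^ p) (py P ^ p) then h.choose else 0

/-- `P = V X`: over the algebraic closure of `L` one has `X = F Q` and `P = p Q`. -/
def Vrel (j : ℕ) (X : Pt p W (j + 1) L) (P : Pt p W j L) : Prop :=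
  ∃ Q : Pt p W j (AlgebraicClosure L),
    Fi p W j Q = pmap (fr p W (j + 1)) (Algebra.ofId L (AlgebraicClosure L)) X ∧
      pmap (fr p W j) (Algebra.ofId L (AlgebraicClosure L)) P = p • Q

/-- The isogeny `V : E_{j + 1} → E_j`. -/
noncomputable def Vi (j : ℕ) (X : Pt p W (j + 1) L) : Pt p W j L :=
  if h : ∃ P : Pt p W j L, Vrel p W j X P then h.choose else 0

/-- The isogeny `E_0 → E_n`. -/
noncomputable def Fn : (n : ℕ) → Pt p W 0 L → Pt p W n L
  | 0, P => P
  | n + 1, P => Fi p W n (Fn n P)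

/-- The isogeny `E_n → E_0`. -/
noncomputable def Vn : (n : ℕ) → Pt p W n L → Pt p W 0 L
  | 0, P => P
  | n + 1, P => Vn n (Vi p W n P)

/-- `R` generates the kernel of `Vn k`. -/
def IsR (k : ℕ) (R : Pt p W k L) : Prop := Vn p W k R = 0 ∧ ∀ n < k, p ^ n • R ≠ 0

end

end Pool.Agent.MP72V
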