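import Pool.Agent.Lib.MP_72e2e6_nt.WP.El.Spec

/-!
# MP_72e2e6_nt, theorem T3 for odd characteristic, elliptic block: the Frobenius isogeny
-/

namespace Pool.Agent.MP72V

open Polynomial WeierstrassCurve
open Pool.Agent.MP72W (pmap)

open scoped Classical

theorem tFr (h1 : S_Pts) (h2 : S_Bas) : S_Fr := by
  intro p _ hp K _ _ W hW j L _ _
  have h2K : (2 : K) ≠ 0 := by
    intro h
    have h3 : ((2 : ℕ) : K) = 0 := by exact_mod_cast h
    rw [CharP.cast_eq_zero_iff K p 2] at h3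
    exact hp ((Nat.prime_dvd_prime_iff_eq (Fact.out : p.Prime) Nat.prime_two).1 h3)
  have hodd : Odd p := (Fact.out : p.Prime).odd_of_ne_two hp
  obtain ⟨hb1, hb2⟩ := h2
  obtain ⟨hb3, -⟩ := hb2 K p W hW
  -- general facts over an extension field
  have gen : ∀ (M : Type) [Field M] [Algebra K M],
      Fi p W j (0 : Pt p W j M) = 0 ∧
      (∀ (P : Pt p W j M) (x y : M), XY P x y → XY (Fi p W j P) (x ^ p) (y ^ p)) ∧
      (∀ (P : Pt p W (j + 1) M) (x y : M), XY P (x ^ p) (y ^ p) →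
        ∃ P₁ : Pt p W j M, XY P₁ x y) := by
    intro M _ _
    haveI : CharP M p := charP_of_injective_algebraMap (algebraMap K M).injective p
    obtain ⟨h2M, hN, ha2, ha4, ha6, -⟩ := hb1 K h2K (fr p W j) (hb3 j).1 M
    obtain ⟨-, hN', ha2', ha4', ha6', -⟩ := hb1 K h2K (fr p W (j + 1)) (hb3 (j + 1)).1 M
    have e2 : ((fr p W (j + 1))⁄M).toAffine.a₂ = ((fr p W j)⁄M).toAffine.a₂ ^ p := by
      rw [ha2', ha2, ← map_pow]
      change algebraMap K M (W.a₂ ^ p ^ (j + 1)) = algebraMap K M ((W.a₂ ^ p ^ j) ^ p)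
      rw [← pow_mul, pow_succ]
    have e4 : ((fr p W (j + 1))⁄M).toAffine.a₄ = ((fr p W j)⁄M).toAffine.a₄ ^ p := by
      rw [ha4', ha4, ← map_pow]
      change algebraMap K M (W.a₄ ^ p ^ (j + 1)) = algebraMap K M ((W.a₄ ^ p ^ j) ^ p)
      rw [← pow_mul, pow_succ]
    have e6 : ((fr p W (j + 1))⁄M).toAffine.a₆ = ((fr p W j)⁄M).toAffine.a₆ ^ p := by
      rw [ha6', ha6, ← map_pow]
      change algebraMap K M (W.a₆ ^ p ^ (j + 1)) = algebraMap K M ((W.a₆ ^ p ^ j) ^ p)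
      rw [← pow_mul, pow_succ]
    obtain ⟨q1, q2, q3, q4, -⟩ := h1 M h2M ((fr p W j)⁄M).toAffine hN
    obtain ⟨r1, r2, r3, r4, -⟩ := h1 M h2M ((fr p W (j + 1))⁄M).toAffine hN'
    have eqv : ∀ x y : M, (y ^ p) ^ 2 = (x ^ p) ^ 3 +
        ((fr p W (j + 1))⁄M).toAffine.a₂ * (x ^ p) ^ 2 +
        ((fr p W (j + 1))⁄M).toAffine.a₄ * x ^ p + ((fr p W (j + 1))⁄M).toAffine.a₆ ↔
        y ^ 2 = x ^ 3 + ((fr p W j)⁄M).toAffine.a₂ * x ^ 2 +
          ((fr p W j)⁄M).toAffine.a₄ * x + ((fr p W j)⁄M).toAffine.a₆ := by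
      intro x y
      rw [e2, e4, e6]
      have e : ∀ z : M, z ^ p = frobenius M p z := fun z => rfl
      simp only [e]
      rw [← map_pow, ← map_pow, ← map_pow, ← map_mul, ← map_mul, ← map_add, ← map_add, ← map_add]
      exact (frobenius_inj M p).eq_iff
    refine ⟨?_, ?_, ?_⟩
    · unfold Fi
      rw [dif_neg]
      rintro ⟨Q, hQ, -⟩
      exact hQ rfl
    · intro P x y hP
      obtain ⟨hP0, hPx, hPy, hPe⟩ := q2 P x y hP
      have hex : ∃ Q : Pt p W (j + 1) M, P ≠ 0 ∧ XY Q (px P ^ p) (py P ^ p) := by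
        rw [hPx, hPy]
        obtain ⟨Q, hQ⟩ := r3 (x ^ p) (y ^ p) ((eqv x y).2 hPe)
        exact ⟨Q, hP0, hQ⟩
      have hs := hex.choose_spec.2
      unfold Fi
      rw [dif_pos hex]
      have key : ∀ (Q : Pt p W (j + 1) M) (a b : M), XY Q a b → a = x ^ p → b = y ^ p →
          XY Q (x ^ p) (y ^ p) := by
        rintro Q _ _ h rfl rfl
        exact h
      exact key _ _ _ hs (by rw [hPx]) (by rw [hPy])
    · intro P x y hP
      exact q3 x y ((eqv x y).1 (r2 P _ _ hP).2.2.2)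
  haveI : CharP L p := charP_of_injective_algebraMap (algebraMap K L).injective p
  obtain ⟨h2L, hN, ha2, ha4, ha6, hpm⟩ := hb1 K h2K (fr p W j) (hb3 j).1 L
  obtain ⟨-, hN', ha2', ha4', ha6', hpm'⟩ := hb1 K h2K (fr p W (j + 1)) (hb3 (j + 1)).1 L
  have e2 : ((fr p W (j + 1))⁄L).toAffine.a₂ = ((fr p W j)⁄L).toAffine.a₂ ^ p := by
    rw [ha2', ha2, ← map_pow]
    change algebraMap K L (W.a₂ ^ p ^ (j + 1)) = algebraMap K L ((W.a₂ ^ p ^ j) ^ p)
    rw [← pow_mul, pow_succ]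
  have e4 : ((fr p W (j + 1))⁄L).toAffine.a₄ = ((fr p W j)⁄L).toAffine.a₄ ^ p := by
    rw [ha4', ha4, ← map_pow]
    change algebraMap K L (W.a₄ ^ p ^ (j + 1)) = algebraMap K L ((W.a₄ ^ p ^ j) ^ p)
    rw [← pow_mul, pow_succ]
  obtain ⟨q1, q2, q3, q4, q5, q6, q7, q8, q9, -⟩ := h1 L h2L ((fr p W j)⁄L).toAffine hN
  obtain ⟨r1, r2, r3, r4, r5, r6, r7, r8, r9, -⟩ := h1 L h2L ((fr p W (j + 1))⁄L).toAffine hN'
  obtain ⟨g1, g2, g3⟩ := gen L
  have hfr : ∀ z : L, frobenius L p z = z ^ p := fun z => rfl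
  refine ⟨g1, g2, ?_, ?_, ?_, ?_⟩
  · intro P Q
    rcases q1 P with rfl | ⟨x, y, hP⟩
    · rw [zero_add, g1, zero_add]
    rcases q1 Q with rfl | ⟨x', y', hQ⟩
    · rw [add_zero, g1, add_zero]
    have hFP := g2 P x y hP
    have hFQ := g2 Q x' y' hQ
    by_cases hx : x = x'
    · subst hx
      rcases q6 P Q x y y' hP hQ with rfl | rfl
      · by_cases hy : y = 0
        · subst hy
          rw [zero_pow (Fact.out : p.Prime).ne_zero] at hFP
          rw [q9 Q x hP, g1, r9 _ _ hFP]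
        · have hy' : y ^ p ≠ 0 := pow_ne_zero p hy
          have a1 := q8 Q x y _ hP hy rfl
          have a2 := r8 (Fi p W j Q) (x ^ p) (y ^ p) _ hFP hy' rfl
          have a3 := g2 (Q + Q) _ _ a1
          refine r4 _ _ _ _ a3 ?_
          have el : (3 * (x ^ p) ^ 2 + 2 * ((fr p W (j + 1))⁄L).toAffine.a₂ * x ^ p +
              ((fr p W (j + 1))⁄L).toAffine.a₄) / (2 * y ^ p) =
              frobenius L p ((3 * x ^ 2 + 2 * ((fr p W j)⁄L).toAffine.a₂ * x +
                ((fr p W j)⁄L).toAffine.a₄) / (2 * y)) := by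
            rw [e2, e4]
            simp only [map_div₀, map_add, map_mul, map_pow, map_ofNat]
            simp only [hfr]
          rw [el] at a2
          have ex : frobenius L p ((3 * x ^ 2 + 2 * ((fr p W j)⁄L).toAffine.a₂ * x +
                ((fr p W j)⁄L).toAffine.a₄) / (2 * y)) ^ 2 -
                ((fr p W (j + 1))⁄L).toAffine.a₂ - x ^ p - x ^ p =
              (((3 * x ^ 2 + 2 * ((fr p W j)⁄L).toAffine.a₂ * x +
                ((fr p W j)⁄L).toAffine.a₄) / (2 * y)) ^ 2 -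
                ((fr p W j)⁄L).toAffine.a₂ - x - x) ^ p := by
            rw [e2, ← hfr, ← hfr, ← hfr, map_sub, map_sub, map_sub, map_pow]
          rw [ex] at a2
          have ey : frobenius L p ((3 * x ^ 2 + 2 * ((fr p W j)⁄L).toAffine.a₂ * x +
                ((fr p W j)⁄L).toAffine.a₄) / (2 * y)) *
              (x ^ p - (((3 * x ^ 2 + 2 * ((fr p W j)⁄L).toAffine.a₂ * x +
                ((fr p W j)⁄L).toAffine.a₄) / (2 * y)) ^ 2 -
                ((fr p W j)⁄L).toAffine.a₂ - x - x) ^ p) - y ^ p =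
              (((3 * x ^ 2 + 2 * ((fr p W j)⁄L).toAffine.a₂ * x +
                ((fr p W j)⁄L).toAffine.a₄) / (2 * y)) *
              (x - (((3 * x ^ 2 + 2 * ((fr p W j)⁄L).toAffine.a₂ * x +
                ((fr p W j)⁄L).toAffine.a₄) / (2 * y)) ^ 2 -
                ((fr p W j)⁄L).toAffine.a₂ - x - x)) - y) ^ p := by
            rw [← hfr x, ← hfr y, ← hfr, ← hfr, ← map_sub, ← map_mul, ← map_sub]
          rw [ey] at a2
          exact a2
      · have a1 := g2 (-P) x (-y) (q5 P x y hP)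
        rw [hodd.neg_pow] at a1
        have a2 := r5 _ _ _ hFP
        rw [r4 _ _ _ _ a1 a2, add_neg_cancel, add_neg_cancel, g1]
    · have hx' : x ^ p ≠ x' ^ p := fun h => hx (frobenius_inj L p h)
      have a1 := q7 P Q x y x' y' _ hP hQ hx rfl
      have a2 := r7 _ _ _ _ _ _ _ hFP hFQ hx' rfl
      have a3 := g2 (P + Q) _ _ a1
      refine r4 _ _ _ _ a3 ?_
      have el : (y ^ p - y' ^ p) / (x ^ p - x' ^ p) =
          frobenius L p ((y - y') / (x - x')) := by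
        simp only [map_div₀, map_sub]
        simp only [hfr]
      rw [el] at a2
      have ex : frobenius L p ((y - y') / (x - x')) ^ 2 -
            ((fr p W (j + 1))⁄L).toAffine.a₂ - x ^ p - x' ^ p =
          (((y - y') / (x - x')) ^ 2 - ((fr p W j)⁄L).toAffine.a₂ - x - x') ^ p := by
        rw [e2, ← hfr, ← hfr, ← hfr, ← hfr, map_sub, map_sub, map_sub, map_pow]
      rw [ex] at a2
      have ey : frobenius L p ((y - y') / (x - x')) *
          (x ^ p - (((y - y') / (x - x')) ^ 2 - ((fr p W j)⁄L).toAffine.a₂ - x - x') ^ p) -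
            y ^ p =
          (((y - y') / (x - x')) *
          (x - (((y - y') / (x - x')) ^ 2 - ((fr p W j)⁄L).toAffine.a₂ - x - x')) - y) ^ p := by
        rw [← hfr x, ← hfr y, ← hfr, ← hfr, ← map_sub, ← map_mul, ← map_sub]
      rw [ey] at a2
      exact a2
  · intro P Q hPQ
    rcases q1 P with rfl | ⟨x, y, hP⟩
    · rcases q1 Q with rfl | ⟨x', y', hQ⟩
      · rfl
      · rw [g1] at hPQ
        exact absurd hPQ.symm (r2 _ _ _ (g2 Q x' y' hQ)).1
    · rcases q1 Q with rfl | ⟨x', y', hQ⟩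
      · rw [g1] at hPQ
        exact absurd hPQ (r2 _ _ _ (g2 P x y hP)).1
      · obtain ⟨-, a1, a2, -⟩ := r2 _ _ _ (g2 P x y hP)
        obtain ⟨-, a3, a4, -⟩ := r2 _ _ _ (g2 Q x' y' hQ)
        rw [hPQ, a3] at a1
        rw [hPQ, a4] at a2
        have hx : x' = x := frobenius_inj L p a1
        have hy : y' = y := frobenius_inj L p a2
        subst hx
        subst hy
        exact q4 P Q _ _ hP hQ
  · intro S M _ _ _ _ _ _ _ _ f P
    obtain ⟨g1', g2', -⟩ := gen M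
    obtain ⟨h2M, -⟩ := hb1 K h2K (fr p W j) (hb3 j).1 M
    obtain ⟨-, hM', -⟩ := hb1 K h2K (fr p W (j + 1)) (hb3 (j + 1)).1 M
    obtain ⟨-, -, -, s4, -⟩ := h1 M h2M ((fr p W (j + 1))⁄M).toAffine hM'
    rcases q1 P with rfl | ⟨x, y, hP⟩
    · rw [g1, map_zero, map_zero, g1']
    · have a1 := (hpm S M f).1 P x y hP
      have a2 := g2' _ _ _ a1
      have a3 := (hpm' S M f).1 _ _ _ (g2 P x y hP)
      rw [map_pow, map_pow] at a3
      exact s4 _ _ _ _ a3 a2
  · intro P x y hP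
    obtain ⟨P₁, hP₁⟩ := g3 P x y hP
    exact ⟨P₁, hP₁, r4 _ _ _ _ (g2 P₁ x y hP₁) hP⟩

end Pool.Agent.MP72V
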