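import Pool.Agent.Lib.MP_72e2e6_nt.WP.El.Spec

/-!
# MP_72e2e6_nt, theorem T3 for odd characteristic, elliptic block: `S_Rdc`
-/

namespace Pool.Agent.MP72V

open Polynomial WeierstrassCurve
open Pool.Agent.MP72W (pmap)

open scoped Classical

private theorem nf_map {R S : Type} [CommRing R] [CommRing S] (W : WeierstrassCurve R)
    (hW : IsNf W) (f : R →+* S) : IsNf (W.map f) := by
  refine ⟨?_, ?_, ?_⟩
  · change f W.a₁ = 0
    rw [hW.a1, map_zero]
  · change f W.a₃ = 0
    rw [hW.a3, map_zero]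
  · rw [WeierstrassCurve.map_Δ]
    exact hW.dis.map f

section

attribute [local instance] Polynomial.algebra

private theorem sq_lift (R K : Type) [CommRing R] [IsDomain R] [IsIntegrallyClosed R] [Field K]
    [Algebra R K] [IsFractionRing R K] (B : R[X]) (Ps : K[X])
    (h : Ps ^ 2 = B.map (algebraMap R K)) : ∃ Ps₀ : R[X], Ps₀.map (algebraMap R K) = Ps := by
  have hint : IsIntegral R[X] Ps := by
    refine ⟨X ^ 2 - C B, ?_, ?_⟩
    · exact monic_X_pow_sub_C B two_ne_zero
    · rw [eval₂_sub, eval₂_pow, eval₂_X, eval₂_C, h]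
      exact sub_self _
  have hc : ∀ i, ∃ r : R, algebraMap R K r = Ps.coeff i := fun i =>
    IsIntegrallyClosed.isIntegral_iff.mp (hint.coeff i)
  have hl : Ps ∈ Polynomial.lifts (algebraMap R K) := by
    rw [Polynomial.lifts_iff_coeff_lifts]
    intro n
    obtain ⟨r, hr⟩ := hc n
    exact ⟨r, hr⟩
  rw [Polynomial.mem_lifts] at hl
  exact hl

end

theorem tRdc (h1 : S_Deg) (h2 : S_Pw) (h3 : S_Or) : S_Rdc := by
  intro p hp hp2 R _ _ _ _ K _ _ _ _ W₀ hW₀ A Ps hPs
  have hp0 : p ≠ 0 := hp.out.ne_zero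
  have hinj : Function.Injective (algebraMap R K) := IsFractionRing.injective R K
  obtain ⟨hA1, hA2, hP1, hP2, -⟩ :=
    (h2 p hp2 K (W₀.map (algebraMap R K)) (nf_map W₀ hW₀ _)).2 A Ps hPs
  have e1 : (mf W₀ p).map (algebraMap R K) = expand K p A := by
    rw [← (h1.2 R K (algebraMap R K) W₀ p).1, hPs.num]
  have e2 : (mg W₀ p).map (algebraMap R K) = expand K p (Ps ^ 2) := by
    rw [← (h1.2 R K (algebraMap R K) W₀ p).2, hPs.den]
  have e3 : (contract p (mf W₀ p)).map (algebraMap R K) = A := by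
    rw [map_contract hp0, e1, contract_expand _ hp0]
  have e4 : (contract p (mg W₀ p)).map (algebraMap R K) = Ps ^ 2 := by
    rw [map_contract hp0, e2, contract_expand _ hp0]
  obtain ⟨Ps₀, hPs₀⟩ := sq_lift R K _ Ps e4.symm
  have e5 : mf W₀ p = expand R p (contract p (mf W₀ p)) := by
    apply Polynomial.map_injective _ hinj
    rw [map_expand, e3, e1]
  have e6 : mg W₀ p = expand R p (Ps₀ ^ 2) := by
    apply Polynomial.map_injective _ hinj
    rw [map_expand, Polynomial.map_pow, hPs₀, e2]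
  refine ⟨contract p (mf W₀ p), Ps₀, ?_, e3, hPs₀, ?_⟩
  · apply Polynomial.monic_of_injective hinj
    rw [e3]
    exact hA1
  · intro k _ _ φ
    have hk : IsPs (W₀.map φ) p ((contract p (mf W₀ p)).map φ) (Ps₀.map φ) := by
      refine ⟨?_, ?_⟩
      · rw [(h1.2 R k φ W₀ p).1]
        conv_lhs => rw [e5]
        rw [map_expand]
      · rw [(h1.2 R k φ W₀ p).2]
        conv_lhs => rw [e6]
        rw [map_expand, Polynomial.map_pow]
    refine ⟨hk, ?_⟩
    intro hod
    obtain ⟨q1, q2, q3⟩ := (h3 p hp2 k (W₀.map φ) (nf_map W₀ hW₀ φ)).1 _ _ hk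
    have hd := q1.mp hod
    have hle : (Ps₀.map φ).natDegree ≤ Ps₀.natDegree := natDegree_map_le
    have hdeg : Ps.natDegree = Ps₀.natDegree := by
      rw [← hPs₀, natDegree_map_eq_of_injective hinj]
    have hd0 : Ps₀.natDegree = (p - 1) / 2 := by
      apply le_antisymm
      · rw [← hdeg]
        exact hP2
      · rw [← hd]
        exact hle
    have hp3 : 3 ≤ p := by
      have := hp.out.two_le
      omega
    have hpos : 0 < (p - 1) / 2 := by omega
    refine ⟨hd0, ?_, q3 hod, ?_⟩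
    · have hnz : Ps₀.map φ ≠ 0 := by
        intro h0
        rw [h0, natDegree_zero] at hd
        omega
      have hlc : (Ps₀.map φ).coeff (Ps₀.map φ).natDegree ≠ 0 := by
        rw [coeff_natDegree]
        exact leadingCoeff_ne_zero.mpr hnz
      rw [hd, ← hd0, coeff_map, coeff_natDegree] at hlc
      exact hlc
    · apply ((h3 p hp2 K (W₀.map (algebraMap R K)) (nf_map W₀ hW₀ _)).1 A Ps hPs).2.1
      rw [hdeg, hd0]
      exact hpos

end Pool.Agent.MP72V
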