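import Pool.Agent.Lib.MP_72e2e6_nt.WP.El.Spec

/-!
# MP_72e2e6_nt, theorem T3 for odd characteristic, elliptic block: generators of the kernels
-/

namespace Pool.Agent.MP72V

open Polynomial WeierstrassCurve
open Pool.Agent.MP72W (pmap)

open scoped Classical

private theorem rk_infinite (p : ℕ) [Fact p.Prime] (L : Type) [Field L] [CharP L p]
    [IsSepClosed L] : Infinite L := by
  by_contra hfin
  rw [not_infinite_iff_finite] at hfin
  have := Fintype.ofFinite L
  have hq1 : 1 < Fintype.card L := Fintype.one_lt_card
  have hq0 : ((Fintype.card L : ℕ) : L) = 0 := FiniteField.cast_card_eq_zero L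
  let f : L[X] := X ^ Fintype.card L - X + C 1
  have hdeg : f.degree ≠ 0 := by
    have h1 : (X ^ Fintype.card L - X : L[X]).natDegree = Fintype.card L :=
      FiniteField.X_pow_card_sub_X_natDegree_eq L hq1
    have h2 : f.natDegree = Fintype.card L := by
      show (X ^ Fintype.card L - X + C 1 : L[X]).natDegree = _
      rw [natDegree_add_C, h1]
    intro h0
    have h3 : f.natDegree = 0 := natDegree_eq_of_degree_eq_some h0
    omega
  have hsep : f.Separable := by
    have hd : derivative f = -1 := by
      show derivative (X ^ Fintype.card L - X + C 1 : L[X]) = -1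
      rw [derivative_add, derivative_sub, derivative_X_pow, derivative_X, derivative_C, hq0]
      simp
    rw [separable_def, hd]
    exact isCoprime_one_right.neg_right
  obtain ⟨x, hx⟩ := IsSepClosed.exists_root f hdeg hsep
  have h3 : x ^ Fintype.card L - x + 1 = 0 := by
    have h4 : f.eval x = 0 := hx
    simpa [f] using h4
  rw [FiniteField.pow_card, sub_self, zero_add] at h3
  exact one_ne_zero h3

private theorem rk_fr {K : Type} [Field K] (p : ℕ) [Fact p.Prime] [CharP K p]
    (W : WeierstrassCurve K) (j : ℕ) : fr p W j = W.map (iterateFrobenius K p j) := by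
  ext <;> simp [fr, WeierstrassCurve.map, iterateFrobenius_def]

theorem tRk (h1 : S_Fr) (h2 : S_Vh) (h3 : S_Vs) (h4 : S_It) : S_Rk := by
  intro p hp hp2 K _ _ W hW L _ _ _
  have : CharP L p := charP_of_injective_algebraMap (algebraMap K L).injective p
  refine ⟨fun hO => ⟨?_, ?_⟩, ?_⟩
  · intro k
    induction k with
    | zero => exact fun P => ⟨P, rfl⟩
    | succ k ih =>
      intro P
      obtain ⟨X, hX⟩ := ih P
      obtain ⟨Y, hY⟩ := (h3 p hp2 K W hW hO k L).1 X
      refine ⟨Y, ?_⟩
      show Vn p W k (Vi p W k Y) = P
      rw [hY, hX]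
  · have key : ∀ k : ℕ, ∃ R : Pt p W (k + 1) L, IsR p W (k + 1) R := by
      intro k
      induction k with
      | zero =>
        have hn := (h3 p hp2 K W hW hO 0 L).2
        have hn1 : 1 < {X : Pt p W (0 + 1) L | Vi p W 0 X = 0}.ncard := by
          rw [hn]; exact hp.out.one_lt
        obtain ⟨R, hR, hR0⟩ := Set.exists_ne_of_one_lt_ncard hn1 (0 : Pt p W (0 + 1) L)
        refine ⟨R, hR, ?_⟩
        intro n hn2
        have : n = 0 := by omega
        subst this
        rw [pow_zero, one_nsmul]
        exact hR0
      | succ k ih =>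
        obtain ⟨R, hR0, hR⟩ := ih
        obtain ⟨X, hX⟩ := (h3 p hp2 K W hW hO (k + 1) L).1 R
        refine ⟨X, ?_, ?_⟩
        · show Vn p W (k + 1) (Vi p W (k + 1) X) = 0
          rw [hX, hR0]
        · obtain ⟨v0, -, -, v4, -, -⟩ := h2 p hp2 K W hW (k + 1) L
          obtain ⟨f0, -, f3, f4, -, -⟩ := h1 p hp2 K W hW (k + 1) L
          let φ : Pt p W (k + 1) L →+ Pt p W (k + 1 + 1) L :=
            { toFun := Fi p W (k + 1), map_zero' := f0, map_add' := f3 }
          intro n hn
          cases n with
          | zero =>
            rw [pow_zero, one_nsmul]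
            intro hX0
            rw [hX0, v0] at hX
            have := hR 0 (Nat.succ_pos k)
            rw [pow_zero, one_nsmul] at this
            exact this hX.symm
          | succ m =>
            rw [pow_succ, mul_nsmul', ← v4 X, hX]
            intro h0
            have h5 : φ (p ^ m • R) = 0 := by
              rw [map_nsmul]
              exact h0
            have h6 : Fi p W (k + 1) (p ^ m • R) = Fi p W (k + 1) 0 := by
              rw [f0]
              exact h5
            exact hR m (by omega) (f4 _ _ h6)
    intro k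
    cases k with
    | zero => exact ⟨0, rfl, fun n hn => absurd hn (Nat.not_lt_zero n)⟩
    | succ k => exact key k
  · intro j
    have := rk_infinite p L
    have h2L : (2 : L) ≠ 0 := by
      intro h0
      have : ((2 : ℕ) : L) = 0 := by exact_mod_cast h0
      rw [CharP.cast_eq_zero_iff L p] at this
      have h5 := Nat.le_of_dvd (by norm_num) this
      have h6 := hp.out.two_le
      exact hp2 (le_antisymm h5 h6)
    have : NeZero (2 : L) := ⟨h2L⟩
    let E : WeierstrassCurve.Affine L := ((fr p W j)⁄L).toAffine
    have hΔ : E.Δ ≠ 0 := by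
      show ((fr p W j).map (algebraMap K L)).Δ ≠ 0
      rw [WeierstrassCurve.map_Δ, rk_fr, WeierstrassCurve.map_Δ]
      rw [Ne, map_eq_zero, map_eq_zero]
      exact hW.dis.ne_zero
    have ha1 : E.a₁ = 0 := by
      show ((fr p W j).map (algebraMap K L)).a₁ = 0
      rw [rk_fr]
      show algebraMap K L (iterateFrobenius K p j W.a₁) = 0
      rw [hW.a1, map_zero, map_zero]
    have ha3 : E.a₃ = 0 := by
      show ((fr p W j).map (algebraMap K L)).a₃ = 0
      rw [rk_fr]
      show algebraMap K L (iterateFrobenius K p j W.a₃) = 0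
      rw [hW.a3, map_zero, map_zero]
    have hex : ∀ x : L, ∃ y : L, E.Nonsingular x y := by
      intro x
      obtain ⟨y, hy⟩ := IsSepClosed.exists_eq_mul_self (x ^ 3 + E.a₂ * x ^ 2 + E.a₄ * x + E.a₆)
      refine ⟨y, ?_⟩
      rw [← WeierstrassCurve.Affine.equation_iff_nonsingular_of_Δ_ne_zero hΔ]
      rw [WeierstrassCurve.Affine.equation_iff, ha1, ha3, hy]
      ring
    choose g hg using hex
    have hinj : Function.Injective (fun x : L => (WeierstrassCurve.Affine.Point.some x (g x) (hg x) :
        E.Point)) := by
      intro x x' hxx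
      have := WeierstrassCurve.Affine.Point.some.inj hxx
      exact this.1
    exact Infinite.of_injective _ hinj

end Pool.Agent.MP72V
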